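import Pool.Agent.Lib.NullShell.Adj

set_option autoImplicit false

/-!
Pointwise linear algebra of a symmetric 3x3 matrix which kills a unit vector.
-/

namespace NShell

variable (B : Fin 3 → Fin 3 → ℝ) (x : Fin 3 → ℝ) (s D : ℝ)

theorem cayley (hx : ∑ i, x i ^ 2 = 1) (hs : ∀ i j, B i j = B j i) (hB : ∀ i, ∑ j, B i j * x j = 0)
    (hsd : s = ∑ i, B i i) (hD : D = (s ^ 2 - ∑ i, ∑ j, B i j ^ 2) / 2) (i j : Fin 3) :
    ∑ k, B i k * B k j - s * B i j + D * (if i = j then 1 else 0) = D * (x i * x j) := by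
  have s10 := hs 1 0
  have s20 := hs 2 0
  have s21 := hs 2 1
  have r0 := hB 0
  have r1 := hB 1
  have r2 := hB 2
  simp only [Fin.sum_univ_three] at hx r0 r1 r2 hsd hD
  rw [s10] at r1
  rw [s20, s21] at r2
  rw [s10, s20, s21, hsd] at hD
  have hD' : D = ((B 1 1 * B 2 2 - B 1 2 * B 1 2) + (B 0 0 * B 2 2 - B 0 2 * B 0 2) + (B 0 0 * B 1 1 - B 0 1 * B 0 1)) := by
    rw [hD]; ring
  obtain ⟨h1, h2, h3, h4, h5, h6⟩ := adjs (B 0 0) (B 0 1) (B 0 2) (B 1 1) (B 1 2) (B 2 2) (x 0) (x 1) (x 2) r0 r1 r2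
    (by linear_combination hx)
  rw [← hD'] at h1 h2 h3 h4 h5 h6
  rw [hsd]
  fin_cases i <;> fin_cases j <;> simp [Fin.sum_univ_three, s10, s20, s21] <;> linarith

/-- `s <Bv,v> = |Bv|^2 + D |v|^2`. -/
theorem pw_id (hx : ∑ i, x i ^ 2 = 1) (hs : ∀ i j, B i j = B j i) (hB : ∀ i, ∑ j, B i j * x j = 0)
    (hsd : s = ∑ i, B i i) (hD : D = (s ^ 2 - ∑ i, ∑ j, B i j ^ 2) / 2)
    (v : Fin 3 → ℝ) (hv : ∑ j, x j * v j = 0) :
    s * ∑ i, ∑ j, B i j * v i * v j = (∑ i, (∑ j, B i j * v j) ^ 2) + D * ∑ i, v i ^ 2 := by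
  have key := cayley B x s D hx hs hB hsd hD
  have e1 : ∑ i, ∑ j, (∑ k, B i k * B k j - s * B i j + D * (if i = j then 1 else 0)) * (v i * v j) =
      ∑ i, ∑ j, D * (x i * x j) * (v i * v j) := by
    refine Finset.sum_congr rfl fun i _ => Finset.sum_congr rfl fun j _ => ?_
    rw [key]
  have e2 : ∑ i, ∑ j, D * (x i * x j) * (v i * v j) = D * (∑ j, x j * v j) ^ 2 := by
    simp only [Fin.sum_univ_three]; ring
  have s10 := hs 1 0
  have s20 := hs 2 0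
  have s21 := hs 2 1
  rw [e2, hv] at e1
  simp [Fin.sum_univ_three, s10, s20, s21] at e1 ⊢
  linarith

theorem pw_low (hx : ∑ i, x i ^ 2 = 1) (hs : ∀ i j, B i j = B j i) (hB : ∀ i, ∑ j, B i j * x j = 0)
    (hsd : s = ∑ i, B i i) (hD : D = (s ^ 2 - ∑ i, ∑ j, B i j ^ 2) / 2) (h0 : 0 < s) (hD0 : 0 < D)
    (v : Fin 3 → ℝ) (hv : ∑ j, x j * v j = 0) : 0 ≤ ∑ i, ∑ j, B i j * v i * v j := by
  have h := pw_id B x s D hx hs hB hsd hD v hv
  have h1 : 0 ≤ s * ∑ i, ∑ j, B i j * v i * v j := by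
    rw [h]
    have a1 : 0 ≤ ∑ i, (∑ j, B i j * v j) ^ 2 := Finset.sum_nonneg fun i _ => sq_nonneg _
    have a2 : 0 ≤ ∑ i, v i ^ 2 := Finset.sum_nonneg fun i _ => sq_nonneg _
    positivity
  exact nonneg_of_mul_nonneg_right h1 h0

theorem pw_up (hx : ∑ i, x i ^ 2 = 1) (hs : ∀ i j, B i j = B j i) (hB : ∀ i, ∑ j, B i j * x j = 0)
    (hsd : s = ∑ i, B i i) (hD : D = (s ^ 2 - ∑ i, ∑ j, B i j ^ 2) / 2) (h0 : 0 < s) (hD0 : 0 < D)
    (v : Fin 3 → ℝ) (hv : ∑ j, x j * v j = 0) : ∑ i, ∑ j, B i j * v i * v j ≤ s * ∑ i, v i ^ 2 := by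
  have h := pw_id B x s D hx hs hB hsd hD v hv
  -- `|s v - B v|^2 = s^2 |v|^2 - 2 s <Bv,v> + |Bv|^2`
  have e : ∑ i, (s * v i - ∑ j, B i j * v j) ^ 2 = s ^ 2 * (∑ i, v i ^ 2) - 2 * (s * ∑ i, ∑ j, B i j * v i * v j)
      + ∑ i, (∑ j, B i j * v j) ^ 2 := by
    simp only [Fin.sum_univ_three]; ring
  have a1 : 0 ≤ ∑ i, (s * v i - ∑ j, B i j * v j) ^ 2 := Finset.sum_nonneg fun i _ => sq_nonneg _
  have a2 : 0 ≤ ∑ i, v i ^ 2 := Finset.sum_nonneg fun i _ => sq_nonneg _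
  have a3 : 0 ≤ D * ∑ i, v i ^ 2 := mul_nonneg hD0.le a2
  have h2 : 0 ≤ s * (s * (∑ i, v i ^ 2) - ∑ i, ∑ j, B i j * v i * v j) := by nlinarith
  have h3 := nonneg_of_mul_nonneg_right h2 h0
  linarith

theorem pw_ineq (hx : ∑ i, x i ^ 2 = 1) (hs : ∀ i j, B i j = B j i) (hB : ∀ i, ∑ j, B i j * x j = 0)
    (hsd : s = ∑ i, B i i) (hD : D = (s ^ 2 - ∑ i, ∑ j, B i j ^ 2) / 2) (h0 : 0 < s) (hD0 : 0 < D)
    (b p : Fin 3 → ℝ) (hb : ∑ j, x j * b j = 0) (hp : ∑ j, x j * p j = 0) :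
    2 * ∑ i, (∑ j, B i j * b j) * p i - ∑ i, ∑ j, B i j * p i * p j ≤ s * ∑ i, b i ^ 2 := by
  have h1 := pw_up B x s D hx hs hB hsd hD h0 hD0 b hb
  have hbp : ∑ j, x j * (b j - p j) = 0 := by
    simp only [mul_sub, Finset.sum_sub_distrib, hb, hp, sub_zero]
  have h2 := pw_low B x s D hx hs hB hsd hD h0 hD0 (fun j => b j - p j) hbp
  have s10 := hs 1 0
  have s20 := hs 2 0
  have s21 := hs 2 1
  have e : ∑ i, ∑ j, B i j * (b i - p i) * (b j - p j) = (∑ i, ∑ j, B i j * b i * b j)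
      - 2 * (∑ i, (∑ j, B i j * b j) * p i) + ∑ i, ∑ j, B i j * p i * p j := by
    simp only [Fin.sum_univ_three, s10, s20, s21]; ring
  linarith

/-- Trace on the plane orthogonal to `x`. -/
theorem pw_trace (hx : ∑ i, x i ^ 2 = 1) (hs : ∀ i j, B i j = B j i) (hB : ∀ i, ∑ j, B i j * x j = 0)
    (hsd : s = ∑ i, B i i) (w w' : Fin 3 → ℝ) (hw : ∑ j, x j * w j = 0)
    (h0 : w' 0 = x 1 * w 2 - x 2 * w 1) (h1 : w' 1 = x 2 * w 0 - x 0 * w 2) (h2 : w' 2 = x 0 * w 1 - x 1 * w 0) :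
    (∑ i, ∑ j, B i j * w i * w j) + (∑ i, ∑ j, B i j * w' i * w' j) = s * ∑ i, w i ^ 2 := by
  have s10 := hs 1 0
  have s20 := hs 2 0
  have s21 := hs 2 1
  have r0 := hB 0
  have r1 := hB 1
  have r2 := hB 2
  simp only [Fin.sum_univ_three, s10, s20, s21] at hx r0 r1 r2 hsd hw ⊢
  rw [h0, h1, h2, hsd]
  linear_combination (-(w 0 ^ 2 + w 1 ^ 2 + w 2 ^ 2) * x 0 + 2 * (x 0 * w 0 + x 1 * w 1 + x 2 * w 2) * w 0) * r0
    + (-(w 0 ^ 2 + w 1 ^ 2 + w 2 ^ 2) * x 1 + 2 * (x 0 * w 0 + x 1 * w 1 + x 2 * w 2) * w 1) * r1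
    + (-(w 0 ^ 2 + w 1 ^ 2 + w 2 ^ 2) * x 2 + 2 * (x 0 * w 0 + x 1 * w 1 + x 2 * w 2) * w 2) * r2
    - (B 0 0 + B 1 1 + B 2 2) * (x 0 * w 0 + x 1 * w 1 + x 2 * w 2) * hw
    + ((B 0 0 + B 1 1 + B 2 2) * (w 0 ^ 2 + w 1 ^ 2 + w 2 ^ 2) - (B 0 0 * w 0 * w 0 + B 0 1 * w 0 * w 1 + B 0 2 * w 0 * w 2
      + (B 0 1 * w 1 * w 0 + B 1 1 * w 1 * w 1 + B 1 2 * w 1 * w 2) + (B 0 2 * w 2 * w 0 + B 1 2 * w 2 * w 1 + B 2 2 * w 2 * w 2))) * hx

/-- Sufficient condition used in the geometric part: a symmetric `B` with `B x = 0` which is positive on the orthogonal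
complement of `x` has `s > 0` and `D > 0`. -/
theorem pw_pos (hx : ∑ i, x i ^ 2 = 1) (hs : ∀ i j, B i j = B j i) (hB : ∀ i, ∑ j, B i j * x j = 0)
    (hsd : s = ∑ i, B i i) (hD : D = (s ^ 2 - ∑ i, ∑ j, B i j ^ 2) / 2)
    (hpos : ∀ v : Fin 3 → ℝ, ∑ j, x j * v j = 0 → v ≠ 0 → 0 < ∑ i, ∑ j, B i j * v i * v j) : 0 < s ∧ 0 < D := by
  obtain ⟨w, hw, hw0⟩ : ∃ w : Fin 3 → ℝ, ∑ j, x j * w j = 0 ∧ w ≠ 0 := by
    by_cases h : x 0 = 0
    · refine ⟨![1, 0, 0], by simp [Fin.sum_univ_three, h], fun hc => ?_⟩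
      have := congrFun hc 0
      simp at this
    · refine ⟨![x 1, - x 0, 0], by simp [Fin.sum_univ_three]; ring, fun hc => ?_⟩
      have := congrFun hc 1
      simp at this
      exact h this
  set w' : Fin 3 → ℝ := ![x 1 * w 2 - x 2 * w 1, x 2 * w 0 - x 0 * w 2, x 0 * w 1 - x 1 * w 0] with hw'
  have htr := pw_trace B x s hx hs hB hsd w w' hw rfl rfl rfl
  have hww : 0 < ∑ i, w i ^ 2 := by
    have h : (∑ i, w i ^ 2) ≠ 0 := by
      intro hc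
      rw [Finset.sum_eq_zero_iff_of_nonneg (fun i _ => sq_nonneg _)] at hc
      apply hw0
      funext i
      have := hc i (Finset.mem_univ i)
      simpa using this
    have h' : 0 ≤ ∑ i, w i ^ 2 := Finset.sum_nonneg fun i _ => sq_nonneg _
    exact lt_of_le_of_ne h' (Ne.symm h)
  have hn' : ∑ i, w' i ^ 2 = ∑ i, w i ^ 2 := by
    simp [Fin.sum_univ_three, hw'] at hx hw ⊢
    linear_combination (w 0 ^ 2 + w 1 ^ 2 + w 2 ^ 2) * hx - (x 0 * w 0 + x 1 * w 1 + x 2 * w 2) * hw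
  have hw'0 : w' ≠ 0 := by
    intro hc
    rw [hc] at hn'
    simp at hn'
    have : 0 < ∑ i, w i ^ 2 := hww
    simp [Fin.sum_univ_three] at this
    rw [Fin.sum_univ_three] at hn'
    linarith
  have hw'x : ∑ j, x j * w' j = 0 := by
    simp [Fin.sum_univ_three, hw']; ring
  have p1 := hpos w hw hw0
  have p2 := hpos w' hw'x hw'0
  have hs0 : 0 < s := by
    by_contra hcon
    have : s * ∑ i, w i ^ 2 ≤ 0 := mul_nonpos_of_nonpos_of_nonneg (not_lt.1 hcon) hww.le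
    linarith
  refine ⟨hs0, ?_⟩
  -- `u = s w - B w`, `B u = D w`
  set u : Fin 3 → ℝ := fun i => s * w i - ∑ j, B i j * w j with hu
  have hux : ∑ j, x j * u j = 0 := by
    have s10 := hs 1 0
    have s20 := hs 2 0
    have s21 := hs 2 1
    have r0 := hB 0
    have r1 := hB 1
    have r2 := hB 2
    simp only [Fin.sum_univ_three, hu, s10, s20, s21] at hw r0 r1 r2 ⊢
    linear_combination s * hw - w 0 * r0 - w 1 * r1 - w 2 * r2
  have huw : ∑ i, u i * w i = ∑ i, ∑ j, B i j * w' i * w' j := by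
    have : ∑ i, u i * w i = s * (∑ i, w i ^ 2) - ∑ i, ∑ j, B i j * w i * w j := by
      simp only [Fin.sum_univ_three, hu]; ring
    rw [this, ← htr]; ring
  have hBu : ∀ i, ∑ j, B i j * u j = D * w i := by
    intro i
    have key := cayley B x s D hx hs hB hsd hD i
    have e1 : ∑ j, (∑ k, B i k * B k j - s * B i j + D * (if i = j then 1 else 0)) * w j = ∑ j, D * (x i * x j) * w j :=
      Finset.sum_congr rfl fun j _ => by rw [key]
    have e2 : ∑ j, D * (x i * x j) * w j = D * x i * ∑ j, x j * w j := by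
      rw [Finset.mul_sum]; exact Finset.sum_congr rfl fun j _ => by ring
    have e3 : ∑ j, (∑ k, B i k * B k j - s * B i j + D * (if i = j then 1 else 0)) * w j =
        (∑ j, (∑ k, B i k * B k j - s * B i j) * w j) + D * w i := by
      simp only [add_mul, Finset.sum_add_distrib]
      congr 1
      simp
    rw [e2, hw, mul_zero, e3] at e1
    simp only [Fin.sum_univ_three, hu] at e1 ⊢
    linarith
  have hq : ∑ i, ∑ j, B i j * u i * u j = D * ∑ i, u i * w i := by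
    have : ∀ i, ∑ j, B i j * u i * u j = u i * (D * w i) := by
      intro i
      rw [← hBu i, Finset.mul_sum]
      exact Finset.sum_congr rfl fun j _ => by ring
    rw [Finset.sum_congr rfl fun i _ => this i, Finset.mul_sum]
    exact Finset.sum_congr rfl fun i _ => by ring
  have hu0 : u ≠ 0 := by
    intro hc
    rw [hc] at huw
    simp only [Pi.zero_apply, zero_mul, Finset.sum_const_zero] at huw
    linarith
  have p3 := hpos u hux hu0
  rw [hq, huw] at p3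
  exact (pos_iff_pos_of_mul_pos p3).2 p2

end NShell
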