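import Pool.Agent.Lib.NullShell.SkSF
import Pool.Agent.Lib.PenroseSph.SphFlux

set_option autoImplicit false

/-!
Chunk STD. The standard frame. All fields are computed with `stdL_of` (derivative of any smooth extension) and `Subtype.ext`, `funext`.
`std_lin`: derivative of coordinates: `stdL i (stdx j) = (e_i × x)_j`.
`std_rad`: `sum_i x_i (e_i × x) = 0` and linearity of `fderiv`.
`std_comm`: `L_i (L_j F) (n) = D^2 F (rotv i n, rotv j n) + DF (rotv j (rotv i n))` (rotv j is linear), symmetry of the second derivative,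
and `rotv j (rotv i n) - rotv i (rotv j n) = - rotv k n` for (i,j,k) cyclic (from `e_j × (e_i × n) - e_i × (e_j × n) = - (e_i × e_j) × n`).
`std_izero`: from `PenroseSph.avg_rot` (with `a = 0` or `1/2`, `t = 1`) for the smooth extension, with `rotv i = rot (i+1) (i+2)`-field.
`std_ione`: `PenroseSph.sm_univ`.
-/

open Filter Topology Set MeasureTheory
open scoped ContDiff

namespace NShell

open Pool.Agent.Lib.PenroseSph (E3 S2 sm)

private theorem sd_rotv (f : E3 → ℝ) (i : Fin 3) (y z : E3) : fderiv ℝ f y (rotv i z) =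
    z (i + 1) * fderiv ℝ f y (EuclideanSpace.single (i + 2) 1) -
      z (i + 2) * fderiv ℝ f y (EuclideanSpace.single (i + 1) 1) := by
  unfold rotv
  rw [map_sub, map_smul, map_smul, smul_eq_mul, smul_eq_mul]

private theorem sd_coord (j : Fin 3) (n v : E3) : fderiv ℝ (fun y : E3 => y j) n v = v j := by
  have h : HasFDerivAt (fun y : E3 => y j) (EuclideanSpace.proj j : E3 →L[ℝ] ℝ) n :=
    (EuclideanSpace.proj j : E3 →L[ℝ] ℝ).hasFDerivAt
  rw [h.fderiv]
  rfl

private theorem sd_x (j : Fin 3) (n : S2) : (stdx j).1 n = (n : E3) j := rfl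

private theorem sd_L (i : Fin 3) (F : SFun) (n : S2) :
    (stdL i F).1 n = fderiv ℝ (lft F) n (rotv i n) := rfl

private theorem sd_P {f : E3 → ℝ} (hf : ContDiff ℝ ∞ f) (v : E3) :
    ContDiff ℝ ∞ (fun y => fderiv ℝ f y v) := by
  have h1 : ContDiff ℝ ∞ (fderiv ℝ f) := hf.fderiv_right (m := ∞) (by simp)
  exact h1.clm_apply contDiff_const

private theorem sd_snd {f : E3 → ℝ} (hf : ContDiff ℝ ∞ f) (n v w : E3) :
    fderiv ℝ (fun y => fderiv ℝ f y v) n w = fderiv ℝ (fderiv ℝ f) n w v := by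
  have h1 : ContDiff ℝ ∞ (fderiv ℝ f) := hf.fderiv_right (m := ∞) (by simp)
  have h2 : DifferentiableAt ℝ (fderiv ℝ f) n := (h1.differentiable (by simp)) n
  rw [fderiv_clm_apply h2 (differentiableAt_const v)]
  simp

private theorem sd_symm {f : E3 → ℝ} (hf : ContDiff ℝ ∞ f) (n v w : E3) :
    fderiv ℝ (fun y => fderiv ℝ f y v) n w = fderiv ℝ (fun y => fderiv ℝ f y w) n v := by
  rw [sd_snd hf, sd_snd hf]
  have h2 : (2 : WithTop ℕ∞) ≤ ∞ := WithTop.coe_le_coe.2 le_top
  have h : IsSymmSndFDerivAt ℝ f n := hf.contDiffAt.isSymmSndFDerivAt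
    (by rw [minSmoothness_of_isRCLikeNormedField]; exact h2)
  exact h w v

private theorem sd_LL {f : E3 → ℝ} (hf : ContDiff ℝ ∞ f) (j : Fin 3) (n v : E3) :
    fderiv ℝ (fun y => fderiv ℝ f y (rotv j y)) n v =
      v (j + 1) * fderiv ℝ f n (EuclideanSpace.single (j + 2) 1) -
        v (j + 2) * fderiv ℝ f n (EuclideanSpace.single (j + 1) 1) +
      (n (j + 1) * fderiv ℝ (fun y => fderiv ℝ f y (EuclideanSpace.single (j + 2) 1)) n v -
        n (j + 2) * fderiv ℝ (fun y => fderiv ℝ f y (EuclideanSpace.single (j + 1) 1)) n v) := by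
  have e : (fun y => fderiv ℝ f y (rotv j y)) = fun y : E3 =>
      y (j + 1) * fderiv ℝ f y (EuclideanSpace.single (j + 2) 1) -
      y (j + 2) * fderiv ℝ f y (EuclideanSpace.single (j + 1) 1) := by
    funext y
    exact sd_rotv f j y y
  have hc : ∀ k : Fin 3, DifferentiableAt ℝ (fun y : E3 => y k) n := fun k =>
    (EuclideanSpace.proj k : E3 →L[ℝ] ℝ).differentiableAt
  have hP : ∀ k : Fin 3,
      DifferentiableAt ℝ (fun y => fderiv ℝ f y (EuclideanSpace.single k 1)) n := fun k =>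
    ((sd_P hf _).differentiable (by simp)) n
  rw [e, fderiv_fun_sub ((hc _).fun_mul (hP _)) ((hc _).fun_mul (hP _)), fderiv_fun_mul (hc _) (hP _),
    fderiv_fun_mul (hc _) (hP _)]
  simp only [_root_.sub_apply, _root_.add_apply,
    _root_.smul_apply, smul_eq_mul, sd_coord]
  ring

private theorem sd_LLF (i j : Fin 3) (F : SFun) (n : S2) :
    (stdL i (stdL j F)).1 n = fderiv ℝ (fun y => fderiv ℝ (lft F) y (rotv j y)) n (rotv i n) :=
  stdL_of i (stdL j F) _ (contDiff_rotD (lft_smooth F) j) (fun _ => rfl) n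

theorem std_rad (F : SFun) : stdx 0 * stdL 0 F + stdx 1 * stdL 1 F + stdx 2 * stdL 2 F = 0 := by
  apply Subtype.ext
  funext n
  change (stdx 0).1 n * (stdL 0 F).1 n + (stdx 1).1 n * (stdL 1 F).1 n
    + (stdx 2).1 n * (stdL 2 F).1 n = 0
  simp only [sd_x, sd_L, sd_rotv]
  simp only [show (0 : Fin 3) + 1 = 1 from rfl, show (0 : Fin 3) + 2 = 2 from rfl,
    show (1 : Fin 3) + 1 = 2 from rfl, show (1 : Fin 3) + 2 = 0 from rfl,
    show (2 : Fin 3) + 1 = 0 from rfl, show (2 : Fin 3) + 2 = 1 from rfl]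
  ring

private theorem sd_rotv_apply (i k : Fin 3) (n : E3) : rotv i n k =
    n (i + 1) * (if k = i + 2 then 1 else 0) - n (i + 2) * (if k = i + 1 then 1 else 0) := by
  unfold rotv
  simp

theorem std_comm01 (F : SFun) : stdL 0 (stdL 1 F) = stdL 1 (stdL 0 F) - stdL 2 F := by
  apply Subtype.ext
  funext n
  change (stdL 0 (stdL 1 F)).1 n = (stdL 1 (stdL 0 F)).1 n - (stdL 2 F).1 n
  have hf := lft_smooth F
  rw [sd_LLF, sd_LLF, sd_L, sd_LL hf, sd_LL hf, sd_rotv, sd_rotv, sd_rotv, sd_rotv, sd_rotv]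
  simp only [sd_rotv_apply]
  simp only [show (0 : Fin 3) + 1 = 1 from rfl, show (0 : Fin 3) + 2 = 2 from rfl,
    show (1 : Fin 3) + 1 = 2 from rfl, show (1 : Fin 3) + 2 = 0 from rfl,
    show (2 : Fin 3) + 1 = 0 from rfl, show (2 : Fin 3) + 2 = 1 from rfl]
  rw [sd_symm hf n (EuclideanSpace.single 1 1) (EuclideanSpace.single 0 1),
    sd_symm hf n (EuclideanSpace.single 2 1) (EuclideanSpace.single 0 1),
    sd_symm hf n (EuclideanSpace.single 2 1) (EuclideanSpace.single 1 1)]
  simp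
  ring

theorem std_comm12 (F : SFun) : stdL 1 (stdL 2 F) = stdL 2 (stdL 1 F) - stdL 0 F := by
  apply Subtype.ext
  funext n
  change (stdL 1 (stdL 2 F)).1 n = (stdL 2 (stdL 1 F)).1 n - (stdL 0 F).1 n
  have hf := lft_smooth F
  rw [sd_LLF, sd_LLF, sd_L, sd_LL hf, sd_LL hf, sd_rotv, sd_rotv, sd_rotv, sd_rotv, sd_rotv]
  simp only [sd_rotv_apply]
  simp only [show (0 : Fin 3) + 1 = 1 from rfl, show (0 : Fin 3) + 2 = 2 from rfl,
    show (1 : Fin 3) + 1 = 2 from rfl, show (1 : Fin 3) + 2 = 0 from rfl,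
    show (2 : Fin 3) + 1 = 0 from rfl, show (2 : Fin 3) + 2 = 1 from rfl]
  rw [sd_symm hf n (EuclideanSpace.single 1 1) (EuclideanSpace.single 0 1),
    sd_symm hf n (EuclideanSpace.single 2 1) (EuclideanSpace.single 0 1),
    sd_symm hf n (EuclideanSpace.single 2 1) (EuclideanSpace.single 1 1)]
  simp
  ring

theorem std_comm20 (F : SFun) : stdL 2 (stdL 0 F) = stdL 0 (stdL 2 F) - stdL 1 F := by
  apply Subtype.ext
  funext n
  change (stdL 2 (stdL 0 F)).1 n = (stdL 0 (stdL 2 F)).1 n - (stdL 1 F).1 n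
  have hf := lft_smooth F
  rw [sd_LLF, sd_LLF, sd_L, sd_LL hf, sd_LL hf, sd_rotv, sd_rotv, sd_rotv, sd_rotv, sd_rotv]
  simp only [sd_rotv_apply]
  simp only [show (0 : Fin 3) + 1 = 1 from rfl, show (0 : Fin 3) + 2 = 2 from rfl,
    show (1 : Fin 3) + 1 = 2 from rfl, show (1 : Fin 3) + 2 = 0 from rfl,
    show (2 : Fin 3) + 1 = 0 from rfl, show (2 : Fin 3) + 2 = 1 from rfl]
  rw [sd_symm hf n (EuclideanSpace.single 1 1) (EuclideanSpace.single 0 1),
    sd_symm hf n (EuclideanSpace.single 2 1) (EuclideanSpace.single 0 1),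
    sd_symm hf n (EuclideanSpace.single 2 1) (EuclideanSpace.single 1 1)]
  simp
  ring

private theorem sd_lin (i j : Fin 3) (n : S2) : (stdL i (stdx j)).1 n = rotv i (n : E3) j := by
  rw [stdL_of i (stdx j) (fun y => y j) (EuclideanSpace.proj j : E3 →L[ℝ] ℝ).contDiff
    (fun _ => rfl) n, sd_coord]

/-- The standard sphere algebra. -/
noncomputable def stdSA : SA SFun where
  L := stdL
  x := stdx
  sq := by
    apply Subtype.ext
    funext n
    change (stdx 0).1 n * (stdx 0).1 n + (stdx 1).1 n * (stdx 1).1 n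
      + (stdx 2).1 n * (stdx 2).1 n = 1
    simp only [sd_x]
    have h : ‖(n : E3)‖ = 1 := by simp
    have h2 := EuclideanSpace.norm_sq_eq (n : E3)
    rw [h, Fin.sum_univ_three] at h2
    simp only [Real.norm_eq_abs, sq_abs] at h2
    linarith
  L00 := by
    apply Subtype.ext
    funext n
    change (stdL 0 (stdx 0)).1 n = 0
    rw [sd_lin, sd_rotv_apply]
    simp
  L01 := by
    apply Subtype.ext
    funext n
    change (stdL 0 (stdx 1)).1 n = - (stdx 2).1 n
    rw [sd_lin, sd_rotv_apply, sd_x]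
    simp
  L02 := by
    apply Subtype.ext
    funext n
    change (stdL 0 (stdx 2)).1 n = (stdx 1).1 n
    rw [sd_lin, sd_rotv_apply, sd_x]
    simp
  L10 := by
    apply Subtype.ext
    funext n
    change (stdL 1 (stdx 0)).1 n = (stdx 2).1 n
    rw [sd_lin, sd_rotv_apply, sd_x]
    simp only [show (1 : Fin 3) + 1 = 2 from rfl, show (1 : Fin 3) + 2 = 0 from rfl]
    simp
  L11 := by
    apply Subtype.ext
    funext n
    change (stdL 1 (stdx 1)).1 n = 0
    rw [sd_lin, sd_rotv_apply]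
    simp only [show (1 : Fin 3) + 1 = 2 from rfl, show (1 : Fin 3) + 2 = 0 from rfl]
    simp
  L12 := by
    apply Subtype.ext
    funext n
    change (stdL 1 (stdx 2)).1 n = - (stdx 0).1 n
    rw [sd_lin, sd_rotv_apply, sd_x]
    simp only [show (1 : Fin 3) + 1 = 2 from rfl, show (1 : Fin 3) + 2 = 0 from rfl]
    simp
  L20 := by
    apply Subtype.ext
    funext n
    change (stdL 2 (stdx 0)).1 n = - (stdx 1).1 n
    rw [sd_lin, sd_rotv_apply, sd_x]
    simp only [show (2 : Fin 3) + 1 = 0 from rfl, show (2 : Fin 3) + 2 = 1 from rfl]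
    simp
  L21 := by
    apply Subtype.ext
    funext n
    change (stdL 2 (stdx 1)).1 n = (stdx 0).1 n
    rw [sd_lin, sd_rotv_apply, sd_x]
    simp only [show (2 : Fin 3) + 1 = 0 from rfl, show (2 : Fin 3) + 2 = 1 from rfl]
    simp
  L22 := by
    apply Subtype.ext
    funext n
    change (stdL 2 (stdx 2)).1 n = 0
    rw [sd_lin, sd_rotv_apply]
    simp only [show (2 : Fin 3) + 1 = 0 from rfl, show (2 : Fin 3) + 2 = 1 from rfl]
    simp
  rad := std_rad
  c01 := std_comm01
  c12 := std_comm12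
  c20 := std_comm20

theorem std_izero (i : Fin 3) (F : SFun) : ∫ n, (stdL i F).1 n ∂sm = 0 := by
  have hij : (i + 1 : Fin 3) ≠ i + 2 := by fin_cases i <;> decide
  have h := Pool.Agent.Lib.PenroseSph.avg_rot (a := 0) (t := 1) le_rfl one_pos
    (f := lft F) ((lft_smooth F).of_le (by simp)).contDiffOn hij
  unfold Pool.Agent.Lib.PenroseSph.avg at h
  have hpi : (4 * Real.pi)⁻¹ ≠ 0 := by positivity
  have h2 := (mul_eq_zero.1 h).resolve_left hpi
  have e : ∀ n : S2, (stdL i F).1 n = (1 • (n : E3)) (i + 1) *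
      Pool.Agent.Lib.PenroseSph.pd (i + 2) (lft F) (1 • (n : E3)) -
      (1 • (n : E3)) (i + 2) * Pool.Agent.Lib.PenroseSph.pd (i + 1) (lft F) (1 • (n : E3)) := by
    intro n
    rw [sd_L, sd_rotv, one_smul]
    rfl
  simp only [one_smul] at e h2
  simp only [e]
  exact h2

/-- The standard frame. -/
noncomputable def stdFr : Fr where
  sa := stdSA
  m := sm
  fin := inferInstance
  izero := std_izero
  ione := Pool.Agent.Lib.PenroseSph.sm_univ
  inj := by
    intro n n' h
    apply Subtype.ext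
    ext i
    exact h i
  logd := std_logd

end NShell
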