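import Pool.Agent.Lib.NullShell.SkLINK
import Pool.Agent.Lib.NullShell.SkRV
import Pool.Agent.Lib.NullShell.SkBO2
import Pool.Agent.Lib.NullShell.SkCOV
import Pool.Agent.Lib.NullShell.SkKey
import Pool.Agent.Lib.NullShell.SkP7

set_option autoImplicit false

/-!
Assembly.
-/

open Filter Topology Set MeasureTheory
open scoped ContDiff

namespace NShell

open Pool.Agent.Lib.PenroseSph (E3 S2 sm)
open NullShell (M4 mink kvec parSq areaDens NullConvex OutNormal thetaDens)

/-- The inequality in a frame. -/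
theorem frame_ineq (A : Fr) (F l : Fin 4 → SFun) (h : A.sa.Sh F l)
    (hs : ∀ n, 0 < (A.sa.tB (SA.sp F)).1 n) (hd : ∀ n, 0 < (A.sa.dB (SA.sp F)).1 n) :
    Real.sqrt (16 * Real.pi * A.int (A.sa.dB (SA.sp F))) ≤ A.int (A.sa.th F l) := by
  have hD : A.toSM.Dat (SA.sp F) (- F 0) (A.sa.bv l) := by
    refine ⟨?_, hs, hd, A.sa.bv_x l, ?_⟩
    · exact A.sa.sh_nor h
    · exact A.sa.bB h
  have h1 := A.toSM.final_abs hD (perron A _ hs)
  have h2 : A.int (A.sa.th F l) = A.toSM.En (SA.sp F) (A.sa.bv l) := A.sa.int_th h A.int A.izero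
  rw [h2]
  exact h1

/-- The inequality for every observer. -/
theorem observer_ineq {F l : E3 → M4} (hF : NullConvex F) (hl : OutNormal F l) (u : Fin 3 → ℝ) (γ : ℝ)
    (hγ : 0 < γ) (h1 : γ ^ 2 = 1 + ∑ i, u i ^ 2) :
    Real.sqrt (16 * Real.pi * ∫ n : S2, areaDens F n ∂sm) ≤ ∫ n : S2, (γ + ∑ i, u i * (n : E3) i) * thetaDens F l n ∂sm := by
  set q : ℝ := 1 / (γ + 1) with hq
  have h2 : q * (γ + 1) = 1 := by rw [hq]; field_simp
  obtain ⟨φi, h3⟩ := SFun_inv (stdSA.phi u γ) (fun n => (phi_pos u γ h1 hγ n).ne')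
  have hphi : ∀ n : S2, (stdSA.phi u γ).1 n = γ + ∑ i, u i * (n : E3) i := by
    intro n
    rfl
  set A := boFr u γ q φi h1 h2 h3 hγ with hA
  have hsh := link_sh hF hl
  have hsh' := stdSA.cov_sh u γ q φi h1 h2 h3 hsh
  have e3 : ∀ n : S2, (stdSA.phi u γ).1 n * φi.1 n = 1 := by
    intro n
    have := congrArg (fun f : SFun => f.1 n) h3
    exact this
  have hpos : ∀ n, 0 < (stdSA.phi u γ).1 n := phi_pos u γ h1 hγ
  set F4 := q4 F hF.smooth
  set l4 := q4 l hl.smooth
  have ht : ∀ n, (A.sa.tB (SA.sp (lor u γ q F4))).1 n = (stdSA.phi u γ).1 n * (stdSA.tB (SA.sp F4)).1 n := by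
    intro n
    have := congrArg (fun f : SFun => f.1 n) (stdSA.cov_tB u γ q φi h1 h2 h3 hsh)
    exact this
  have hd : ∀ n, (A.sa.dB (SA.sp (lor u γ q F4))).1 n = (stdSA.phi u γ).1 n ^ 2 * (stdSA.dB (SA.sp F4)).1 n := by
    intro n
    have := congrArg (fun f : SFun => f.1 n) (stdSA.cov_dB u γ q φi h1 h2 h3 hsh)
    exact this
  have hp := fun n => link_pos hF n
  have key := frame_ineq A (lor u γ q F4) (fun a => stdSA.phi u γ * lor u γ q l4 a) hsh'
    (fun n => by rw [ht]; exact mul_pos (hpos n) (hp n).1)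
    (fun n => by rw [hd]; exact mul_pos (pow_pos (hpos n) 2) (hp n).2)
  have hth : ∀ n, (A.sa.th (lor u γ q F4) (fun a => stdSA.phi u γ * lor u γ q l4 a)).1 n =
      (stdSA.phi u γ).1 n ^ 3 * (stdSA.th F4 l4).1 n := by
    intro n
    have g1 := congrArg (fun f : SFun => f.1 n) (A.sa.dD2_eq hsh')
    have g2 := congrArg (fun f : SFun => f.1 n) (stdSA.cov_dD2 u γ q φi h1 h2 h3 hsh)
    have g3 := congrArg (fun f : SFun => f.1 n) (stdSA.dD2_eq hsh)
    have g1' : (A.sa.dD2 (lor u γ q F4) (fun a => stdSA.phi u γ * lor u γ q l4 a)).1 n =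
      2 * (A.sa.dB (SA.sp (lor u γ q F4))).1 n * (A.sa.th (lor u γ q F4) (fun a => stdSA.phi u γ * lor u γ q l4 a)).1 n := g1
    have g2' : (A.sa.dD2 (lor u γ q F4) (fun a => stdSA.phi u γ * lor u γ q l4 a)).1 n =
      (stdSA.phi u γ).1 n ^ 5 * (stdSA.dD2 F4 l4).1 n := g2
    have g3' : (stdSA.dD2 F4 l4).1 n = 2 * (stdSA.dB (SA.sp F4)).1 n * (stdSA.th F4 l4).1 n := g3
    rw [g2', g3', hd] at g1'
    have hne : 2 * ((stdSA.phi u γ).1 n ^ 2 * (stdSA.dB (SA.sp F4)).1 n) ≠ 0 :=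
      mul_ne_zero two_ne_zero (mul_pos (pow_pos (hpos n) 2) (hp n).2).ne'
    apply mul_left_cancel₀ hne
    rw [← g1']
    ring
  have i1 : A.int (A.sa.dB (SA.sp (lor u γ q F4))) = ∫ n : S2, areaDens F n ∂sm := by
    change ∫ n, (A.sa.dB (SA.sp (lor u γ q F4))).1 n ∂(bm φi) = _
    rw [bo_int]
    refine integral_congr_ae (Eventually.of_forall fun n => ?_)
    simp only
    rw [hd, link_area hF n]
    have := e3 n
    linear_combination ((stdSA.dB (SA.sp F4)).1 n) * (((stdSA.phi u γ).1 n * φi.1 n) + 1) * this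
  have i2 : A.int (A.sa.th (lor u γ q F4) (fun a => stdSA.phi u γ * lor u γ q l4 a)) =
      ∫ n : S2, (γ + ∑ i, u i * (n : E3) i) * thetaDens F l n ∂sm := by
    change ∫ n, (A.sa.th (lor u γ q F4) (fun a => stdSA.phi u γ * lor u γ q l4 a)).1 n ∂(bm φi) = _
    rw [bo_int]
    refine integral_congr_ae (Eventually.of_forall fun n => ?_)
    simp only
    rw [hth, link_theta hF hl n, ← hphi n]
    have := e3 n
    linear_combination ((stdSA.phi u γ).1 n * (stdSA.th F4 l4).1 n) * (((stdSA.phi u γ).1 n * φi.1 n) + 1) * this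
  rw [i1, i2] at key
  exact key

theorem main {F : E3 → M4} (hF : NullConvex F) : (∃ l, OutNormal F l) ∧ ∀ l, OutNormal F l →
    ∀ ρ : S2 → ℝ, Continuous ρ → (∀ n : S2, thetaDens F l n ≤ 16 * Real.pi * ρ n) →
    Real.sqrt (∑ i, (-∫ n : S2, ρ n * (n : E3) i ∂sm) ^ 2) < ∫ n, ρ n ∂sm ∧
    Real.sqrt (NullShell.area F / (16 * Real.pi)) ≤
      Real.sqrt ((∫ n, ρ n ∂sm) ^ 2 - ∑ i, (-∫ n : S2, ρ n * (n : E3) i ∂sm) ^ 2) := by
  refine ⟨exists_out hF, fun l hl ρ hρ hθ => ?_⟩
  have hπ := Real.pi_pos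
  have hfin : IsFiniteMeasure sm := stdFr.fin
  have hi : ∀ f : S2 → ℝ, Continuous f → Integrable f sm := fun f hf => stdFr.integrable f hf
  have hnc : ∀ i : Fin 3, Continuous (fun n : S2 => (n : E3) i) := fun i => SFun_cont (stdx i)
  have harea : ∀ n : S2, areaDens F n = (stdSA.dB (SA.sp (q4 F hF.smooth))).1 n := link_area hF
  have hac : Continuous (fun n : S2 => areaDens F n) := by
    have : (fun n : S2 => areaDens F n) = (stdSA.dB (SA.sp (q4 F hF.smooth))).1 := by funext n; exact harea n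
    rw [this]; exact SFun_cont _
  have htc : Continuous (fun n : S2 => thetaDens F l n) := by
    have : (fun n : S2 => thetaDens F l n) = (stdSA.th (q4 F hF.smooth) (q4 l hl.smooth)).1 := by
      funext n; exact link_theta hF hl n
    rw [this]; exact SFun_cont _
  have hAp : 0 < NullShell.area F := by
    change 0 < ∫ n : S2, areaDens F n ∂sm
    have hne : Nonempty S2 := ⟨⟨EuclideanSpace.single 0 1, by simp⟩⟩
    obtain ⟨n0, -, hn0⟩ := isCompact_univ.exists_isMinOn univ_nonempty hac.continuousOn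
    have h0 : 0 < areaDens F n0 := by rw [harea]; exact (link_pos hF n0).2
    have h1 : ∫ n : S2, areaDens F n0 ∂sm ≤ ∫ n : S2, areaDens F n ∂sm :=
      integral_mono (hi _ continuous_const) (hi _ hac) fun n => hn0 (mem_univ n)
    rw [integral_const] at h1
    have h2 : sm.real univ = 4 * Real.pi := Pool.Agent.Lib.PenroseSph.sm_univ
    rw [h2, smul_eq_mul] at h1
    have h3 : 0 < 4 * Real.pi * areaDens F n0 := by positivity
    linarith
  have hc : 0 < Real.sqrt (NullShell.area F / (16 * Real.pi)) := Real.sqrt_pos.2 (by positivity)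
  refine mass_of_all _ _ _ hc fun u γ hγ h1 => ?_
  have hob := observer_ineq hF hl u γ hγ h1
  have e1 : Real.sqrt (NullShell.area F / (16 * Real.pi)) =
      Real.sqrt (16 * Real.pi * ∫ n : S2, areaDens F n ∂sm) / (16 * Real.pi) := by
    have : NullShell.area F / (16 * Real.pi) = (16 * Real.pi * ∫ n : S2, areaDens F n ∂sm) / (16 * Real.pi) ^ 2 := by
      change (∫ n : S2, areaDens F n ∂sm) / (16 * Real.pi) = _
      field_simp
    rw [this, Real.sqrt_div' _ (by positivity), Real.sqrt_sq (by positivity)]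
  rw [e1, div_le_iff₀ (by positivity)]
  have hpos : ∀ n : S2, 0 < γ + ∑ i, u i * (n : E3) i := fun n => phi_pos u γ h1 hγ n
  have hφc : Continuous (fun n : S2 => γ + ∑ i, u i * (n : E3) i) := by
    refine continuous_const.add (continuous_finsetSum _ fun i _ => continuous_const.mul (hnc i))
  have h4 : ∫ n : S2, (γ + ∑ i, u i * (n : E3) i) * thetaDens F l n ∂sm ≤
      ∫ n : S2, (γ + ∑ i, u i * (n : E3) i) * (16 * Real.pi * ρ n) ∂sm :=
    integral_mono (hi _ (hφc.mul htc)) (hi _ (hφc.mul (continuous_const.mul hρ))) fun n =>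
      mul_le_mul_of_nonneg_left (hθ n) (hpos n).le
  have h5 : ∫ n : S2, (γ + ∑ i, u i * (n : E3) i) * (16 * Real.pi * ρ n) ∂sm =
      (γ * ∫ n, ρ n ∂sm - ∑ i, u i * (-∫ n : S2, ρ n * (n : E3) i ∂sm)) * (16 * Real.pi) := by
    have e : (fun n : S2 => (γ + ∑ i, u i * (n : E3) i) * (16 * Real.pi * ρ n)) =
        fun n : S2 => (16 * Real.pi * γ) * ρ n + ∑ i, (16 * Real.pi * u i) * (ρ n * (n : E3) i) := by
      funext n
      rw [add_mul, Finset.sum_mul]
      congr 1
      · ring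
      · exact Finset.sum_congr rfl fun i _ => by ring
    have c1 : Integrable (fun n : S2 => (16 * Real.pi * γ) * ρ n) sm := hi _ (continuous_const.mul hρ)
    have c2 : ∀ i : Fin 3, Integrable (fun n : S2 => (16 * Real.pi * u i) * (ρ n * (n : E3) i)) sm :=
      fun i => hi _ (continuous_const.mul (hρ.mul (hnc i)))
    have c3 : Integrable (fun n : S2 => ∑ i, (16 * Real.pi * u i) * (ρ n * (n : E3) i)) sm :=
      integrable_finsetSum _ (fun i _ => c2 i)
    rw [e, integral_add c1 c3, integral_const_mul, integral_finsetSum _ (fun i _ => c2 i)]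
    have e2 : ∀ i : Fin 3, ∫ n : S2, (16 * Real.pi * u i) * (ρ n * (n : E3) i) ∂sm =
      (16 * Real.pi * u i) * ∫ n : S2, ρ n * (n : E3) i ∂sm := fun i => integral_const_mul _ _
    rw [Finset.sum_congr rfl fun i _ => e2 i]
    simp only [mul_neg, Finset.sum_neg_distrib, sub_neg_eq_add, add_mul, Finset.sum_mul]
    congr 1
    · ring
    · exact Finset.sum_congr rfl fun i _ => by ring
  linarith

/-- The final form. -/
theorem main' {F : E3 → M4} (hF : NullConvex F) : (∃ l, OutNormal F l) ∧ ∀ l, OutNormal F l →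
    ∀ ρ : S2 → ℝ, Continuous ρ → (∀ n : S2, thetaDens F l n ≤ 16 * Real.pi * ρ n) →
    Real.sqrt (∑ i, NullShell.shellMomentum ρ i ^ 2) < NullShell.shellEnergy ρ ∧
    Real.sqrt (NullShell.area F / (16 * Real.pi)) ≤
      Real.sqrt (NullShell.shellEnergy ρ ^ 2 - ∑ i, NullShell.shellMomentum ρ i ^ 2) := by
  refine ⟨exists_out hF, fun l hl ρ hρ hθ => ?_⟩
  have h := (main hF).2 l hl ρ hρ hθ
  have e : ∀ i, NullShell.shellMomentum ρ i = -∫ n : S2, ρ n * (n : E3) i ∂sm := by
    intro i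
    unfold NullShell.shellMomentum
    rw [← integral_neg]
    exact integral_congr_ae (Eventually.of_forall fun n => by simp)
  simp only [e]
  exact h

end NShell
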