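import Mathlib

set_option autoImplicit false

/-!
Chunk RV. `γ E - u.P >= c > 0` for every four-velocity `(γ, u)` implies that `(E, P)` is future timelike with mass at least `c`.
Take `u = P / sqrt(E^2-|P|^2)` if `|P| < E`; if `|P| >= E` take `u = t P/|P|`, `t -> oo`.
-/

namespace NShell

theorem mass_of_all (E c : ℝ) (P : Fin 3 → ℝ) (hc : 0 < c)
    (h : ∀ (u : Fin 3 → ℝ) (γ : ℝ), 0 < γ → γ ^ 2 = 1 + ∑ i, u i ^ 2 → c ≤ γ * E - ∑ i, u i * P i) :
    Real.sqrt (∑ i, P i ^ 2) < E ∧ c ≤ Real.sqrt (E ^ 2 - ∑ i, P i ^ 2) := by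
  set Q : ℝ := ∑ i, P i ^ 2 with hQ
  have hQ0 : 0 ≤ Q := Finset.sum_nonneg fun i _ => sq_nonneg _
  have hE : c ≤ E := by
    have := h (fun _ => 0) 1 one_pos (by simp)
    simpa using this
  have hE0 : 0 < E := lt_of_lt_of_le hc hE
  have key : Real.sqrt Q < E := by
    by_contra hcon
    push Not at hcon
    set p : ℝ := Real.sqrt Q with hp
    have hp0 : 0 < p := lt_of_lt_of_le hE0 hcon
    have hpp : p ^ 2 = Q := Real.sq_sqrt hQ0
    set t : ℝ := E / c with ht
    have ht0 : 0 < t := div_pos hE0 hc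
    have h1 : (0 : ℝ) < 1 + t ^ 2 := by positivity
    set g : ℝ := Real.sqrt (1 + t ^ 2) with hg
    have hg0 : 0 < g := Real.sqrt_pos.mpr h1
    have hgg : g ^ 2 = 1 + t ^ 2 := Real.sq_sqrt h1.le
    have hs1 : ∑ i, (t / p * P i) ^ 2 = t ^ 2 := by
      have : ∑ i, (t / p * P i) ^ 2 = (t / p) ^ 2 * Q := by
        rw [hQ, Finset.mul_sum]
        exact Finset.sum_congr rfl fun i _ => by ring
      rw [this, ← hpp]
      field_simp
    have hs2 : ∑ i, (t / p * P i) * P i = t * p := by
      have : ∑ i, (t / p * P i) * P i = (t / p) * Q := by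
        rw [hQ, Finset.mul_sum]
        exact Finset.sum_congr rfl fun i _ => by ring
      rw [this, ← hpp]
      field_simp
    have h2 := h (fun i => t / p * P i) g hg0 (by rw [hs1, hgg])
    rw [hs2] at h2
    have hct : c * t = E := by rw [ht]; field_simp
    -- c <= g E - t p <= (g - t) E, times (g+t): c (g + t) <= E = c t
    have h3 : c ≤ (g - t) * E := by nlinarith [mul_le_mul_of_nonneg_left hcon ht0.le]
    have h4 : c * (g + t) ≤ (g - t) * E * (g + t) := mul_le_mul_of_nonneg_right h3 (by positivity)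
    have h5 : (g - t) * E * (g + t) = E := by
      have : (g - t) * E * (g + t) = (g ^ 2 - t ^ 2) * E := by ring
      rw [this, hgg]; ring
    have h6 : 0 < c * g := by positivity
    nlinarith
  refine ⟨key, ?_⟩
  have hlt : Q < E ^ 2 := by
    have := (Real.sqrt_lt' hE0).mp key
    exact this
  set m : ℝ := Real.sqrt (E ^ 2 - Q) with hm
  have hm0 : 0 < m := Real.sqrt_pos.mpr (by linarith)
  have hmm : m ^ 2 = E ^ 2 - Q := Real.sq_sqrt (by linarith)
  have hs1 : ∑ i, (P i / m) ^ 2 = Q / m ^ 2 := by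
    rw [hQ, Finset.sum_div]
    exact Finset.sum_congr rfl fun i _ => by ring
  have hs2 : ∑ i, (P i / m) * P i = Q / m := by
    rw [hQ, Finset.sum_div]
    exact Finset.sum_congr rfl fun i _ => by ring
  have h2 := h (fun i => P i / m) (E / m) (div_pos hE0 hm0) (by
    rw [hs1]
    field_simp
    linarith)
  rw [hs2] at h2
  have h3 : E / m * E - Q / m = m := by
    field_simp
    linarith
  linarith

end NShell
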