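import Pool.Agent.Lib.NullShell.Alg

set_option autoImplicit false

/-!
Identities in a sphere algebra.
-/

namespace NShell
namespace SA

variable {R : Type*} [CommRing R] [Algebra ℝ R] (S : SA R)

theorem gam_comm (F G : R) : S.gam F G = S.gam G F := by
  unfold gam
  exact Finset.sum_congr rfl fun i _ => mul_comm _ _

/-- Derivative of `rad`. -/
theorem rad' (i : Fin 3) (F : R) : ∑ j, S.x j * S.L i (S.L j F) = - ∑ j, S.L i (S.x j) * S.L j F := by
  have h := congrArg (S.L i) (S.rad F)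
  simp only [map_add, Derivation.leibniz, smul_eq_mul, map_zero] at h
  simp only [Fin.sum_univ_three]
  linear_combination h

/-- `L_i x_j = (e_i × x)_j`, contracted with a triple. -/
theorem Lx_contract (a : Fin 3 → R) (i : Fin 3) : ∑ j, S.L i (S.x j) * a j = cr S.x a i := by
  simp only [Fin.sum_univ_three, cr]
  fin_cases i
  · simp only [Fin.zero_eta, S.L00, S.L01, S.L02, Fin.isValue, zero_add]
    ring_nf
  · simp only [Fin.mk_one, S.L10, S.L11, S.L12, Fin.isValue]
    have e1 : (1 + 1 : Fin 3) = 2 := rfl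
    have e2 : (1 + 2 : Fin 3) = 0 := rfl
    rw [e1, e2]; ring
  · simp only [Fin.reduceFinMk, S.L20, S.L21, S.L22, Fin.isValue]
    have e1 : (2 + 1 : Fin 3) = 0 := rfl
    have e2 : (2 + 2 : Fin 3) = 1 := rfl
    rw [e1, e2]; ring

theorem cr_cr (F : R) (i : Fin 3) : cr S.x (cr S.x (fun k => S.L k F)) i = - S.L i F := by
  have h1 := S.sq
  have h2 := S.rad F
  fin_cases i
  · simp only [cr, Fin.zero_eta, Fin.isValue, zero_add]
    have e1 : (1 + 1 : Fin 3) = 2 := rfl
    have e2 : (1 + 2 : Fin 3) = 0 := rfl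
    have e3 : (2 + 1 : Fin 3) = 0 := rfl
    have e4 : (2 + 2 : Fin 3) = 1 := rfl
    simp only [e1, e2, e3, e4]
    linear_combination S.x 0 * h2 - S.L 0 F * h1
  · simp only [cr, Fin.mk_one, Fin.isValue]
    have e1 : (1 + 1 : Fin 3) = 2 := rfl
    have e2 : (1 + 2 : Fin 3) = 0 := rfl
    have e3 : (2 + 1 : Fin 3) = 0 := rfl
    have e4 : (2 + 2 : Fin 3) = 1 := rfl
    simp only [e1, e2, e3, e4, zero_add]
    linear_combination S.x 1 * h2 - S.L 1 F * h1
  · simp only [cr, Fin.reduceFinMk, Fin.isValue]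
    have e1 : (1 + 1 : Fin 3) = 2 := rfl
    have e2 : (1 + 2 : Fin 3) = 0 := rfl
    have e3 : (2 + 1 : Fin 3) = 0 := rfl
    have e4 : (2 + 2 : Fin 3) = 1 := rfl
    simp only [e1, e2, e3, e4, zero_add]
    linear_combination S.x 2 * h2 - S.L 2 F * h1

theorem lap_comm (j : Fin 3) (F : R) : S.lap (S.L j F) = S.L j (S.lap F) := by
  unfold lap
  simp only [Fin.sum_univ_three, map_add]
  have a := S.c01; have b := S.c12; have c := S.c20
  fin_cases j
  · simp only [Fin.zero_eta, Fin.isValue]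
    have h1 : S.L 1 (S.L 1 (S.L 0 F)) = S.L 0 (S.L 1 (S.L 1 F)) + S.L 1 (S.L 2 F) + S.L 2 (S.L 1 F) := by
      have e1 : S.L 1 (S.L 0 F) = S.L 0 (S.L 1 F) + S.L 2 F := by rw [a]; ring
      rw [e1, map_add]
      have e2 := a (S.L 1 F)
      linear_combination -e2
    have h2 : S.L 2 (S.L 2 (S.L 0 F)) = S.L 0 (S.L 2 (S.L 2 F)) - S.L 2 (S.L 1 F) - S.L 1 (S.L 2 F) := by
      rw [c, map_sub, c]; ring
    linear_combination h1 + h2
  · simp only [Fin.mk_one, Fin.isValue]
    have h1 : S.L 2 (S.L 2 (S.L 1 F)) = S.L 1 (S.L 2 (S.L 2 F)) + S.L 2 (S.L 0 F) + S.L 0 (S.L 2 F) := by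
      have e1 : S.L 2 (S.L 1 F) = S.L 1 (S.L 2 F) + S.L 0 F := by rw [b]; ring
      rw [e1, map_add]
      have e2 := b (S.L 2 F)
      linear_combination -e2
    have h2 : S.L 0 (S.L 0 (S.L 1 F)) = S.L 1 (S.L 0 (S.L 0 F)) - S.L 0 (S.L 2 F) - S.L 2 (S.L 0 F) := by
      rw [a, map_sub, a]; ring
    linear_combination h1 + h2
  · simp only [Fin.reduceFinMk, Fin.isValue]
    have h1 : S.L 0 (S.L 0 (S.L 2 F)) = S.L 2 (S.L 0 (S.L 0 F)) + S.L 0 (S.L 1 F) + S.L 1 (S.L 0 F) := by
      have e1 : S.L 0 (S.L 2 F) = S.L 2 (S.L 0 F) + S.L 1 F := by rw [c]; ring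
      rw [e1, map_add]
      have e2 := c (S.L 0 F)
      linear_combination -e2
    have h2 : S.L 1 (S.L 1 (S.L 2 F)) = S.L 2 (S.L 1 (S.L 1 F)) - S.L 1 (S.L 0 F) - S.L 0 (S.L 1 F) := by
      rw [b, map_sub, b]; ring
    linear_combination h1 + h2

theorem hes_symm (F : R) (i j : Fin 3) : S.hes F i j = S.hes F j i := by
  have h1 := S.sq
  have h2 := S.rad F
  have a := S.c01 F; have b := S.c12 F; have c := S.c20 F
  have e1 : (1 + 1 : Fin 3) = 2 := rfl
  have e2 : (1 + 2 : Fin 3) = 0 := rfl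
  have e3 : (2 + 1 : Fin 3) = 0 := rfl
  have e4 : (2 + 2 : Fin 3) = 1 := rfl
  have k01 : S.hes F 0 1 = S.hes F 1 0 := by
    simp only [hes, cr, Fin.isValue, zero_add, e1, e2, e3, e4]
    linear_combination a + S.L 2 F * h1 - S.x 2 * h2
  have k12 : S.hes F 1 2 = S.hes F 2 1 := by
    simp only [hes, cr, Fin.isValue, zero_add, e1, e2, e3, e4]
    linear_combination b + S.L 0 F * h1 - S.x 0 * h2
  have k20 : S.hes F 2 0 = S.hes F 0 2 := by
    simp only [hes, cr, Fin.isValue, zero_add, e1, e2, e3, e4]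
    linear_combination c + S.L 1 F * h1 - S.x 1 * h2
  fin_cases i <;> fin_cases j <;>
    first
    | rfl
    | exact k01
    | exact k12
    | exact k20
    | exact k01.symm
    | exact k12.symm
    | exact k20.symm

theorem hes_x (F : R) (i : Fin 3) : ∑ j, S.hes F i j * S.x j = 0 := by
  have h := S.rad' i F
  rw [S.Lx_contract] at h
  have h1 := S.sq
  simp only [Fin.sum_univ_three, hes] at h ⊢
  linear_combination h + cr S.x (fun k => S.L k F) i * h1

theorem hes_tr (F : R) : ∑ i, S.hes F i i = S.lap F := by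
  have e1 : (1 + 1 : Fin 3) = 2 := rfl
  have e2 : (1 + 2 : Fin 3) = 0 := rfl
  have e3 : (2 + 1 : Fin 3) = 0 := rfl
  have e4 : (2 + 2 : Fin 3) = 1 := rfl
  simp only [Fin.sum_univ_three, hes, lap, cr, Fin.isValue, zero_add, e1, e2, e3, e4]
  ring

theorem cr_inner (F G : R) : ∑ i, cr S.x (fun k => S.L k F) i * cr S.x (fun k => S.L k G) i = S.gam F G := by
  have e1 : (1 + 1 : Fin 3) = 2 := rfl
  have e2 : (1 + 2 : Fin 3) = 0 := rfl
  have e3 : (2 + 1 : Fin 3) = 0 := rfl
  have e4 : (2 + 2 : Fin 3) = 1 := rfl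
  have h1 := S.sq
  have h2 := S.rad F
  simp only [Fin.sum_univ_three, gam, cr, Fin.isValue, zero_add, e1, e2, e3, e4]
  linear_combination (S.L 0 F * S.L 0 G + S.L 1 F * S.L 1 G + S.L 2 F * S.L 2 G) * h1
    - (S.x 0 * S.L 0 G + S.x 1 * S.L 1 G + S.x 2 * S.L 2 G) * h2

theorem hes_inner (F G : R) : ∑ i, ∑ j, S.hes F i j * S.hes G i j =
    (∑ i, ∑ j, S.L i (S.L j F) * S.L i (S.L j G)) - S.gam F G := by
  have key : ∀ i, ∑ j, S.hes F i j * S.hes G i j = (∑ j, S.L i (S.L j F) * S.L i (S.L j G))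
      - cr S.x (fun k => S.L k F) i * cr S.x (fun k => S.L k G) i := by
    intro i
    have h := S.rad' i F
    rw [S.Lx_contract] at h
    have h' := S.rad' i G
    rw [S.Lx_contract] at h'
    have h1 := S.sq
    simp only [Fin.sum_univ_three, hes] at h h' ⊢
    linear_combination cr S.x (fun k => S.L k G) i * h + cr S.x (fun k => S.L k F) i * h'
      + cr S.x (fun k => S.L k F) i * cr S.x (fun k => S.L k G) i * h1
  rw [Finset.sum_congr rfl fun i _ => key i, Finset.sum_sub_distrib, S.cr_inner]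

theorem hes_grad (g : R) : 2 * ∑ i, ∑ j, S.hes g i j * S.L i g * S.L j g = S.gam g (S.gam g g) := by
  have key : ∀ i, 2 * ∑ j, S.hes g i j * S.L i g * S.L j g = S.L i g * S.L i (S.gam g g) := by
    intro i
    have h := S.rad g
    simp only [Fin.sum_univ_three, hes, gam, map_add, Derivation.leibniz, smul_eq_mul]
    linear_combination 2 * (cr S.x (fun k => S.L k g) i) * S.L i g * h
  rw [Finset.mul_sum, Finset.sum_congr rfl fun i _ => key i]
  rfl

theorem pr_symm (i j : Fin 3) : S.pr i j = S.pr j i := by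
  unfold pr
  rw [mul_comm (S.x i)]
  congr 1
  simp [eq_comm]

theorem pr_x (i : Fin 3) : ∑ j, S.pr i j * S.x j = 0 := by
  have h1 := S.sq
  unfold pr
  fin_cases i
  · simp [Fin.sum_univ_three]
    linear_combination - S.x 0 * h1
  · simp [Fin.sum_univ_three]
    linear_combination - S.x 1 * h1
  · simp [Fin.sum_univ_three]
    linear_combination - S.x 2 * h1

/-- A matrix killed by `x`, contracted with `pr`, is its trace. -/
theorem pr_tr (M : Fin 3 → Fin 3 → R) (_hs : ∀ i j, M i j = M j i) (hx : ∀ i, ∑ j, M i j * S.x j = 0) :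
    ∑ i, ∑ j, M i j * S.pr i j = ∑ i, M i i := by
  have h0 := hx 0
  have h1 := hx 1
  have h2 := hx 2
  unfold pr
  simp [Fin.sum_univ_three] at h0 h1 h2 ⊢
  linear_combination - S.x 0 * h0 - S.x 1 * h1 - S.x 2 * h2

theorem pr_pr : ∑ i, ∑ j, S.pr i j * S.pr i j = 2 := by
  rw [S.pr_tr (fun i j => S.pr i j) S.pr_symm S.pr_x]
  have h1 := S.sq
  unfold pr
  simp [Fin.sum_univ_three]
  linear_combination - h1

section int
variable (I : R →ₗ[ℝ] ℝ) (hI : ∀ i F, I (S.L i F) = 0)
include hI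

theorem ibp (i : Fin 3) (F G : R) : I (S.L i F * G) = - I (F * S.L i G) := by
  have h := hI i (F * G)
  rw [Derivation.leibniz, smul_eq_mul, smul_eq_mul, map_add] at h
  have e : S.L i F * G = G * S.L i F := mul_comm _ _
  rw [e]
  linarith

theorem green (F G : R) : I (F * S.lap G) = - I (S.gam F G) := by
  unfold lap gam
  rw [Finset.mul_sum, map_sum, map_sum, ← Finset.sum_neg_distrib]
  refine Finset.sum_congr rfl fun i _ => ?_
  have := S.ibp I hI i F (S.L i G)
  linarith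

theorem lap_zero (F : R) : I (S.lap F) = 0 := by
  unfold lap
  rw [map_sum]
  exact Finset.sum_eq_zero fun i _ => hI i _

theorem bochner (F G : R) : I (∑ i, ∑ j, S.hes F i j * S.hes G i j) = I (S.lap F * S.lap G) - I (S.gam F G) := by
  rw [S.hes_inner, map_sub]
  congr 1
  rw [Finset.sum_comm, map_sum]
  have h1 : ∀ j, I (∑ i, S.L i (S.L j F) * S.L i (S.L j G)) = - I (S.L j F * S.L j (S.lap G)) := by
    intro j
    have h := S.green I hI (S.L j F) (S.L j G)
    rw [S.lap_comm] at h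
    unfold gam at h
    linarith
  rw [Finset.sum_congr rfl fun j _ => h1 j, Finset.sum_neg_distrib, ← map_sum]
  have h2 := S.green I hI (S.lap G) F
  have h3 : S.gam (S.lap G) F = ∑ j, S.L j F * S.L j (S.lap G) := by
    unfold gam
    exact Finset.sum_congr rfl fun i _ => mul_comm _ _
  rw [h3] at h2
  rw [mul_comm (S.lap F), h2]

end int

end SA
end NShell
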