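import Pool.Agent.Lib.NullShell.Surf
import Pool.Agent.Lib.NullShell.A1

set_option autoImplicit false

/-!
Algebra of the surface quantities.
-/

namespace NShell
namespace SA

variable {R : Type*} [CommRing R] [Algebra ℝ R] (S : SA R)

theorem f3a : (1 + 1 : Fin 3) = 2 := rfl
theorem f3b : (1 + 2 : Fin 3) = 0 := rfl
theorem f3c : (2 + 1 : Fin 3) = 0 := rfl
theorem f3d : (2 + 2 : Fin 3) = 1 := rfl

section
variable {X : Fin 3 → R} {tau : R} (hN : S.Nor X tau)
include hN

theorem Lh (i : Fin 3) : S.L i (S.sf X - tau) = cr S.x X i := by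
  have h := hN i
  rw [← S.Lx_contract]
  unfold sf
  simp only [Fin.sum_univ_three, map_sub, map_add, Derivation.leibniz, smul_eq_mul] at h ⊢
  linear_combination - h

theorem B_eq (i j : Fin 3) : S.fB X i j = S.hes (S.sf X - tau) i j + S.sf X * S.pr i j := by
  have h1 := S.sq
  have e : (fun k => S.L k (S.sf X - tau)) = cr S.x X := by funext k; exact S.Lh hN k
  unfold hes
  rw [e, S.Lh hN j]
  have e2 : cr S.x (cr S.x X) i = S.sf X * S.x i - X i := by
    unfold sf
    fin_cases i <;> simp [cr, f3a, f3b, f3c, f3d, Fin.sum_univ_three]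
    · linear_combination - X 0 * h1
    · linear_combination - X 1 * h1
    · linear_combination - X 2 * h1
  rw [e2]
  unfold fB sf pr
  fin_cases i <;> fin_cases j <;>
    simp [cr, f3a, f3b, f3c, f3d, Fin.sum_univ_three, S.L00, S.L01, S.L02, S.L10, S.L11, S.L12, S.L20, S.L21,
      S.L22, Derivation.leibniz, -mul_eq_mul_left_iff, -mul_eq_mul_right_iff] <;> ring

theorem B_symm (i j : Fin 3) : S.fB X i j = S.fB X j i := by
  rw [S.B_eq hN, S.B_eq hN, S.hes_symm, S.pr_symm]

theorem B_tr : S.tB X = S.lap (S.sf X - tau) + 2 * S.sf X := by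
  unfold tB
  rw [Finset.sum_congr rfl fun i _ => S.B_eq hN i i, Finset.sum_add_distrib, S.hes_tr, ← Finset.mul_sum]
  have : ∑ i, S.pr i i = 2 := by
    have h1 := S.sq
    unfold pr
    simp [Fin.sum_univ_three]
    linear_combination - h1
  rw [this]
  ring

/-- The cofactor matrix in terms of the support functions. -/
theorem C_eq (i j : Fin 3) : S.cB X i j = (S.lap (S.sf X - tau) + S.sf X) * S.pr i j - S.hes (S.sf X - tau) i j := by
  unfold cB
  rw [S.B_tr hN, S.B_eq hN]
  ring

/-- Divergence of the cofactor matrix. -/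
theorem div_C : ∃ K : R, ∀ j, ∑ i, S.L i (S.cB X i j) = S.L j tau - S.x j * K := by
  set h := S.sf X - tau with hh
  set G := S.lap h + S.sf X with hG
  set c := cr S.x (fun k => S.L k h) with hc
  refine ⟨∑ i, S.L i (c i), fun j => ?_⟩
  have e1 : ∀ i, S.L i (S.cB X i j) = S.L i (G * S.pr i j) - S.L i (S.hes h i j) := by
    intro i
    rw [S.C_eq hN, map_sub]
  rw [Finset.sum_congr rfl fun i _ => e1 i, Finset.sum_sub_distrib]
  have r1 := S.rad G
  have r2 := S.rad (S.x j)
  have p1 : ∑ i, S.L i (G * S.pr i j) = S.L j G := by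
    unfold pr
    fin_cases j <;>
    simp [Fin.sum_univ_three, Derivation.leibniz, S.L00, S.L01, S.L02, S.L10, S.L11, S.L12, S.L20, S.L21, S.L22,
      mul_sub]
    · linear_combination S.x 0 * r1
    · linear_combination S.x 1 * r1
    · linear_combination S.x 2 * r1
  have p2 : ∑ i, S.L i (S.hes h i j) = S.L j (S.lap h) + S.L j h + S.x j * ∑ i, S.L i (c i) := by
    have q1 : ∀ i, S.L i (S.hes h i j) = S.L i (S.L i (S.L j h)) + (S.x j * S.L i (c i) + c i * S.L i (S.x j)) := by
      intro i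
      unfold hes
      rw [map_add, Derivation.leibniz, smul_eq_mul, smul_eq_mul]
    rw [Finset.sum_congr rfl fun i _ => q1 i, Finset.sum_add_distrib, Finset.sum_add_distrib, ← Finset.mul_sum]
    have q2 : ∑ i, S.L i (S.L i (S.L j h)) = S.L j (S.lap h) := S.lap_comm j h
    have q3 : ∑ i, c i * S.L i (S.x j) = S.L j h := by
      have r3 := S.cr_cr h j
      rw [← hc] at r3
      have q4 : ∑ i, c i * S.L i (S.x j) = - cr S.x c j := by
        fin_cases j <;>
        simp [Fin.sum_univ_three, cr, f3a, f3b, f3c, f3d, S.L00, S.L01, S.L02, S.L10, S.L11, S.L12, S.L20, S.L21, S.L22] <;> ring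
      rw [q4, r3, neg_neg]
    rw [q2, q3]
    ring
  rw [p1, p2, hG, map_add, hh, map_sub]
  ring

theorem C_x (i : Fin 3) : ∑ j, S.cB X i j * S.x j = 0 := by
  have h1 := S.pr_x i
  have h2 := S.hes_x (S.sf X - tau) i
  rw [Finset.sum_congr rfl fun j _ => by rw [S.C_eq hN]]
  simp only [Fin.sum_univ_three] at h1 h2 ⊢
  linear_combination (S.lap (S.sf X - tau) + S.sf X) * h1 - h2

/-- The divergence identity, integrated. -/
theorem div_cof (I : R →ₗ[ℝ] ℝ) (hI : ∀ i F, I (S.L i F) = 0) (b : Fin 3 → R) (hb : ∑ j, S.x j * b j = 0) :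
    I (∑ i, ∑ j, S.cB X i j * S.L i (b j)) = - I (∑ j, S.L j tau * b j) := by
  obtain ⟨K, hK⟩ := S.div_C hN
  have h1 : ∑ i, S.L i (∑ j, S.cB X i j * b j) = (∑ i, ∑ j, S.cB X i j * S.L i (b j)) + ∑ j, S.L j tau * b j := by
    have e1 : ∀ i, S.L i (∑ j, S.cB X i j * b j) = (∑ j, S.cB X i j * S.L i (b j)) + ∑ j, S.L i (S.cB X i j) * b j := by
      intro i
      rw [map_sum, ← Finset.sum_add_distrib]
      refine Finset.sum_congr rfl fun j _ => ?_
      rw [Derivation.leibniz, smul_eq_mul, smul_eq_mul]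
      ring
    rw [Finset.sum_congr rfl fun i _ => e1 i, Finset.sum_add_distrib]
    congr 1
    rw [Finset.sum_comm]
    have e2 : ∀ j, ∑ i, S.L i (S.cB X i j) * b j = S.L j tau * b j - K * (S.x j * b j) := by
      intro j
      rw [← Finset.sum_mul, hK]
      ring
    rw [Finset.sum_congr rfl fun j _ => e2 j, Finset.sum_sub_distrib, ← Finset.mul_sum, hb]
    ring
  have h2 := congrArg I h1
  rw [map_sum, Finset.sum_eq_zero (fun i _ => hI i _), map_add] at h2
  linarith

end

theorem B_x (X : Fin 3 → R) (i : Fin 3) : ∑ j, S.fB X i j * S.x j = 0 := by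
  unfold fB
  simp only [Fin.sum_univ_three, S.L00, S.L01, S.L02, S.L10, S.L11, S.L12, S.L20, S.L21, S.L22]
  ring

end SA
end NShell
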