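import Pool.Agent.Lib.NullShell.Surf
import Pool.Agent.Lib.NullShell.SkA1
import Pool.Agent.Lib.NullShell.SkA2

set_option autoImplicit false

/-!
Chunk A3. Integral identities for a function `g`.
-/

namespace NShell
namespace SA

variable {R : Type*} [CommRing R] [Algebra ℝ R] (S : SA R)

theorem half_two : (2 : R) * algebraMap ℝ R (1 / 2) = 1 := by
  have h2 : (2 : R) = algebraMap ℝ R 2 := (map_ofNat (algebraMap ℝ R) 2).symm
  rw [h2, ← map_mul]
  norm_num

theorem hes_pr (g : R) : ∑ i, ∑ j, S.hes g i j * S.pr i j = S.lap g := by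
  rw [S.pr_tr (fun i j => S.hes g i j) (S.hes_symm g) (S.hes_x g), S.hes_tr]

theorem grad_pr (g : R) : ∑ i, ∑ j, S.L i g * S.L j g * S.pr i j = S.gam g g := by
  have h := S.rad g
  unfold pr gam
  simp [Fin.sum_univ_three] at h ⊢
  linear_combination -(S.x 0 * S.L 0 g + S.x 1 * S.L 1 g + S.x 2 * S.L 2 g) * h

theorem Z_tr (g : R) : ∑ i, ∑ j, S.ZZ g i j * S.pr i j = 0 := by
  have e1 := S.hes_pr g
  have e2 := S.grad_pr g
  have e3 := S.pr_pr
  have hc := half_two (R := R)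
  unfold ZZ
  simp only [Algebra.smul_def]
  generalize algebraMap ℝ R (1 / 2) = c at hc ⊢
  generalize S.lap g = D at e1 ⊢
  generalize S.gam g g = G at e2 ⊢
  simp only [Fin.sum_univ_three] at e1 e2 e3 ⊢
  linear_combination 2 * e1 - e2 - (D - c * G) * e3 + G * hc

theorem Z_norm (g : R) : ∑ i, ∑ j, S.ZZ g i j ^ 2 =
    4 * (∑ i, ∑ j, S.hes g i j ^ 2) - 2 * S.gam g (S.gam g g) + S.gam g g ^ 2
      - (1 / 2 : ℝ) • (2 * S.lap g - S.gam g g) ^ 2 := by
  have e1 := S.hes_pr g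
  have e2 := S.grad_pr g
  have e3 := S.pr_pr
  have e4 := S.hes_grad g
  have e5 : S.gam g g = ∑ i, S.L i g * S.L i g := rfl
  have hc := half_two (R := R)
  rw [← e4]
  unfold ZZ
  simp only [Algebra.smul_def]
  generalize algebraMap ℝ R (1 / 2) = c at hc ⊢
  generalize S.lap g = D at e1 ⊢
  generalize S.gam g g = G at e2 e5 ⊢
  simp only [Fin.sum_univ_three] at e1 e2 e3 e5 ⊢
  linear_combination (-4 * (D - c * G)) * e1 + (2 * (D - c * G)) * e2 + (D - c * G) ^ 2 * e3
    - (G + (S.L 0 g * S.L 0 g + S.L 1 g * S.L 1 g + S.L 2 g * S.L 2 g)) * e5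
    + (2 * D ^ 2 - 2 * D * G + c * G ^ 2) * hc

section int
variable (I : R →ₗ[ℝ] ℝ) (hI : ∀ i F, I (S.L i F) = 0)
include hI

theorem Y_eq {X : Fin 3 → R} {tau : R} (hN : S.Nor X tau) (g : R) :
    I (S.tB X + 2 * S.gam tau g - ∑ i, ∑ j, S.fB X i j * S.L i g * S.L j g)
      = I (S.tB X * S.rr g + ∑ i, ∑ j, S.fB X i j * S.ZZ g i j) := by
  have hrad : ∑ j, S.x j * S.L j g = 0 := by
    rw [Fin.sum_univ_three]; exact S.rad g
  have h1 := S.div_cof hN I hI (fun j => S.L j g) hrad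
  have hcx : ∀ i, ∑ j, S.cB X i j * S.x j = 0 := by
    intro i
    have a := S.B_x X i
    have b := S.pr_x i
    simp only [cB, Fin.sum_univ_three] at a b ⊢
    linear_combination S.tB X * b - a
  have h2 : ∑ i, ∑ j, S.cB X i j * S.L i (S.L j g) = ∑ i, ∑ j, S.cB X i j * S.hes g i j := by
    refine Finset.sum_congr rfl fun i _ => ?_
    have a := hcx i
    simp only [hes, Fin.sum_univ_three] at a ⊢
    linear_combination (-(cr S.x (fun k => S.L k g) i)) * a
  have h3 : ∑ i, ∑ j, S.cB X i j * S.hes g i j = S.tB X * S.lap g - ∑ i, ∑ j, S.fB X i j * S.hes g i j := by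
    have e1 := S.hes_pr g
    simp only [cB, Fin.sum_univ_three] at e1 ⊢
    linear_combination S.tB X * e1
  have h4 : ∑ i, ∑ j, S.fB X i j * S.pr i j = S.tB X :=
    S.pr_tr (fun i j => S.fB X i j) (S.B_symm hN) (S.B_x X)
  have h5 : I (S.gam tau g) = - I (S.tB X * S.lap g - ∑ i, ∑ j, S.fB X i j * S.hes g i j) := by
    rw [← h3, ← h2]
    have : ∑ j, S.L j tau * S.L j g = S.gam tau g := rfl
    rw [this] at h1
    linarith
  have hc := half_two (R := R)
  have h6 : S.tB X * S.rr g + ∑ i, ∑ j, S.fB X i j * S.ZZ g i j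
      = S.tB X - (2 : ℝ) • (S.tB X * S.lap g - ∑ i, ∑ j, S.fB X i j * S.hes g i j)
        - ∑ i, ∑ j, S.fB X i j * S.L i g * S.L j g := by
    rw [two_smul]
    unfold rr ZZ
    simp only [Algebra.smul_def]
    generalize algebraMap ℝ R (1 / 2) = c at hc ⊢
    generalize S.lap g = D
    generalize S.gam g g = G
    generalize S.tB X = s at h4 ⊢
    simp only [Fin.sum_univ_three] at h4 ⊢
    linear_combination (-(D - c * G)) * h4
  have h7 : S.tB X + 2 * S.gam tau g - ∑ i, ∑ j, S.fB X i j * S.L i g * S.L j g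
      = S.tB X + (2 : ℝ) • S.gam tau g - ∑ i, ∑ j, S.fB X i j * S.L i g * S.L j g := by
    rw [two_smul]; ring
  rw [h6, h7]
  simp only [map_sub, map_add, map_smul, h5, smul_eq_mul]
  ring

theorem id_c (g : R) : I (S.rr g ^ 2 - (1 / 2 : ℝ) • ∑ i, ∑ j, S.ZZ g i j ^ 2) =
    I 1 + I (S.gam g g * (1 - S.lap g)) := by
  have hb := S.bochner I hI g g
  have hb' : ∑ i, ∑ j, S.hes g i j * S.hes g i j = ∑ i, ∑ j, S.hes g i j ^ 2 :=
    Finset.sum_congr rfl fun i _ => Finset.sum_congr rfl fun j _ => by ring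
  rw [hb'] at hb
  have hg := S.green I hI (S.gam g g) g
  rw [S.gam_comm (S.gam g g) g] at hg
  have hl := S.lap_zero I hI g
  have hc := half_two (R := R)
  have key : S.rr g ^ 2 - (1 / 2 : ℝ) • ∑ i, ∑ j, S.ZZ g i j ^ 2
      = 1 + (2 : ℝ) • (S.lap g * S.lap g) - (2 : ℝ) • S.lap g - S.gam g g
        - (2 : ℝ) • (∑ i, ∑ j, S.hes g i j ^ 2) + S.gam g (S.gam g g) := by
    rw [S.Z_norm g]
    simp only [two_smul]
    unfold rr
    simp only [Algebra.smul_def]
    generalize algebraMap ℝ R (1 / 2) = c at hc ⊢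
    generalize S.gam g (S.gam g g) = GG
    generalize S.lap g = D
    generalize S.gam g g = G
    generalize (∑ i, ∑ j, S.hes g i j ^ 2) = HH
    linear_combination (-G + D * G) * hc + (-(2 * HH)) * hc + GG * hc
      + (D ^ 2 - D * G) * (2 * c + 1) * hc  + (c * G ^ 2) * hc
  rw [key]
  simp only [map_sub, map_add, map_smul, hb, hl, smul_eq_mul, mul_sub, mul_one]
  linarith

end int

end SA
end NShell
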