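import Mathlib

set_option autoImplicit false

/-!
The adjugate of a symmetric 3x3 matrix over a commutative ring which kills a unit vector.
-/

namespace NShell

theorem adjs {R : Type*} [CommRing R] (a b c d e f x y z : R)
    (r0 : a * x + b * y + c * z = 0) (r1 : b * x + d * y + e * z = 0) (r2 : c * x + e * y + f * z = 0)
    (hx : x * x + y * y + z * z = 1) :
    d * f - e * e = ((d * f - e * e) + (a * f - c * c) + (a * d - b * b)) * (x * x) ∧
    a * f - c * c = ((d * f - e * e) + (a * f - c * c) + (a * d - b * b)) * (y * y) ∧
    a * d - b * b = ((d * f - e * e) + (a * f - c * c) + (a * d - b * b)) * (z * z) ∧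
    c * e - b * f = ((d * f - e * e) + (a * f - c * c) + (a * d - b * b)) * (x * y) ∧
    b * e - c * d = ((d * f - e * e) + (a * f - c * c) + (a * d - b * b)) * (x * z) ∧
    b * c - a * e = ((d * f - e * e) + (a * f - c * c) + (a * d - b * b)) * (y * z) := by
  have p1 : (d * f - e * e) * y - (c * e - b * f) * x = 0 := by linear_combination f * r1 - e * r2
  have p2 : (c * e - b * f) * y - (a * f - c * c) * x = 0 := by linear_combination c * r2 - f * r0
  have p3 : (d * f - e * e) * z - (b * e - c * d) * x = 0 := by linear_combination d * r2 - e * r1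
  have p4 : (b * e - c * d) * z - (a * d - b * b) * x = 0 := by linear_combination b * r1 - d * r0
  have p5 : (a * f - c * c) * z - (b * c - a * e) * y = 0 := by linear_combination a * r2 - c * r0
  have p6 : (b * c - a * e) * z - (a * d - b * b) * y = 0 := by linear_combination b * r0 - a * r1
  have p7 : (c * e - b * f) * z - (b * e - c * d) * y = 0 := by linear_combination c * r1 - b * r2
  have p8 : (c * e - b * f) * z - (b * c - a * e) * x = 0 := by linear_combination e * r0 - b * r2
  refine ⟨?_, ?_, ?_, ?_, ?_, ?_⟩
  · linear_combination (-(d * f - e * e)) * hx + y * p1 + x * p2 + z * p3 + x * p4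
  · linear_combination (-(a * f - c * c)) * hx - y * p1 - x * p2 + z * p5 + y * p6
  · linear_combination (-(a * d - b * b)) * hx - z * p3 - x * p4 - z * p5 - y * p6
  · linear_combination (-(c * e - b * f)) * hx - x * p1 + y * p2 + z * p8 + x * p6
  · linear_combination (-(b * e - c * d)) * hx - x * p3 + z * p4 + z * p2 - y * p7
  · linear_combination (-(b * c - a * e)) * hx - y * p5 + z * p6 - z * p1 - x * p8

end NShell
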