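import Mathlib

set_option autoImplicit false

/-!
Sphere algebra: a commutative real algebra (of functions on the two-sphere) with the three rotation
derivations and the three coordinates. Rotated gradients, Laplacian, rotated Hessian.
-/

namespace NShell

/-- A commutative algebra with the derivations `L i` (rotation about the `i`-th axis,
`L i F = dF (e_i × x)`) and the coordinates `x i` of the unit sphere. -/
structure SA (R : Type*) [CommRing R] [Algebra ℝ R] where
  L : Fin 3 → Derivation ℝ R R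
  x : Fin 3 → R
  sq : x 0 * x 0 + x 1 * x 1 + x 2 * x 2 = 1
  L00 : L 0 (x 0) = 0
  L01 : L 0 (x 1) = - x 2
  L02 : L 0 (x 2) = x 1
  L10 : L 1 (x 0) = x 2
  L11 : L 1 (x 1) = 0
  L12 : L 1 (x 2) = - x 0
  L20 : L 2 (x 0) = - x 1
  L21 : L 2 (x 1) = x 0
  L22 : L 2 (x 2) = 0
  rad : ∀ F : R, x 0 * L 0 F + x 1 * L 1 F + x 2 * L 2 F = 0
  c01 : ∀ F : R, L 0 (L 1 F) = L 1 (L 0 F) - L 2 F
  c12 : ∀ F : R, L 1 (L 2 F) = L 2 (L 1 F) - L 0 F
  c20 : ∀ F : R, L 2 (L 0 F) = L 0 (L 2 F) - L 1 F

/-- Cross product of two triples. -/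
def cr {R : Type*} [CommRing R] (a b : Fin 3 → R) (i : Fin 3) : R :=
  a (i + 1) * b (i + 2) - a (i + 2) * b (i + 1)

namespace SA

variable {R : Type*} [CommRing R] [Algebra ℝ R] (S : SA R)

/-- Scalar product of two gradients. -/
def gam (F G : R) : R := ∑ i, S.L i F * S.L i G

/-- Laplacian. -/
def lap (F : R) : R := ∑ i, S.L i (S.L i F)

/-- The projection on the tangent plane. -/
def pr (i j : Fin 3) : R := (if i = j then 1 else 0) - S.x i * S.x j

/-- Rotated Hessian: the Hessian on `e_i × x`, `e_j × x`. -/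
def hes (F : R) (i j : Fin 3) : R := S.L i (S.L j F) + S.x j * cr S.x (fun k => S.L k F) i

end SA

end NShell
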