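import Pool.Agent.Lib.NullShell.Surf

set_option autoImplicit false
set_option linter.unusedSimpArgs false

/-!
The sphere algebra seen by a boosted observer with four-velocity `(γ, u)`, `γ^2 = 1 + |u|^2`, `q = 1/(γ+1)`:
`phi = γ + u.x`, `x'_i = (x_i + (1 + q u.x) u_i)/phi`, `L'_i = phi L_i - (q u_i + x_i) sum_j u_j L_j`.
-/

namespace NShell
namespace SA

variable {R : Type*} [CommRing R] [Algebra ℝ R] (S : SA R) (u : Fin 3 → ℝ) (γ q : ℝ)

/-- `u . x`. -/
def ux : R := ∑ j, algebraMap ℝ R (u j) * S.x j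

/-- `phi = γ + u.x`. -/
def phi : R := algebraMap ℝ R γ + S.ux u

/-- Rotation about `u`. -/
def Lu (F : R) : R := ∑ j, algebraMap ℝ R (u j) * S.L j F

/-- Rotations of the boosted observer. -/
def bL (i : Fin 3) : Derivation ℝ R R :=
  S.phi u γ • S.L i - (algebraMap ℝ R (q * u i) + S.x i) • ∑ j, algebraMap ℝ R (u j) • S.L j

theorem bL_apply (i : Fin 3) (F : R) : S.bL u γ q i F =
    S.phi u γ * S.L i F - (algebraMap ℝ R (q * u i) + S.x i) * S.Lu u F := by
  simp [bL, Lu, Fin.sum_univ_three, Algebra.smul_def]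
  ring

theorem phi_def : S.phi u γ = algebraMap ℝ R γ + (algebraMap ℝ R (u 0) * S.x 0
    + algebraMap ℝ R (u 1) * S.x 1 + algebraMap ℝ R (u 2) * S.x 2) := by
  simp [phi, ux, Fin.sum_univ_three]

theorem Lu_def (F : R) : S.Lu u F = algebraMap ℝ R (u 0) * S.L 0 F
    + algebraMap ℝ R (u 1) * S.L 1 F + algebraMap ℝ R (u 2) * S.L 2 F := by
  simp [Lu, Fin.sum_univ_three]

theorem L0_phi : S.L 0 (S.phi u γ) = algebraMap ℝ R (u 2) * S.x 1 - algebraMap ℝ R (u 1) * S.x 2 := by
  simp only [phi_def, map_add, Derivation.leibniz, Derivation.map_algebraMap, S.L00, S.L01, S.L02, smul_eq_mul]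
  ring

theorem L1_phi : S.L 1 (S.phi u γ) = algebraMap ℝ R (u 0) * S.x 2 - algebraMap ℝ R (u 2) * S.x 0 := by
  simp only [phi_def, map_add, Derivation.leibniz, Derivation.map_algebraMap, S.L10, S.L11, S.L12, smul_eq_mul]
  ring

theorem L2_phi : S.L 2 (S.phi u γ) = algebraMap ℝ R (u 1) * S.x 0 - algebraMap ℝ R (u 0) * S.x 1 := by
  simp only [phi_def, map_add, Derivation.leibniz, Derivation.map_algebraMap, S.L20, S.L21, S.L22, smul_eq_mul]
  ring

theorem L_phii (φi : R) (h3 : S.phi u γ * φi = 1) (i : Fin 3) :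
    S.L i φi = - φi ^ 2 * S.L i (S.phi u γ) := by
  have h := congrArg (S.L i) h3
  simp only [Derivation.leibniz, smul_eq_mul, Derivation.map_one_eq_zero] at h
  linear_combination φi * h - S.L i φi * h3

theorem rels {γ q : ℝ} {u : Fin 3 → ℝ} (h1 : γ ^ 2 = 1 + ∑ i, u i ^ 2) (h2 : q * (γ + 1) = 1) :
    algebraMap ℝ R γ ^ 2 = 1 + (algebraMap ℝ R (u 0) ^ 2 + algebraMap ℝ R (u 1) ^ 2 + algebraMap ℝ R (u 2) ^ 2) ∧
    algebraMap ℝ R q * (algebraMap ℝ R γ + 1) = 1 := by
  constructor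
  · have := congrArg (algebraMap ℝ R) h1
    simpa [Fin.sum_univ_three] using this
  · have := congrArg (algebraMap ℝ R) h2
    simpa using this

/-- Coordinates of the boosted observer. -/
def bx (φi : R) (i : Fin 3) : R :=
  φi * (S.x i + (1 + algebraMap ℝ R q * S.ux u) * algebraMap ℝ R (u i))

/-- Derivative of the coordinates of the boosted observer, with `phi` cleared. -/
theorem bL_bx (φi : R) (h3 : S.phi u γ * φi = 1) (i j : Fin 3) :
    S.bL u γ q i (S.bx u q φi j) = φi * (S.phi u γ * S.L i (S.x j)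
      + algebraMap ℝ R q * S.phi u γ * S.L i (S.phi u γ) * algebraMap ℝ R (u j)
      - (algebraMap ℝ R (q * u i) + S.x i) * S.Lu u (S.x j)
      - (S.x j + (1 + algebraMap ℝ R q * S.ux u) * algebraMap ℝ R (u j)) * S.L i (S.phi u γ)) := by
  have e0 : S.L i φi = - φi ^ 2 * S.L i (S.phi u γ) := S.L_phii u γ φi h3 i
  have e1 : ∀ k, S.L k (S.ux u) = S.L k (S.phi u γ) := by
    intro k; simp [phi]
  have e2 : S.Lu u φi = 0 := by
    rw [Lu_def, S.L_phii u γ φi h3, S.L_phii u γ φi h3, S.L_phii u γ φi h3, L0_phi, L1_phi, L2_phi]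
    ring
  have e3 : S.Lu u (S.ux u) = 0 := by
    rw [Lu_def, e1, e1, e1, L0_phi, L1_phi, L2_phi]
    ring
  have e4 : S.Lu u (S.bx u q φi j) = φi * S.Lu u (S.x j) := by
    have : S.Lu u (S.bx u q φi j) = φi * S.Lu u (S.x j)
        + (S.x j + (1 + algebraMap ℝ R q * S.ux u) * algebraMap ℝ R (u j)) * S.Lu u φi
        + φi * algebraMap ℝ R q * algebraMap ℝ R (u j) * S.Lu u (S.ux u) := by
      simp only [bx, Lu_def, map_add, Derivation.leibniz, Derivation.map_algebraMap, smul_eq_mul,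
        Derivation.map_one_eq_zero]
      ring
    rw [this, e2, e3]; ring
  rw [bL_apply, e4]
  simp only [bx, map_add, Derivation.leibniz, Derivation.map_algebraMap, smul_eq_mul,
        Derivation.map_one_eq_zero, e0, e1]
  linear_combination (- φi * (S.x j + (1 + algebraMap ℝ R q * S.ux u) * algebraMap ℝ R (u j)) *
    S.L i (S.phi u γ)) * h3

set_option maxHeartbeats 4000000 in
/-- The sphere algebra of the boosted observer. -/
def boost (φi : R) (h1 : γ ^ 2 = 1 + ∑ i, u i ^ 2) (h2 : q * (γ + 1) = 1) (h3 : S.phi u γ * φi = 1) : SA R where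
  L := S.bL u γ q
  x := S.bx u q φi
  sq := by
    obtain ⟨r1, r2⟩ := rels (R := R) h1 h2
    have hs := S.sq
    rw [phi_def] at h3
    simp only [bx, ux, Fin.sum_univ_three]
    generalize algebraMap ℝ R (u 0) = a0 at *
    generalize algebraMap ℝ R (u 1) = a1 at *
    generalize algebraMap ℝ R (u 2) = a2 at *
    generalize algebraMap ℝ R γ = g at *
    generalize algebraMap ℝ R q = p at *
    generalize S.x 0 = x0 at *
    generalize S.x 1 = x1 at *
    generalize S.x 2 = x2 at *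
    generalize ht : a0 * x0 + a1 * x1 + a2 * x2 = t at *
    have k1 : x0 * a0 + x1 * a1 + x2 * a2 = t := by rw [← ht]; ring
    have k2 : a0 ^ 2 + a1 ^ 2 + a2 ^ 2 = g ^ 2 - 1 := by rw [r1]; ring
    linear_combination φi ^ 2 * hs + 2 * φi ^ 2 * (1 + p * t) * k1 + φi ^ 2 * (1 + p * t) ^ 2 * k2
      + (φi * (g + t) + 1) * h3 + φi ^ 2 * (2 * t * (g - 1) + p * t ^ 2 * (g - 1) + t ^ 2) * r2
  L00 := by
    obtain ⟨r1, r2⟩ := rels (R := R) h1 h2
    have hs := S.sq
    rw [bL_bx (h3 := h3), L0_phi, Lu_def, S.L00, S.L10, S.L20, map_mul, phi_def]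
    simp only [ux, Fin.sum_univ_three]
    linear_combination (φi * algebraMap ℝ R (u 0) * (algebraMap ℝ R (u 2) * S.x 1 - algebraMap ℝ R (u 1) * S.x 2)) * r2
  L01 := by
    obtain ⟨r1, r2⟩ := rels (R := R) h1 h2
    have hs := S.sq
    rw [bL_bx (h3 := h3), L0_phi, Lu_def, S.L01, S.L11, S.L21, map_mul, phi_def, bx]
    simp only [ux, Fin.sum_univ_three]
    linear_combination - φi * algebraMap ℝ R (u 2) * hs + φi * ((algebraMap ℝ R (u 2) * S.x 1 - algebraMap ℝ R (u 1) * S.x 2) * algebraMap ℝ R (u 1) + S.x 2 * (algebraMap ℝ R γ - 1)) * r2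
      - φi * algebraMap ℝ R q * S.x 2 * r1
  L02 := by
    obtain ⟨r1, r2⟩ := rels (R := R) h1 h2
    have hs := S.sq
    rw [bL_bx (h3 := h3), L0_phi, Lu_def, S.L02, S.L12, S.L22, map_mul, phi_def, bx]
    simp only [ux, Fin.sum_univ_three]
    linear_combination  φi * algebraMap ℝ R (u 1) * hs + φi * ((algebraMap ℝ R (u 2) * S.x 1 - algebraMap ℝ R (u 1) * S.x 2) * algebraMap ℝ R (u 2) - S.x 1 * (algebraMap ℝ R γ - 1)) * r2
      + φi * algebraMap ℝ R q * S.x 1 * r1
  L10 := by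
    obtain ⟨r1, r2⟩ := rels (R := R) h1 h2
    have hs := S.sq
    rw [bL_bx (h3 := h3), L1_phi, Lu_def, S.L00, S.L10, S.L20, map_mul, phi_def, bx]
    simp only [ux, Fin.sum_univ_three]
    linear_combination  φi * algebraMap ℝ R (u 2) * hs + φi * ((algebraMap ℝ R (u 0) * S.x 2 - algebraMap ℝ R (u 2) * S.x 0) * algebraMap ℝ R (u 0) - S.x 2 * (algebraMap ℝ R γ - 1)) * r2
      + φi * algebraMap ℝ R q * S.x 2 * r1
  L11 := by
    obtain ⟨r1, r2⟩ := rels (R := R) h1 h2
    have hs := S.sq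
    rw [bL_bx (h3 := h3), L1_phi, Lu_def, S.L01, S.L11, S.L21, map_mul, phi_def]
    simp only [ux, Fin.sum_univ_three]
    linear_combination (φi * algebraMap ℝ R (u 1) * (algebraMap ℝ R (u 0) * S.x 2 - algebraMap ℝ R (u 2) * S.x 0)) * r2
  L12 := by
    obtain ⟨r1, r2⟩ := rels (R := R) h1 h2
    have hs := S.sq
    rw [bL_bx (h3 := h3), L1_phi, Lu_def, S.L02, S.L12, S.L22, map_mul, phi_def, bx]
    simp only [ux, Fin.sum_univ_three]
    linear_combination - φi * algebraMap ℝ R (u 0) * hs + φi * ((algebraMap ℝ R (u 0) * S.x 2 - algebraMap ℝ R (u 2) * S.x 0) * algebraMap ℝ R (u 2) + S.x 0 * (algebraMap ℝ R γ - 1)) * r2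
      - φi * algebraMap ℝ R q * S.x 0 * r1
  L20 := by
    obtain ⟨r1, r2⟩ := rels (R := R) h1 h2
    have hs := S.sq
    rw [bL_bx (h3 := h3), L2_phi, Lu_def, S.L00, S.L10, S.L20, map_mul, phi_def, bx]
    simp only [ux, Fin.sum_univ_three]
    linear_combination - φi * algebraMap ℝ R (u 1) * hs + φi * ((algebraMap ℝ R (u 1) * S.x 0 - algebraMap ℝ R (u 0) * S.x 1) * algebraMap ℝ R (u 0) + S.x 1 * (algebraMap ℝ R γ - 1)) * r2
      - φi * algebraMap ℝ R q * S.x 1 * r1
  L21 := by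
    obtain ⟨r1, r2⟩ := rels (R := R) h1 h2
    have hs := S.sq
    rw [bL_bx (h3 := h3), L2_phi, Lu_def, S.L01, S.L11, S.L21, map_mul, phi_def, bx]
    simp only [ux, Fin.sum_univ_three]
    linear_combination  φi * algebraMap ℝ R (u 0) * hs + φi * ((algebraMap ℝ R (u 1) * S.x 0 - algebraMap ℝ R (u 0) * S.x 1) * algebraMap ℝ R (u 1) - S.x 0 * (algebraMap ℝ R γ - 1)) * r2
      + φi * algebraMap ℝ R q * S.x 0 * r1
  L22 := by
    obtain ⟨r1, r2⟩ := rels (R := R) h1 h2
    have hs := S.sq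
    rw [bL_bx (h3 := h3), L2_phi, Lu_def, S.L02, S.L12, S.L22, map_mul, phi_def]
    simp only [ux, Fin.sum_univ_three]
    linear_combination (φi * algebraMap ℝ R (u 2) * (algebraMap ℝ R (u 1) * S.x 0 - algebraMap ℝ R (u 0) * S.x 1)) * r2
  rad F := by
    obtain ⟨r1, r2⟩ := rels (R := R) h1 h2
    have hs := S.sq
    have hr := S.rad F
    simp only [bL_apply, bx, map_mul, Lu_def, phi_def, ux, Fin.sum_univ_three]
    generalize algebraMap ℝ R (u 0) = a0 at *
    generalize algebraMap ℝ R (u 1) = a1 at *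
    generalize algebraMap ℝ R (u 2) = a2 at *
    generalize algebraMap ℝ R γ = g at *
    generalize algebraMap ℝ R q = p at *
    generalize S.x 0 = x0 at *
    generalize S.x 1 = x1 at *
    generalize S.x 2 = x2 at *
    generalize S.L 0 F = F0 at *
    generalize S.L 1 F = F1 at *
    generalize S.L 2 F = F2 at *
    linear_combination φi * (g + (a0 * x0 + a1 * x1 + a2 * x2)) * hr
      - φi * (a0 * F0 + a1 * F1 + a2 * F2) * hs
      + φi * (a0 * F0 + a1 * F1 + a2 * F2) * (1 + p * (a0 * x0 + a1 * x1 + a2 * x2)) * (p * r1 - (g - 1) * r2)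
  c01 F := by
    obtain ⟨r1, r2⟩ := rels (R := R) h1 h2
    have hs := S.sq
    have hij := S.c01 F
    have hjk := S.c12 F
    have hki := S.c20 F
    simp only [bL_apply, Lu_def, map_sub, map_add, Derivation.leibniz, Derivation.map_algebraMap, smul_eq_mul,
      map_mul, mul_zero, zero_add, add_zero, L0_phi, L1_phi, L2_phi, S.L00, S.L01, S.L02, S.L10, S.L11, S.L12, S.L20, S.L21, S.L22]
    simp only [phi_def]
    generalize algebraMap ℝ R (u 0) = a0 at *
    generalize algebraMap ℝ R (u 1) = a1 at *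
    generalize algebraMap ℝ R (u 2) = a2 at *
    generalize algebraMap ℝ R γ = g at *
    generalize algebraMap ℝ R q = p at *
    generalize S.x 0 = x0 at *
    generalize S.x 1 = x1 at *
    generalize S.x 2 = x2 at *
    generalize S.L 0 (S.L 0 F) = F00 at *
    generalize S.L 0 (S.L 1 F) = F01 at *
    generalize S.L 0 (S.L 2 F) = F02 at *
    generalize S.L 1 (S.L 0 F) = F10 at *
    generalize S.L 1 (S.L 1 F) = F11 at *
    generalize S.L 1 (S.L 2 F) = F12 at *
    generalize S.L 2 (S.L 0 F) = F20 at *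
    generalize S.L 2 (S.L 1 F) = F21 at *
    generalize S.L 2 (S.L 2 F) = F22 at *
    generalize S.L 0 F = F0 at *
    generalize S.L 1 F = F1 at *
    generalize S.L 2 F = F2 at *
    linear_combination ((g + (a0 * x0 + a1 * x1 + a2 * x2)) ^ 2 - (g + (a0 * x0 + a1 * x1 + a2 * x2)) * ((p * a1 + x1) * a1 + (p * a0 + x0) * a0)) * hij
      + (g + (a0 * x0 + a1 * x1 + a2 * x2)) * (p * a0 + x0) * a2 * hjk
      + (g + (a0 * x0 + a1 * x1 + a2 * x2)) * (p * a1 + x1) * a2 * hki
      + ((g + (a0 * x0 + a1 * x1 + a2 * x2)) * F2 - x2 * (a0 * F0 + a1 * F1 + a2 * F2)) * ((g - 1) * r2 - p * r1)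
      + a2 * (a0 * F0 + a1 * F1 + a2 * F2) * (hs - r2)
  c12 F := by
    obtain ⟨r1, r2⟩ := rels (R := R) h1 h2
    have hs := S.sq
    have hij := S.c12 F
    have hjk := S.c20 F
    have hki := S.c01 F
    simp only [bL_apply, Lu_def, map_sub, map_add, Derivation.leibniz, Derivation.map_algebraMap, smul_eq_mul,
      map_mul, mul_zero, zero_add, add_zero, L0_phi, L1_phi, L2_phi, S.L00, S.L01, S.L02, S.L10, S.L11, S.L12, S.L20, S.L21, S.L22]
    simp only [phi_def]
    generalize algebraMap ℝ R (u 0) = a0 at *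
    generalize algebraMap ℝ R (u 1) = a1 at *
    generalize algebraMap ℝ R (u 2) = a2 at *
    generalize algebraMap ℝ R γ = g at *
    generalize algebraMap ℝ R q = p at *
    generalize S.x 0 = x0 at *
    generalize S.x 1 = x1 at *
    generalize S.x 2 = x2 at *
    generalize S.L 0 (S.L 0 F) = F00 at *
    generalize S.L 0 (S.L 1 F) = F01 at *
    generalize S.L 0 (S.L 2 F) = F02 at *
    generalize S.L 1 (S.L 0 F) = F10 at *
    generalize S.L 1 (S.L 1 F) = F11 at *
    generalize S.L 1 (S.L 2 F) = F12 at *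
    generalize S.L 2 (S.L 0 F) = F20 at *
    generalize S.L 2 (S.L 1 F) = F21 at *
    generalize S.L 2 (S.L 2 F) = F22 at *
    generalize S.L 0 F = F0 at *
    generalize S.L 1 F = F1 at *
    generalize S.L 2 F = F2 at *
    linear_combination ((g + (a0 * x0 + a1 * x1 + a2 * x2)) ^ 2 - (g + (a0 * x0 + a1 * x1 + a2 * x2)) * ((p * a2 + x2) * a2 + (p * a1 + x1) * a1)) * hij
      + (g + (a0 * x0 + a1 * x1 + a2 * x2)) * (p * a1 + x1) * a0 * hjk
      + (g + (a0 * x0 + a1 * x1 + a2 * x2)) * (p * a2 + x2) * a0 * hki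
      + ((g + (a0 * x0 + a1 * x1 + a2 * x2)) * F0 - x0 * (a0 * F0 + a1 * F1 + a2 * F2)) * ((g - 1) * r2 - p * r1)
      + a0 * (a0 * F0 + a1 * F1 + a2 * F2) * (hs - r2)
  c20 F := by
    obtain ⟨r1, r2⟩ := rels (R := R) h1 h2
    have hs := S.sq
    have hij := S.c20 F
    have hjk := S.c01 F
    have hki := S.c12 F
    simp only [bL_apply, Lu_def, map_sub, map_add, Derivation.leibniz, Derivation.map_algebraMap, smul_eq_mul,
      map_mul, mul_zero, zero_add, add_zero, L0_phi, L1_phi, L2_phi, S.L00, S.L01, S.L02, S.L10, S.L11, S.L12, S.L20, S.L21, S.L22]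
    simp only [phi_def]
    generalize algebraMap ℝ R (u 0) = a0 at *
    generalize algebraMap ℝ R (u 1) = a1 at *
    generalize algebraMap ℝ R (u 2) = a2 at *
    generalize algebraMap ℝ R γ = g at *
    generalize algebraMap ℝ R q = p at *
    generalize S.x 0 = x0 at *
    generalize S.x 1 = x1 at *
    generalize S.x 2 = x2 at *
    generalize S.L 0 (S.L 0 F) = F00 at *
    generalize S.L 0 (S.L 1 F) = F01 at *
    generalize S.L 0 (S.L 2 F) = F02 at *
    generalize S.L 1 (S.L 0 F) = F10 at *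
    generalize S.L 1 (S.L 1 F) = F11 at *
    generalize S.L 1 (S.L 2 F) = F12 at *
    generalize S.L 2 (S.L 0 F) = F20 at *
    generalize S.L 2 (S.L 1 F) = F21 at *
    generalize S.L 2 (S.L 2 F) = F22 at *
    generalize S.L 0 F = F0 at *
    generalize S.L 1 F = F1 at *
    generalize S.L 2 F = F2 at *
    linear_combination ((g + (a0 * x0 + a1 * x1 + a2 * x2)) ^ 2 - (g + (a0 * x0 + a1 * x1 + a2 * x2)) * ((p * a0 + x0) * a0 + (p * a2 + x2) * a2)) * hij
      + (g + (a0 * x0 + a1 * x1 + a2 * x2)) * (p * a2 + x2) * a1 * hjk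
      + (g + (a0 * x0 + a1 * x1 + a2 * x2)) * (p * a0 + x0) * a1 * hki
      + ((g + (a0 * x0 + a1 * x1 + a2 * x2)) * F1 - x1 * (a0 * F0 + a1 * F1 + a2 * F2)) * ((g - 1) * r2 - p * r1)
      + a1 * (a0 * F0 + a1 * F1 + a2 * F2) * (hs - r2)

theorem boost_gam (φi : R) (h1 : γ ^ 2 = 1 + ∑ i, u i ^ 2) (h2 : q * (γ + 1) = 1) (h3 : S.phi u γ * φi = 1)
    (F G : R) : (S.boost u γ q φi h1 h2 h3).gam F G = S.phi u γ ^ 2 * S.gam F G := by
  obtain ⟨r1, r2⟩ := rels (R := R) h1 h2
  have hs := S.sq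
  have hF := S.rad F
  have hG := S.rad G
  have e : ∀ (i : Fin 3) (H : R), (S.boost u γ q φi h1 h2 h3).L i H = S.bL u γ q i H := fun _ _ => rfl
  simp only [gam, e, bL_apply, map_mul, Lu_def, phi_def, Fin.sum_univ_three]
  generalize algebraMap ℝ R (u 0) = a0 at *
  generalize algebraMap ℝ R (u 1) = a1 at *
  generalize algebraMap ℝ R (u 2) = a2 at *
  generalize algebraMap ℝ R γ = g at *
  generalize algebraMap ℝ R q = p at *
  generalize S.x 0 = x0 at *
  generalize S.x 1 = x1 at *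
  generalize S.x 2 = x2 at *
  generalize S.L 0 F = F0 at *
  generalize S.L 1 F = F1 at *
  generalize S.L 2 F = F2 at *
  generalize S.L 0 G = G0 at *
  generalize S.L 1 G = G1 at *
  generalize S.L 2 G = G2 at *
  linear_combination
    - (g + (a0 * x0 + a1 * x1 + a2 * x2)) * (a0 * G0 + a1 * G1 + a2 * G2) * hF
    - (g + (a0 * x0 + a1 * x1 + a2 * x2)) * (a0 * F0 + a1 * F1 + a2 * F2) * hG
    + (a0 * F0 + a1 * F1 + a2 * F2) * (a0 * G0 + a1 * G1 + a2 * G2) *
      (hs - p ^ 2 * r1 + (p * (g - 1) - 1) * r2)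

/-- Divergence identity: `phi^(-2) L'_i F` is a divergence. -/
theorem boost_div (φi : R) (h1 : γ ^ 2 = 1 + ∑ i, u i ^ 2) (h2 : q * (γ + 1) = 1) (h3 : S.phi u γ * φi = 1)
    (i : Fin 3) (F : R) : φi ^ 2 * S.bL u γ q i F =
      ∑ j, S.L j (φi ^ 2 * ((if i = j then S.phi u γ else 0)
        - (algebraMap ℝ R (q * u i) + S.x i) * algebraMap ℝ R (u j)) * F) := by
  have e0 := S.L_phii u γ φi h3 0
  have e1 := S.L_phii u γ φi h3 1
  have e2 := S.L_phii u γ φi h3 2
  rw [L0_phi] at e0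
  rw [L1_phi] at e1
  rw [L2_phi] at e2
  rw [phi_def] at h3
  simp only [bL_apply, Lu_def, Fin.sum_univ_three, pow_two, map_mul]
  fin_cases i
  · simp only [Fin.isValue, Fin.zero_eta, if_true, Fin.reduceEq, if_false, zero_sub, map_sub, map_add,
      map_neg, Derivation.leibniz, Derivation.map_algebraMap, smul_eq_mul, mul_zero, zero_add, add_zero,
      L0_phi, L1_phi, L2_phi, S.L00, S.L01, S.L02, S.L10, S.L11, S.L12, S.L20, S.L21, S.L22, e0, e1, e2]
    simp only [phi_def]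
    linear_combination (2 * φi ^ 2 * (algebraMap ℝ R (u 2) * S.x 1 - algebraMap ℝ R (u 1) * S.x 2) * F) * h3
  · simp only [Fin.isValue, Fin.mk_one, if_true, Fin.reduceEq, if_false, zero_sub, map_sub, map_add,
      map_neg, Derivation.leibniz, Derivation.map_algebraMap, smul_eq_mul, mul_zero, zero_add, add_zero,
      L0_phi, L1_phi, L2_phi, S.L00, S.L01, S.L02, S.L10, S.L11, S.L12, S.L20, S.L21, S.L22, e0, e1, e2]
    simp only [phi_def]
    linear_combination (2 * φi ^ 2 * (algebraMap ℝ R (u 0) * S.x 2 - algebraMap ℝ R (u 2) * S.x 0) * F) * h3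
  · simp only [Fin.isValue, Fin.reduceFinMk, if_true, Fin.reduceEq, if_false, zero_sub, map_sub, map_add,
      map_neg, Derivation.leibniz, Derivation.map_algebraMap, smul_eq_mul, mul_zero, zero_add, add_zero,
      L0_phi, L1_phi, L2_phi, S.L00, S.L01, S.L02, S.L10, S.L11, S.L12, S.L20, S.L21, S.L22, e0, e1, e2]
    simp only [phi_def]
    linear_combination (2 * φi ^ 2 * (algebraMap ℝ R (u 1) * S.x 0 - algebraMap ℝ R (u 0) * S.x 1) * F) * h3

end SA
end NShell
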