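import Pool.Agent.Lib.NullShell.SkBO1
import Pool.Agent.Lib.NullShell.SkSTD

set_option autoImplicit false

/-!
Chunk BO2. The frame of a boosted observer: `boost` of `stdSA`, measure `phi^(-2) dσ`.
`phi_pos`: `γ + u.x > 0` on the sphere (Cauchy-Schwarz, `γ > |u|`, `γ > 0`).
`bo_fin`: bounded density. `bo_izero`: `boost_div` and `std_izero`.
`bo_ione`: `∫ (γ + u.x)^(-2) = 4π`. Along `u(t) = t u`, `γ(t) = sqrt(1 + t^2 |u|^2)`, `φ = γ(t) + t w`, `w = u.x`: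
`γ d/dt φ^(-2) = -2 φ^(-3) (t |u|^2 + γ w) = sum_i L_i (φ^(-2) L_i w)` (`gam w w = |u|^2 - w^2`, `lap w = - 2 w`), so the integral does
not depend on `t` (`hasDerivAt_int` of `PenroseSph.SphAvg`), value at `t = 0` is `4π`.
`bo_inj`: `x'_i(n) = x'_i(n')` for all `i` implies `n = n'`: `1 - x'(n).x'(n') = (1 - n.n')/(φ(n) φ(n'))`.
`bo_logd`: linear combination of `std_logd`.
-/

open Filter Topology Set MeasureTheory
open scoped ContDiff

namespace NShell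

open Pool.Agent.Lib.PenroseSph (E3 S2 sm)

private lemma sq_at (n : S2) : (n : E3) 0 ^ 2 + (n : E3) 1 ^ 2 + (n : E3) 2 ^ 2 = 1 := by
  have h := congrArg (fun f : SFun => f.1 n) stdSA.sq
  have h2 : (n : E3) 0 * (n : E3) 0 + (n : E3) 1 * (n : E3) 1 + (n : E3) 2 * (n : E3) 2 = 1 := h
  linarith

private lemma phi_at (u : Fin 3 → ℝ) (γ : ℝ) (n : S2) : (stdSA.phi u γ).1 n =
    γ + (u 0 * (n : E3) 0 + u 1 * (n : E3) 1 + u 2 * (n : E3) 2) := by
  unfold SA.phi SA.ux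
  rw [Fin.sum_univ_three]
  rfl

private lemma cs3 (u : Fin 3 → ℝ) (n : S2) :
    (u 0 * (n : E3) 0 + u 1 * (n : E3) 1 + u 2 * (n : E3) 2) ^ 2 ≤ u 0 ^ 2 + u 1 ^ 2 + u 2 ^ 2 := by
  have h := sq_at n
  have e : u 0 ^ 2 + u 1 ^ 2 + u 2 ^ 2 =
      (u 0 ^ 2 + u 1 ^ 2 + u 2 ^ 2) * ((n : E3) 0 ^ 2 + (n : E3) 1 ^ 2 + (n : E3) 2 ^ 2) := by
    rw [h, mul_one]
  rw [e]
  nlinarith [sq_nonneg (u 0 * (n : E3) 1 - u 1 * (n : E3) 0), sq_nonneg (u 0 * (n : E3) 2 - u 2 * (n : E3) 0),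
    sq_nonneg (u 1 * (n : E3) 2 - u 2 * (n : E3) 1)]

theorem phi_pos (u : Fin 3 → ℝ) (γ : ℝ) (h1 : γ ^ 2 = 1 + ∑ i, u i ^ 2) (hγ : 0 < γ) (n : S2) :
    0 < (stdSA.phi u γ).1 n := by
  rw [phi_at]
  rw [Fin.sum_univ_three] at h1
  have h := cs3 u n
  have h2 : |u 0 * (n : E3) 0 + u 1 * (n : E3) 1 + u 2 * (n : E3) 2| < |γ| := sq_lt_sq.1 (by linarith)
  rw [abs_of_pos hγ] at h2
  linarith [(abs_lt.1 h2).1]

section
variable (u : Fin 3 → ℝ) (γ q : ℝ) (φi : SFun) (h1 : γ ^ 2 = 1 + ∑ i, u i ^ 2) (h2 : q * (γ + 1) = 1)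
  (h3 : stdSA.phi u γ * φi = 1)

/-- The measure of the boosted frame. -/
noncomputable def bm : Measure S2 := sm.withDensity (fun n => ENNReal.ofReal (φi.1 n ^ 2))

theorem bo_fin : IsFiniteMeasure (bm φi) := by
  unfold bm
  apply isFiniteMeasure_withDensity_ofReal
  exact (stdFr.integrable _ ((SFun_cont φi).pow 2)).2

theorem bo_int (f : S2 → ℝ) : ∫ n, f n ∂(bm φi) = ∫ n, φi.1 n ^ 2 * f n ∂sm := by
  unfold bm
  have hm : Measurable fun n => ENNReal.ofReal (φi.1 n ^ 2) :=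
    ENNReal.measurable_ofReal.comp ((SFun_cont φi).pow 2).measurable
  rw [integral_withDensity_eq_integral_toReal_smul hm (Eventually.of_forall fun n => ENNReal.ofReal_lt_top)]
  refine integral_congr_ae (Eventually.of_forall fun n => ?_)
  simp only [smul_eq_mul]
  rw [ENNReal.toReal_ofReal (sq_nonneg _)]

include h1 h2 h3 in
theorem bo_izero (i : Fin 3) (F : SFun) : ∫ n, (stdSA.bL u γ q i F).1 n ∂(bm φi) = 0 := by
  rw [bo_int]
  have e : (fun n => φi.1 n ^ 2 * (stdSA.bL u γ q i F).1 n) =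
      fun n => (∑ j, stdSA.L j (φi ^ 2 * ((if i = j then stdSA.phi u γ else 0)
        - (algebraMap ℝ SFun (q * u i) + stdSA.x i) * algebraMap ℝ SFun (u j)) * F)).1 n := by
    rw [← stdSA.boost_div u γ q φi h1 h2 h3 i F]
    rfl
  rw [e, Fin.sum_univ_three]
  change ∫ n, ((stdL 0 _).1 n + (stdL 1 _).1 n + (stdL 2 _).1 n) ∂sm = 0
  rw [integral_add, integral_add, std_izero, std_izero, std_izero]
  · norm_num
  · exact stdFr.integrable _ (SFun_cont _)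
  · exact stdFr.integrable _ (SFun_cont _)
  · exact (stdFr.integrable _ (SFun_cont _)).add (stdFr.integrable _ (SFun_cont _))
  · exact stdFr.integrable _ (SFun_cont _)

end

/-! ### the total mass -/

private lemma Lw (u : Fin 3 → ℝ) : stdSA.L 0 (stdSA.ux u) =
      algebraMap ℝ SFun (u 2) * stdSA.x 1 - algebraMap ℝ SFun (u 1) * stdSA.x 2 ∧
    stdSA.L 1 (stdSA.ux u) = algebraMap ℝ SFun (u 0) * stdSA.x 2 - algebraMap ℝ SFun (u 2) * stdSA.x 0 ∧
    stdSA.L 2 (stdSA.ux u) = algebraMap ℝ SFun (u 1) * stdSA.x 0 - algebraMap ℝ SFun (u 0) * stdSA.x 1 := by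
  unfold SA.ux
  simp only [Fin.sum_univ_three, map_add, Derivation.leibniz, Derivation.map_algebraMap, smul_eq_mul,
    mul_zero, add_zero, stdSA.L00, stdSA.L01, stdSA.L02, stdSA.L10, stdSA.L11, stdSA.L12, stdSA.L20,
    stdSA.L21, stdSA.L22]
  refine ⟨?_, ?_, ?_⟩ <;> ring

private lemma LLw (u : Fin 3 → ℝ) : stdSA.L 0 (stdSA.L 0 (stdSA.ux u)) + stdSA.L 1 (stdSA.L 1 (stdSA.ux u)) +
    stdSA.L 2 (stdSA.L 2 (stdSA.ux u)) = - 2 * stdSA.ux u := by
  obtain ⟨e0, e1, e2⟩ := Lw u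
  rw [e0, e1, e2]
  unfold SA.ux
  simp only [Fin.sum_univ_three, map_sub, Derivation.leibniz, Derivation.map_algebraMap, smul_eq_mul,
    mul_zero, add_zero, stdSA.L00, stdSA.L01, stdSA.L02, stdSA.L10, stdSA.L11, stdSA.L12, stdSA.L20,
    stdSA.L21, stdSA.L22]
  ring

private lemma gamw (u : Fin 3 → ℝ) : stdSA.L 0 (stdSA.ux u) ^ 2 + stdSA.L 1 (stdSA.ux u) ^ 2 +
    stdSA.L 2 (stdSA.ux u) ^ 2 =
      algebraMap ℝ SFun (u 0 ^ 2 + u 1 ^ 2 + u 2 ^ 2) - stdSA.ux u ^ 2 := by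
  obtain ⟨e0, e1, e2⟩ := Lw u
  rw [e0, e1, e2]
  unfold SA.ux
  simp only [Fin.sum_univ_three, map_add, map_pow]
  linear_combination (algebraMap ℝ SFun (u 0) ^ 2 + algebraMap ℝ SFun (u 1) ^ 2 +
    algebraMap ℝ SFun (u 2) ^ 2) * stdSA.sq

/-- the divergence identity along the path -/
private lemma div_path (u : Fin 3 → ℝ) (t g : ℝ) (ψ : SFun)
    (h : (algebraMap ℝ SFun g + algebraMap ℝ SFun t * stdSA.ux u) * ψ = 1) :
    ∑ i, stdSA.L i (ψ ^ 2 * stdSA.L i (stdSA.ux u)) =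
      - 2 * ψ ^ 3 * (algebraMap ℝ SFun (t * (u 0 ^ 2 + u 1 ^ 2 + u 2 ^ 2)) +
        algebraMap ℝ SFun g * stdSA.ux u) := by
  have hL : ∀ i, stdSA.L i ψ = - ψ ^ 2 * (algebraMap ℝ SFun t * stdSA.L i (stdSA.ux u)) := by
    intro i
    have e1 := congrArg (stdSA.L i) h
    simp only [Derivation.leibniz, map_add, Derivation.map_algebraMap, smul_eq_mul, mul_zero, add_zero,
      zero_add, Derivation.map_one_eq_zero] at e1
    linear_combination ψ * e1 - stdSA.L i ψ * h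
  rw [Fin.sum_univ_three]
  simp only [Derivation.leibniz, Derivation.leibniz_pow, smul_eq_mul, hL]
  have e1 := LLw u
  have e2 := gamw u
  simp only [map_mul]
  have e3 : (algebraMap ℝ SFun g + algebraMap ℝ SFun t * stdSA.ux u) * ψ = 1 := h
  simp only [nsmul_eq_mul, Nat.cast_ofNat, Nat.add_one_sub_one, pow_one]
  linear_combination ψ ^ 2 * e1 - 2 * ψ ^ 3 * algebraMap ℝ SFun t * e2 -
    2 * ψ ^ 2 * stdSA.ux u * (- h)

section
variable (u : Fin 3 → ℝ)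

private noncomputable def gm (t : ℝ) : ℝ := Real.sqrt (1 + t ^ 2 * (u 0 ^ 2 + u 1 ^ 2 + u 2 ^ 2))

private noncomputable def wn (n : S2) : ℝ := u 0 * (n : E3) 0 + u 1 * (n : E3) 1 + u 2 * (n : E3) 2

private lemma gm_sq (t : ℝ) : gm u t ^ 2 = 1 + t ^ 2 * (u 0 ^ 2 + u 1 ^ 2 + u 2 ^ 2) :=
  Real.sq_sqrt (by positivity)

private lemma gm_pos (t : ℝ) : 0 < gm u t := Real.sqrt_pos.2 (by positivity)

private lemma path_pos (t : ℝ) (n : S2) : 0 < gm u t + t * wn u n := by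
  have h := cs3 u n
  have h2 : |t * wn u n| < |gm u t| := by
    apply sq_lt_sq.1
    rw [gm_sq, mul_pow]
    have h3 : t ^ 2 * wn u n ^ 2 ≤ t ^ 2 * (u 0 ^ 2 + u 1 ^ 2 + u 2 ^ 2) :=
      mul_le_mul_of_nonneg_left h (sq_nonneg t)
    linarith
  rw [abs_of_pos (gm_pos u t)] at h2
  linarith [(abs_lt.1 h2).1]

private lemma wn_cont : Continuous (wn u) := by
  have h : ∀ j : Fin 3, Continuous fun n : S2 => (n : E3) j := fun j =>
    (EuclideanSpace.proj j : E3 →L[ℝ] ℝ).continuous.comp continuous_subtype_val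
  exact ((continuous_const.mul (h 0)).add (continuous_const.mul (h 1))).add (continuous_const.mul (h 2))

private lemma gm_cont : Continuous (gm u) := by
  unfold gm
  fun_prop

private lemma gm_deriv (t : ℝ) : HasDerivAt (gm u) (t * (u 0 ^ 2 + u 1 ^ 2 + u 2 ^ 2) / gm u t) t := by
  unfold gm
  have h1 : HasDerivAt (fun t : ℝ => 1 + t ^ 2 * (u 0 ^ 2 + u 1 ^ 2 + u 2 ^ 2))
      (2 * t * (u 0 ^ 2 + u 1 ^ 2 + u 2 ^ 2)) t := by
    have h2 := ((hasDerivAt_pow 2 t).mul_const (u 0 ^ 2 + u 1 ^ 2 + u 2 ^ 2)).const_add 1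
    refine h2.congr_deriv ?_
    norm_num
  have h3 := h1.sqrt (by positivity)
  refine h3.congr_deriv ?_
  ring

private noncomputable def F0 (t : ℝ) (n : S2) : ℝ := ((gm u t + t * wn u n) ^ 2)⁻¹

private noncomputable def F1 (t : ℝ) (n : S2) : ℝ :=
  -(2 * (gm u t + t * wn u n) * (t * (u 0 ^ 2 + u 1 ^ 2 + u 2 ^ 2) / gm u t + wn u n)) /
    ((gm u t + t * wn u n) ^ 2) ^ 2

private lemma F_deriv (t : ℝ) (n : S2) : HasDerivAt (fun s => F0 u s n) (F1 u t n) t := by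
  unfold F0 F1
  have h1 := (gm_deriv u t).add ((hasDerivAt_id t).mul_const (wn u n))
  have h2 := h1.pow 2
  have hp := path_pos u t n
  have h3 := h2.inv (by simp only [Pi.pow_apply, Pi.add_apply, id]; positivity)
  refine h3.congr_deriv ?_
  simp only [Pi.pow_apply, Pi.add_apply, id, one_mul]
  norm_num

private lemma F1_cont : Continuous (Function.uncurry (F1 u)) := by
  have h1 : Continuous fun z : ℝ × S2 => gm u z.1 := (gm_cont u).comp continuous_fst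
  have h2 : Continuous fun z : ℝ × S2 => wn u z.2 := (wn_cont u).comp continuous_snd
  have h3 : Continuous fun z : ℝ × S2 => gm u z.1 + z.1 * wn u z.2 := h1.add (continuous_fst.mul h2)
  have h4 : Continuous fun z : ℝ × S2 => z.1 * (u 0 ^ 2 + u 1 ^ 2 + u 2 ^ 2) / gm u z.1 + wn u z.2 :=
    ((continuous_fst.mul continuous_const).div h1 fun z => (gm_pos u z.1).ne').add h2
  exact ((((continuous_const.mul h3).mul h4)).neg).div ((h3.pow 2).pow 2) fun z =>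
    (pow_pos (pow_pos (path_pos u z.1 z.2) 2) 2).ne'

private lemma F0_cont (t : ℝ) : Continuous (F0 u t) :=
  ((continuous_const.add (continuous_const.mul (wn_cont u))).pow 2).inv₀ fun n =>
    (pow_pos (path_pos u t n) 2).ne'

private lemma F1_int (t : ℝ) : ∫ n, F1 u t n ∂sm = 0 := by
  have hev : ∀ n, (algebraMap ℝ SFun (gm u t) + algebraMap ℝ SFun t * stdSA.ux u).1 n =
      gm u t + t * wn u n := by
    intro n
    unfold SA.ux wn
    rw [Fin.sum_univ_three]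
    rfl
  obtain ⟨ψ, hψ⟩ := SFun_inv (algebraMap ℝ SFun (gm u t) + algebraMap ℝ SFun t * stdSA.ux u)
    (fun n => by rw [hev]; exact (path_pos u t n).ne')
  have hψn : ∀ n, (gm u t + t * wn u n) * ψ.1 n = 1 := by
    intro n
    rw [← hev]
    exact congrArg (fun f : SFun => f.1 n) hψ
  have hw : ∀ n, (stdSA.ux u).1 n = wn u n := by
    intro n
    unfold SA.ux wn
    rw [Fin.sum_univ_three]
    rfl
  have h1 := div_path u t (gm u t) ψ hψ
  have hg := gm_pos u t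
  have h2 : ∀ n, F1 u t n = (gm u t)⁻¹ *
      (∑ i, stdSA.L i (ψ ^ 2 * stdSA.L i (stdSA.ux u))).1 n := by
    intro n
    rw [h1]
    have e1 : (- 2 * ψ ^ 3 * (algebraMap ℝ SFun (t * (u 0 ^ 2 + u 1 ^ 2 + u 2 ^ 2)) +
        algebraMap ℝ SFun (gm u t) * stdSA.ux u)).1 n =
        -2 * ψ.1 n ^ 3 * (t * (u 0 ^ 2 + u 1 ^ 2 + u 2 ^ 2) + gm u t * wn u n) := by
      rw [← hw]
      have e2 : (- 2 : SFun) = algebraMap ℝ SFun (-2) := by
        rw [map_neg, map_ofNat]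
      rw [e2]
      rfl
    rw [e1]
    unfold F1
    have hp := path_pos u t n
    have e3 : ψ.1 n = (gm u t + t * wn u n)⁻¹ := eq_inv_of_mul_eq_one_right (hψn n)
    rw [e3]
    field_simp
  simp only [h2]
  rw [integral_const_mul, Fin.sum_univ_three]
  change (gm u t)⁻¹ * ∫ n, ((stdL 0 _).1 n + (stdL 1 _).1 n + (stdL 2 _).1 n) ∂sm = 0
  rw [integral_add, integral_add, std_izero, std_izero, std_izero]
  · norm_num
  · exact stdFr.integrable _ (SFun_cont _)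
  · exact stdFr.integrable _ (SFun_cont _)
  · exact (stdFr.integrable _ (SFun_cont _)).add (stdFr.integrable _ (SFun_cont _))
  · exact stdFr.integrable _ (SFun_cont _)

private lemma I_const (t : ℝ) : ∫ n, F0 u t n ∂sm = 4 * Real.pi := by
  have hd : ∀ t, HasDerivAt (fun t => ∫ n, F0 u t n ∂sm) (∫ n, F1 u t n ∂sm) t := fun t =>
    Pool.Agent.Lib.PenroseSph.hasDerivAt_int one_pos (fun s _ n => F_deriv u s n)
      (fun s _ => F0_cont u s) (F1_cont u).continuousOn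
  have h1 := is_const_of_deriv_eq_zero (f := fun t => ∫ n, F0 u t n ∂sm)
    (fun t => (hd t).differentiableAt) (fun t => by rw [(hd t).deriv, F1_int]) t 0
  refine h1.trans ?_
  have h2 : ∀ n, F0 u 0 n = 1 := by
    intro n
    unfold F0 gm
    simp
  simp only [h2]
  have h3 := Pool.Agent.Lib.PenroseSph.sm_univ
  rw [integral_const, h3]
  simp

end

section
variable (u : Fin 3 → ℝ) (γ q : ℝ) (φi : SFun) (h1 : γ ^ 2 = 1 + ∑ i, u i ^ 2) (h2 : q * (γ + 1) = 1)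
  (h3 : stdSA.phi u γ * φi = 1)

include h1 h3 in
theorem bo_ione (hγ : 0 < γ) : (bm φi).real Set.univ = 4 * Real.pi := by
  have hf := bo_fin φi
  have e1 : (bm φi).real Set.univ = ∫ _n, (1 : ℝ) ∂(bm φi) := by
    rw [integral_const]
    simp
  rw [e1, bo_int, ← I_const u 1]
  refine integral_congr_ae (Eventually.of_forall fun n => ?_)
  have h4 : gm u 1 = γ := by
    unfold gm
    rw [Fin.sum_univ_three] at h1
    rw [one_pow, one_mul, ← add_assoc, ← add_assoc, ← Real.sqrt_sq hγ.le, h1]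
    congr 1
    ring
  have h5 : (stdSA.phi u γ).1 n * φi.1 n = 1 := congrArg (fun f : SFun => f.1 n) h3
  have h6 : φi.1 n = ((stdSA.phi u γ).1 n)⁻¹ := eq_inv_of_mul_eq_one_right h5
  simp only [mul_one]
  rw [h6, phi_at]
  unfold F0 wn
  rw [h4, one_mul, inv_pow]

include h1 h2 h3 in
theorem bo_inj (hγ : 0 < γ) (n n' : S2) (h : ∀ i, (stdSA.bx u q φi i).1 n = (stdSA.bx u q φi i).1 n') : n = n' := by
  have hp : ∀ m : S2, (stdSA.phi u γ).1 m * φi.1 m = 1 := fun m => congrArg (fun f : SFun => f.1 m) h3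
  have hx : ∀ (m : S2) (i : Fin 3), (stdSA.bx u q φi i).1 m =
      φi.1 m * ((m : E3) i + (1 + q * (u 0 * (m : E3) 0 + u 1 * (m : E3) 1 + u 2 * (m : E3) 2)) * u i) := by
    intro m i
    unfold SA.bx SA.ux
    rw [Fin.sum_univ_three]
    rfl
  have hpn := hp n
  have hpn' := hp n'
  rw [phi_at] at hpn hpn'
  have e0 := h 0
  have e1 := h 1
  have e2 := h 2
  rw [hx, hx] at e0 e1 e2
  have s1 := sq_at n
  have s2 := sq_at n'
  rw [Fin.sum_univ_three] at h1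
  set a := φi.1 n with ha
  set a' := φi.1 n' with ha'
  set t := u 0 * (n : E3) 0 + u 1 * (n : E3) 1 + u 2 * (n : E3) 2 with ht
  set t' := u 0 * (n' : E3) 0 + u 1 * (n' : E3) 1 + u 2 * (n' : E3) 2 with ht'
  have hφ : γ + t ≠ 0 := fun h0 => by rw [h0, zero_mul] at hpn; exact zero_ne_one hpn
  have hφ' : γ + t' ≠ 0 := fun h0 => by rw [h0, zero_mul] at hpn'; exact zero_ne_one hpn'
  have ha1 : a = (γ + t)⁻¹ := eq_inv_of_mul_eq_one_right hpn
  have ha2 : a' = (γ + t')⁻¹ := eq_inv_of_mul_eq_one_right hpn'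
  -- products
  have hγ1 : γ + 1 ≠ 0 := by linarith
  have hq : q = (γ + 1)⁻¹ := eq_inv_of_mul_eq_one_left h2
  have hU : u 0 ^ 2 + u 1 ^ 2 + u 2 ^ 2 = γ ^ 2 - 1 := by linarith
  have hqU : q * (u 0 ^ 2 + u 1 ^ 2 + u 2 ^ 2) = γ - 1 := by
    rw [hU, hq]
    field_simp
    ring
  have key : ((n : E3) 0 + (1 + q * t) * u 0) * ((n' : E3) 0 + (1 + q * t') * u 0) +
      ((n : E3) 1 + (1 + q * t) * u 1) * ((n' : E3) 1 + (1 + q * t') * u 1) +
      ((n : E3) 2 + (1 + q * t) * u 2) * ((n' : E3) 2 + (1 + q * t') * u 2) =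
      ((n : E3) 0 * (n' : E3) 0 + (n : E3) 1 * (n' : E3) 1 + (n : E3) 2 * (n' : E3) 2) - 1 +
        (γ + t) * (γ + t') := by
    have e3 : ((n : E3) 0 + (1 + q * t) * u 0) * ((n' : E3) 0 + (1 + q * t') * u 0) +
      ((n : E3) 1 + (1 + q * t) * u 1) * ((n' : E3) 1 + (1 + q * t') * u 1) +
      ((n : E3) 2 + (1 + q * t) * u 2) * ((n' : E3) 2 + (1 + q * t') * u 2) =
      ((n : E3) 0 * (n' : E3) 0 + (n : E3) 1 * (n' : E3) 1 + (n : E3) 2 * (n' : E3) 2) +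
        (1 + q * t') * t + (1 + q * t) * t' + (u 0 ^ 2 + u 1 ^ 2 + u 2 ^ 2) +
        (q * (u 0 ^ 2 + u 1 ^ 2 + u 2 ^ 2)) * (t + t' + q * t * t') := by
      rw [ht, ht']
      ring
    rw [e3, hqU, hU]
    linear_combination (t * t') * h2
  -- the self products are one
  have self : a ^ 2 * (((n : E3) 0 + (1 + q * t) * u 0) ^ 2 + ((n : E3) 1 + (1 + q * t) * u 1) ^ 2 +
      ((n : E3) 2 + (1 + q * t) * u 2) ^ 2) = 1 := by
    have e3 : ((n : E3) 0 + (1 + q * t) * u 0) ^ 2 + ((n : E3) 1 + (1 + q * t) * u 1) ^ 2 +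
      ((n : E3) 2 + (1 + q * t) * u 2) ^ 2 = (γ + t) ^ 2 := by
      have e4 : ((n : E3) 0 + (1 + q * t) * u 0) ^ 2 + ((n : E3) 1 + (1 + q * t) * u 1) ^ 2 +
        ((n : E3) 2 + (1 + q * t) * u 2) ^ 2 = ((n : E3) 0 ^ 2 + (n : E3) 1 ^ 2 + (n : E3) 2 ^ 2) +
          2 * (1 + q * t) * t + (u 0 ^ 2 + u 1 ^ 2 + u 2 ^ 2) +
          (q * (u 0 ^ 2 + u 1 ^ 2 + u 2 ^ 2)) * (2 * t + q * t ^ 2) := by
        rw [ht]
        ring
      rw [e4, s1, hqU, hU]
      linear_combination (t ^ 2) * h2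
    rw [e3, ← mul_pow, mul_comm a, hpn, one_pow]
  have prod : a * a' * (((n : E3) 0 * (n' : E3) 0 + (n : E3) 1 * (n' : E3) 1 + (n : E3) 2 * (n' : E3) 2) - 1 +
        (γ + t) * (γ + t')) = 1 := by
    rw [← key]
    refine Eq.trans ?_ self
    linear_combination (-(a * ((n : E3) 0 + (1 + q * t) * u 0))) * e0 -
      (a * ((n : E3) 1 + (1 + q * t) * u 1)) * e1 - (a * ((n : E3) 2 + (1 + q * t) * u 2)) * e2
  have dot : (n : E3) 0 * (n' : E3) 0 + (n : E3) 1 * (n' : E3) 1 + (n : E3) 2 * (n' : E3) 2 = 1 := by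
    have haa : a * a' ≠ 0 := by
      rw [ha1, ha2]
      exact mul_ne_zero (inv_ne_zero hφ) (inv_ne_zero hφ')
    have e3 : a * a' * (((n : E3) 0 * (n' : E3) 0 + (n : E3) 1 * (n' : E3) 1 + (n : E3) 2 * (n' : E3) 2) - 1) = 0 := by
      linear_combination prod - ((γ + t') * a') * hpn - hpn'
    have e4 := (mul_eq_zero.1 e3).resolve_left haa
    linarith
  have hz : ((n : E3) 0 - (n' : E3) 0) ^ 2 + ((n : E3) 1 - (n' : E3) 1) ^ 2 + ((n : E3) 2 - (n' : E3) 2) ^ 2 = 0 := by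
    linear_combination s1 + s2 - 2 * dot
  have q0 := sq_nonneg ((n : E3) 0 - (n' : E3) 0)
  have q1 := sq_nonneg ((n : E3) 1 - (n' : E3) 1)
  have q2 := sq_nonneg ((n : E3) 2 - (n' : E3) 2)
  have z0 : (n : E3) 0 = (n' : E3) 0 := by
    have : ((n : E3) 0 - (n' : E3) 0) ^ 2 = 0 := le_antisymm (by linarith) q0
    exact sub_eq_zero.1 (pow_eq_zero_iff two_ne_zero |>.1 this)
  have z1 : (n : E3) 1 = (n' : E3) 1 := by
    have : ((n : E3) 1 - (n' : E3) 1) ^ 2 = 0 := le_antisymm (by linarith) q1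
    exact sub_eq_zero.1 (pow_eq_zero_iff two_ne_zero |>.1 this)
  have z2 : (n : E3) 2 = (n' : E3) 2 := by
    have : ((n : E3) 2 - (n' : E3) 2) ^ 2 = 0 := le_antisymm (by linarith) q2
    exact sub_eq_zero.1 (pow_eq_zero_iff two_ne_zero |>.1 this)
  apply Subtype.ext
  ext i
  fin_cases i
  · exact z0
  · exact z1
  · exact z2

theorem bo_logd (ψ g : SFun) (hψ : ∀ n, 0 < ψ.1 n) (hg : ∀ n, g.1 n = 2 * Real.log (ψ.1 n)) (i : Fin 3) :
    ψ * stdSA.bL u γ q i g = 2 * stdSA.bL u γ q i ψ := by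
  have h : ∀ j, ψ * stdSA.L j g = 2 * stdSA.L j ψ := fun j => std_logd ψ g hψ hg j
  rw [stdSA.bL_apply, stdSA.bL_apply]
  unfold SA.Lu
  rw [Fin.sum_univ_three, Fin.sum_univ_three]
  linear_combination stdSA.phi u γ * h i - (algebraMap ℝ SFun (q * u i) + stdSA.x i) *
    (algebraMap ℝ SFun (u 0) * h 0 + algebraMap ℝ SFun (u 1) * h 1 + algebraMap ℝ SFun (u 2) * h 2)

/-- The frame of the boosted observer. -/
noncomputable def boFr (hγ : 0 < γ) : Fr where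
  sa := stdSA.boost u γ q φi h1 h2 h3
  m := bm φi
  fin := bo_fin φi
  izero := bo_izero u γ q φi h1 h2 h3
  ione := bo_ione u γ φi h1 h3 hγ
  inj := bo_inj u γ q φi h1 h2 h3 hγ
  logd := bo_logd u γ q

end

end NShell
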