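import Pool.Agent.Lib.NullShell.Stmt
import Pool.Agent.Lib.NullShell.Fin

set_option autoImplicit false

/-!
From the definitions of `Stmt.lean` to those of `Defs.lean`.
-/

open MeasureTheory
open scoped ContDiff

namespace Shell

theorem dot_self (n : E3) : dot n n = ‖n‖ ^ 2 := by
  rw [EuclideanSpace.norm_sq_eq]
  unfold dot
  exact Finset.sum_congr rfl fun i _ => by rw [Real.norm_eq_abs, sq_abs]; ring

theorem norm_one {n : E3} (h : ‖n‖ = 1) : dot n n = 1 := by rw [dot_self, h]; norm_num

theorem one_norm {n : E3} (h : dot n n = 1) : ‖n‖ = 1 := by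
  rw [dot_self] at h
  have h0 := norm_nonneg n
  nlinarith [sq_nonneg (‖n‖ - 1)]

theorem dot_inner (a b : E3) : dot a b = inner ℝ a b := by
  unfold dot
  rw [PiLp.inner_apply]
  exact Finset.sum_congr rfl fun i _ => by simp [mul_comm]

theorem dir_eq {F : E3 → M4} (h : Smooth F) (n e : E3) : dir F n e = fderiv ℝ F n e := by
  have hd : DifferentiableAt ℝ F (n + (0 : ℝ) • e) := by
    have h' : ContDiff ℝ ∞ F := h
    exact (h'.differentiable (by simp)) _
  have h1 : HasDerivAt (fun t : ℝ => n + t • e) e 0 := by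
    have := ((hasDerivAt_id (0 : ℝ)).smul_const e).const_add n
    simpa using this
  have h2 := hd.hasFDerivAt.comp_hasDerivAt (0 : ℝ) h1
  have h3 : n + (0 : ℝ) • e = n := by simp
  rw [h3] at h2
  exact h2.deriv

theorem to_nc {F : E3 → M4} (h : NullConvex F) : NullShell.NullConvex F where
  smooth := h.smooth
  normal n hn e he := by
    have := h.normal n (norm_one hn) e (by rw [dot_inner]; exact he)
    rw [dir_eq h.smooth] at this
    exact this
  convex n hn e he h0 := by
    have := h.convex n (norm_one hn) e (by rw [dot_inner]; exact he) h0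
    rw [dir_eq h.smooth, dot_inner] at this
    exact this

theorem to_on {F l : E3 → M4} (hF : Smooth F) (h : OutNormal F l) : NullShell.OutNormal F l where
  smooth := h.smooth
  null n hn := h.null n (norm_one hn)
  norm n hn := h.norm n (norm_one hn)
  normal n hn e he := by
    have := h.normal n (norm_one hn) e (by rw [dot_inner]; exact he)
    rw [dir_eq hF] at this
    exact this

theorem of_on {F l : E3 → M4} (hF : Smooth F) (h : NullShell.OutNormal F l) : OutNormal F l where
  smooth := h.smooth
  null n hn := h.null n (one_norm hn)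
  norm n hn := h.norm n (one_norm hn)
  normal n hn e he := by
    rw [dir_eq hF]
    exact h.normal n (one_norm hn) e (by rw [← dot_inner]; exact he)

theorem areaDens_eq {F : E3 → M4} (h : Smooth F) (n : E3) : areaDens F n = NullShell.areaDens F n := by
  unfold areaDens
  simp only [dir_eq h]
  rfl

theorem area_eq {F : E3 → M4} (h : Smooth F) : area F = NullShell.area F := by
  unfold area
  simp only [areaDens_eq h]
  rfl

theorem theta_eq {F l : E3 → M4} (hF : Smooth F) (hl : Smooth l) (n : E3) :
    thetaDens F l n = NullShell.thetaDens F l n := by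
  unfold thetaDens NullShell.thetaDens
  congr 1
  funext r
  have h1 : ContDiff ℝ ∞ F := hF
  have h2 : ContDiff ℝ ∞ l := hl
  have h : Smooth (fun y => F y + r • l y) := h1.add (h2.const_smul r)
  exact areaDens_eq h n

theorem main (F : E3 → M4) (hF : NullConvex F) :
    (∃ l : E3 → M4, OutNormal F l) ∧
    ∀ l : E3 → M4, OutNormal F l → ∀ ρ : S2 → ℝ, Continuous ρ →
      (∀ n : S2, thetaDens F l n ≤ 16 * Real.pi * ρ n) →
      Real.sqrt (∑ i, shellMomentum ρ i ^ 2) < shellEnergy ρ ∧
      Real.sqrt (area F / (16 * Real.pi)) ≤ Real.sqrt (shellEnergy ρ ^ 2 - ∑ i, shellMomentum ρ i ^ 2) := by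
  obtain ⟨h1, h2⟩ := NShell.main' (to_nc hF)
  refine ⟨?_, fun l hl ρ hρ hθ => ?_⟩
  · obtain ⟨l, hl⟩ := h1
    exact ⟨l, of_on hF.smooth hl⟩
  · rw [area_eq hF.smooth]
    exact h2 l (to_on hF.smooth hl) ρ hρ (fun n => by rw [← theta_eq hF.smooth hl.smooth]; exact hθ n)

end Shell
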