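import Pool.Agent.Lib.NullShell.SkGAM
import Pool.Agent.Lib.NullShell.SkBO1
import Pool.Agent.Lib.NullShell.SkGE1

set_option autoImplicit false
set_option linter.unusedSimpArgs false

/-!
Covariance under a boost. `lor` is the Lorentz transformation, `S' = boost`, `F' = lor F`, `l' = phi lor l`, `kv' = φi lor kv`.
-/

namespace NShell

/-- Boost with four-velocity `(γ, u)`. -/
def lor {R : Type*} [CommRing R] [Algebra ℝ R] (u : Fin 3 → ℝ) (γ q : ℝ) (V : Fin 4 → R) : Fin 4 → R :=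
  ![algebraMap ℝ R γ * V 0 - ∑ j, algebraMap ℝ R (u j) * V j.succ,
    V 1 + algebraMap ℝ R (q * u 0) * (∑ j, algebraMap ℝ R (u j) * V j.succ) - algebraMap ℝ R (u 0) * V 0,
    V 2 + algebraMap ℝ R (q * u 1) * (∑ j, algebraMap ℝ R (u j) * V j.succ) - algebraMap ℝ R (u 1) * V 0,
    V 3 + algebraMap ℝ R (q * u 2) * (∑ j, algebraMap ℝ R (u j) * V j.succ) - algebraMap ℝ R (u 2) * V 0]

theorem two_cancel {R : Type*} [CommRing R] [Algebra ℝ R] {a b : R} (h : 2 * a = 2 * b) : a = b := by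
  have e : algebraMap ℝ R (1 / 2) * 2 = 1 := by
    rw [← map_ofNat (algebraMap ℝ R) 2, ← map_mul]; norm_num
  linear_combination algebraMap ℝ R (1 / 2) * h - (a - b) * e

section lin
variable {R : Type*} [CommRing R] [Algebra ℝ R] (u : Fin 3 → ℝ) (γ q : ℝ)

theorem lor_smul (c : R) (V : Fin 4 → R) (a : Fin 4) :
    lor u γ q (fun b => c * V b) a = c * lor u γ q V a := by
  simp only [lor, Fin.sum_univ_three]
  fin_cases a <;> simp <;> ring

theorem der_lor (D : Derivation ℝ R R) (V : Fin 4 → R) (a : Fin 4) :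
    D (lor u γ q V a) = lor u γ q (fun b => D (V b)) a := by
  simp only [lor, Fin.sum_univ_three]
  fin_cases a <;> simp [Derivation.leibniz]

end lin

theorem mnk_smul_left {R : Type*} [CommRing R] (c : R) (V W : Fin 4 → R) :
    mnk (fun a => c * V a) W = c * mnk V W := by
  simp only [mnk]; ring

theorem mnk_smul_right {R : Type*} [CommRing R] (c : R) (V W : Fin 4 → R) :
    mnk V (fun a => c * W a) = c * mnk V W := by
  simp only [mnk]; ring

theorem mnk_add_right {R : Type*} [CommRing R] (V W W' : Fin 4 → R) :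
    mnk V (fun a => W a + W' a) = mnk V W + mnk V W' := by
  simp only [mnk]; ring

namespace SA

variable {R : Type*} [CommRing R] [Algebra ℝ R] (S : SA R) (u : Fin 3 → ℝ) (γ q : ℝ) (φi : R)
  (h1 : γ ^ 2 = 1 + ∑ i, u i ^ 2) (h2 : q * (γ + 1) = 1) (h3 : S.phi u γ * φi = 1)

include h1 h2 in
theorem mnk_lor (V W : Fin 4 → R) : mnk (lor u γ q V) (lor u γ q W) = mnk V W := by
  obtain ⟨r1, r2⟩ := rels (R := R) h1 h2
  have e : ∀ V : Fin 4 → R, ∑ j : Fin 3, algebraMap ℝ R (u j) * V j.succ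
      = algebraMap ℝ R (u 0) * V 1 + algebraMap ℝ R (u 1) * V 2 + algebraMap ℝ R (u 2) * V 3 := by
    intro V; rw [Fin.sum_univ_three]; rfl
  have c0 : ∀ V : Fin 4 → R, lor u γ q V 0 = algebraMap ℝ R γ * V 0
      - (algebraMap ℝ R (u 0) * V 1 + algebraMap ℝ R (u 1) * V 2 + algebraMap ℝ R (u 2) * V 3) := by
    intro V; rw [← e V]; rfl
  have c1 : ∀ V : Fin 4 → R, lor u γ q V 1 = V 1 + algebraMap ℝ R q * algebraMap ℝ R (u 0)
      * (algebraMap ℝ R (u 0) * V 1 + algebraMap ℝ R (u 1) * V 2 + algebraMap ℝ R (u 2) * V 3)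
      - algebraMap ℝ R (u 0) * V 0 := by
    intro V; rw [← e V, ← map_mul]; rfl
  have c2 : ∀ V : Fin 4 → R, lor u γ q V 2 = V 2 + algebraMap ℝ R q * algebraMap ℝ R (u 1)
      * (algebraMap ℝ R (u 0) * V 1 + algebraMap ℝ R (u 1) * V 2 + algebraMap ℝ R (u 2) * V 3)
      - algebraMap ℝ R (u 1) * V 0 := by
    intro V; rw [← e V, ← map_mul]; rfl
  have c3 : ∀ V : Fin 4 → R, lor u γ q V 3 = V 3 + algebraMap ℝ R q * algebraMap ℝ R (u 2)
      * (algebraMap ℝ R (u 0) * V 1 + algebraMap ℝ R (u 1) * V 2 + algebraMap ℝ R (u 2) * V 3)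
      - algebraMap ℝ R (u 2) * V 0 := by
    intro V; rw [← e V, ← map_mul]; rfl
  simp only [mnk, c0, c1, c2, c3]
  generalize algebraMap ℝ R (u 0) = a0 at *
  generalize algebraMap ℝ R (u 1) = a1 at *
  generalize algebraMap ℝ R (u 2) = a2 at *
  generalize algebraMap ℝ R γ = g at *
  generalize algebraMap ℝ R q = p at *
  generalize V 0 = V0
  generalize V 1 = V1
  generalize V 2 = V2
  generalize V 3 = V3
  generalize W 0 = W0
  generalize W 1 = W1
  generalize W 2 = W2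
  generalize W 3 = W3
  linear_combination (- V0 * W0) * r1
    + (V0 * (a0 * W1 + a1 * W2 + a2 * W3) + W0 * (a0 * V1 + a1 * V2 + a2 * V3)) * (p * r1 - (g - 1) * r2)
    + (a0 * W1 + a1 * W2 + a2 * W3) * (a0 * V1 + a1 * V2 + a2 * V3) * ((1 + p * (g - 1)) * r2 - p ^ 2 * r1)

theorem kv_lor (a : Fin 4) : lor u γ q S.kv a = S.phi u γ * (S.boost u γ q φi h1 h2 h3).kv a := by
  have hx : ∀ i, (S.boost u γ q φi h1 h2 h3).x i = S.bx u q φi i := fun _ => rfl
  have e : ∀ i, S.phi u γ * S.bx u q φi i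
      = S.x i + (1 + algebraMap ℝ R q * S.ux u) * algebraMap ℝ R (u i) := by
    intro i
    rw [bx]
    linear_combination (S.x i + (1 + algebraMap ℝ R q * S.ux u) * algebraMap ℝ R (u i)) * h3
  have e0 := e 0
  have e1 := e 1
  have e2 := e 2
  have es : ∑ j : Fin 3, algebraMap ℝ R (u j) * S.kv j.succ = - S.ux u := by
    rw [ux, Fin.sum_univ_three, Fin.sum_univ_three]
    simp [kv]; ring
  fin_cases a
  · change algebraMap ℝ R γ * S.kv 0 - ∑ j : Fin 3, algebraMap ℝ R (u j) * S.kv j.succ = S.phi u γ * 1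
    rw [es]
    have : S.kv 0 = 1 := rfl
    rw [this, phi]; ring
  · change S.kv 1 + algebraMap ℝ R (q * u 0) * (∑ j : Fin 3, algebraMap ℝ R (u j) * S.kv j.succ)
      - algebraMap ℝ R (u 0) * S.kv 0 = S.phi u γ * (- S.bx u q φi 0)
    rw [es]
    have k0 : S.kv 0 = 1 := rfl
    have k1 : S.kv 1 = - S.x 0 := rfl
    rw [k0, k1, map_mul]
    linear_combination e0
  · change S.kv 2 + algebraMap ℝ R (q * u 1) * (∑ j : Fin 3, algebraMap ℝ R (u j) * S.kv j.succ)
      - algebraMap ℝ R (u 1) * S.kv 0 = S.phi u γ * (- S.bx u q φi 1)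
    rw [es]
    have k0 : S.kv 0 = 1 := rfl
    have k1 : S.kv 2 = - S.x 1 := rfl
    rw [k0, k1, map_mul]
    linear_combination e1
  · change S.kv 3 + algebraMap ℝ R (q * u 2) * (∑ j : Fin 3, algebraMap ℝ R (u j) * S.kv j.succ)
      - algebraMap ℝ R (u 2) * S.kv 0 = S.phi u γ * (- S.bx u q φi 2)
    rw [es]
    have k0 : S.kv 0 = 1 := rfl
    have k1 : S.kv 3 = - S.x 2 := rfl
    rw [k0, k1, map_mul]
    linear_combination e2

/-- `kv' = φi lor kv`. -/
theorem kv_eq : (S.boost u γ q φi h1 h2 h3).kv = fun a => φi * lor u γ q S.kv a := by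
  funext a
  rw [S.kv_lor u γ q φi h1 h2 h3 a]
  linear_combination (- (S.boost u γ q φi h1 h2 h3).kv a) * h3

/-- The boosted derivative of a product with the Lorentz transform. -/
theorem L4_lor (i : Fin 3) (V : Fin 4 → R) :
    (S.boost u γ q φi h1 h2 h3).L4 i (lor u γ q V) = lor u γ q ((S.boost u γ q φi h1 h2 h3).L4 i V) := by
  funext a
  exact der_lor u γ q _ V a

theorem L4_mul_lor (i : Fin 3) (c : R) (V : Fin 4 → R) :
    (S.boost u γ q φi h1 h2 h3).L4 i (fun a => c * lor u γ q V a)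
      = fun a => c * lor u γ q ((S.boost u γ q φi h1 h2 h3).L4 i V) a
        + (S.boost u γ q φi h1 h2 h3).L i c * lor u γ q V a := by
  funext a
  have h := congrFun (S.L4_lor u γ q φi h1 h2 h3 i V) a
  simp only [L4] at h ⊢
  rw [← h, Derivation.leibniz]
  simp only [smul_eq_mul]; ring

/-- The boosted derivatives are combinations of the derivatives. -/
theorem mnk_L4 (i : Fin 3) (V W : Fin 4 → R) (hV : ∀ i, mnk (S.L4 i V) W = 0) :
    mnk ((S.boost u γ q φi h1 h2 h3).L4 i V) W = 0 := by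
  have e : mnk ((S.boost u γ q φi h1 h2 h3).L4 i V) W = S.phi u γ * mnk (S.L4 i V) W
      - (algebraMap ℝ R (q * u i) + S.x i) * (algebraMap ℝ R (u 0) * mnk (S.L4 0 V) W
        + algebraMap ℝ R (u 1) * mnk (S.L4 1 V) W + algebraMap ℝ R (u 2) * mnk (S.L4 2 V) W) := by
    have e : ∀ H : R, (S.boost u γ q φi h1 h2 h3).L i H = S.bL u γ q i H := fun _ => rfl
    simp only [mnk, L4, e, bL_apply, Lu_def]
    ring
  rw [e, hV, hV, hV, hV]; ring

variable {F l : Fin 4 → R} (h : S.Sh F l)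

include h in
theorem cov_sh : (S.boost u γ q φi h1 h2 h3).Sh (lor u γ q F) (fun a => S.phi u γ * lor u γ q l a) where
  nk i := by
    rw [kv_eq, L4_lor, mnk_smul_right, mnk_lor (h1 := h1) (h2 := h2), S.mnk_L4 u γ q φi h1 h2 h3 i F S.kv h.nk]
    ring
  ll := by
    rw [mnk_smul_left, mnk_smul_right, mnk_lor (h1 := h1) (h2 := h2), h.ll]
    ring
  lk := by
    rw [kv_eq, mnk_smul_left, mnk_smul_right, mnk_lor (h1 := h1) (h2 := h2), h.lk]
    linear_combination (-2) * h3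
  lF i := by
    rw [L4_lor, mnk_smul_right, mnk_lor (h1 := h1) (h2 := h2), S.mnk_L4 u γ q φi h1 h2 h3 i F l h.lF]
    ring

theorem gr_lor (i j : Fin 3) : (S.boost u γ q φi h1 h2 h3).gr (lor u γ q F) (lor u γ q F) i j
    = (S.boost u γ q φi h1 h2 h3).gr F F i j := by
  rw [gr, L4_lor, L4_lor, mnk_lor (h1 := h1) (h2 := h2), gr]

theorem D2_boost : (S.boost u γ q φi h1 h2 h3).D2 F = S.phi u γ ^ 4 * S.D2 F := by
  apply two_cancel
  have e : (2 : R) * (S.phi u γ ^ 4 * S.D2 F) = S.phi u γ ^ 4 * (2 * S.D2 F) := by ring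
  rw [e, D2_gam, D2_gam]
  simp only [boost_gam, Fin.sum_univ_four]
  ring

theorem dD2_boost : (S.boost u γ q φi h1 h2 h3).dD2 F l = S.phi u γ ^ 4 * S.dD2 F l := by
  rw [dD2_gam, dD2_gam]
  simp only [boost_gam, Fin.sum_univ_four]
  ring

include h in
theorem cov_D2 : (S.boost u γ q φi h1 h2 h3).D2 (lor u γ q F) = S.phi u γ ^ 4 * S.D2 F := by
  rw [← S.D2_boost u γ q φi h1 h2 h3, D2, D2]
  simp only [gr_lor]

include h in
theorem cov_dD2 : (S.boost u γ q φi h1 h2 h3).dD2 (lor u γ q F) (fun a => S.phi u γ * lor u γ q l a)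
    = S.phi u γ ^ 5 * S.dD2 F l := by
  have e : S.phi u γ ^ 5 * S.dD2 F l = S.phi u γ * (S.phi u γ ^ 4 * S.dD2 F l) := by ring
  have g : ∀ i j, (S.boost u γ q φi h1 h2 h3).gr (lor u γ q F) (fun a => S.phi u γ * lor u γ q l a) i j
      = S.phi u γ * (S.boost u γ q φi h1 h2 h3).gr F l i j := by
    intro i j
    rw [gr, L4_lor, L4_mul_lor, mnk_add_right, mnk_smul_right, mnk_smul_right, mnk_lor (h1 := h1) (h2 := h2),
      mnk_lor (h1 := h1) (h2 := h2), S.mnk_L4 u γ q φi h1 h2 h3 i F l h.lF, gr]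
    ring
  rw [e, ← S.dD2_boost u γ q φi h1 h2 h3, dD2, dD2]
  simp only [gr_lor, g, Fin.sum_univ_three]
  ring

include h in
theorem fB_boost (i j : Fin 3) : (S.boost u γ q φi h1 h2 h3).fB (sp (lor u γ q F)) i j
    = - (φi * (S.boost u γ q φi h1 h2 h3).gr F S.kv i j) := by
  rw [fB_gr, kv_eq, gr, L4_lor, L4_mul_lor, mnk_add_right, mnk_smul_right, mnk_smul_right,
    mnk_lor (h1 := h1) (h2 := h2),
    mnk_lor (h1 := h1) (h2 := h2), S.mnk_L4 u γ q φi h1 h2 h3 i F S.kv h.nk, gr]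
  ring

include h in
theorem cov_tB : (S.boost u γ q φi h1 h2 h3).tB (sp (lor u γ q F)) = S.phi u γ * S.tB (sp F) := by
  have e1 : (S.boost u γ q φi h1 h2 h3).tB (sp (lor u γ q F))
      = - φi * ∑ i, (S.boost u γ q φi h1 h2 h3).gr F S.kv i i := by
    rw [tB, Finset.mul_sum]
    exact Finset.sum_congr rfl fun i _ => by rw [S.fB_boost u γ q φi h1 h2 h3 h]; ring
  have e2 : S.tB (sp F) = - ∑ i, S.gr F S.kv i i := by
    rw [tB, ← Finset.sum_neg_distrib]
    exact Finset.sum_congr rfl fun i _ => by rw [fB_gr]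
  rw [e1, e2, gr_tr, gr_tr]
  simp only [boost_gam, Fin.sum_univ_four]
  linear_combination (- S.phi u γ * (eta 0 * S.gam (F 0) (S.kv 0) + eta 1 * S.gam (F 1) (S.kv 1)
    + eta 2 * S.gam (F 2) (S.kv 2) + eta 3 * S.gam (F 3) (S.kv 3))) * h3

include h in
theorem cov_dB : (S.boost u γ q φi h1 h2 h3).dB (sp (lor u γ q F)) = S.phi u γ ^ 2 * S.dB (sp F) := by
  have e1 : ∑ i, ∑ j, (S.boost u γ q φi h1 h2 h3).fB (sp (lor u γ q F)) i j ^ 2
      = φi ^ 2 * ∑ i, ∑ j, (S.boost u γ q φi h1 h2 h3).gr F S.kv i j ^ 2 := by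
    rw [Finset.mul_sum]
    refine Finset.sum_congr rfl fun i _ => ?_
    rw [Finset.mul_sum]
    exact Finset.sum_congr rfl fun j _ => by rw [S.fB_boost u γ q φi h1 h2 h3 h]; ring
  have e2 : ∑ i, ∑ j, S.fB (sp F) i j ^ 2 = ∑ i, ∑ j, S.gr F S.kv i j ^ 2 := by
    refine Finset.sum_congr rfl fun i _ => Finset.sum_congr rfl fun j _ => by rw [fB_gr]; ring
  have e3 : ∑ i, ∑ j, (S.boost u γ q φi h1 h2 h3).fB (sp (lor u γ q F)) i j ^ 2
      = S.phi u γ ^ 2 * ∑ i, ∑ j, S.fB (sp F) i j ^ 2 := by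
    rw [e1, e2, grsq_gam, grsq_gam]
    have e4 : ∑ a, ∑ b, eta a * eta b * (S.boost u γ q φi h1 h2 h3).gam (F a) (F b)
        * (S.boost u γ q φi h1 h2 h3).gam (S.kv a) (S.kv b)
        = S.phi u γ ^ 4 * ∑ a, ∑ b, eta a * eta b * S.gam (F a) (F b) * S.gam (S.kv a) (S.kv b) := by
      rw [Finset.mul_sum]
      refine Finset.sum_congr rfl fun i _ => ?_
      rw [Finset.mul_sum]
      refine Finset.sum_congr rfl fun j _ => ?_
      rw [boost_gam, boost_gam]; ring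
    rw [e4]
    generalize ∑ a, ∑ b, eta a * eta b * S.gam (F a) (F b) * S.gam (S.kv a) (S.kv b) = Z
    linear_combination (S.phi u γ ^ 2 * Z * (S.phi u γ * φi + 1)) * h3
  rw [dB, dB, S.cov_tB u γ q φi h1 h2 h3 h, e3, Algebra.smul_def, Algebra.smul_def]
  ring

end SA
end NShell
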