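import Pool.Agent.Lib.NullShell.Smooth

set_option autoImplicit false

/-!
Frames: a sphere algebra structure on the smooth functions of the unit sphere with a measure.
The standard frame and the frames seen by boosted observers are instances.
-/

open Filter Topology Set MeasureTheory
open scoped ContDiff

namespace NShell

open Pool.Agent.Lib.PenroseSph (E3 S2 sm)

/-- A frame on the smooth functions of the sphere. -/
structure Fr where
  sa : SA SFun
  m : Measure S2
  fin : IsFiniteMeasure m
  izero : ∀ i (F : SFun), ∫ n, (sa.L i F).1 n ∂m = 0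
  ione : m.real Set.univ = 4 * Real.pi
  inj : ∀ n n' : S2, (∀ i, (sa.x i).1 n = (sa.x i).1 n') → n = n'
  logd : ∀ ψ g : SFun, (∀ n, 0 < ψ.1 n) → (∀ n, g.1 n = 2 * Real.log (ψ.1 n)) →
    ∀ i, ψ * sa.L i g = 2 * sa.L i ψ

/-- Evaluation at a point of the sphere. -/
def evS (n : S2) : SFun →ₐ[ℝ] ℝ := (Pi.evalAlgHom ℝ (fun _ : S2 => ℝ) n).comp SFun.val

theorem evS_apply (n : S2) (f : SFun) : evS n f = f.1 n := rfl

namespace Fr
variable (A : Fr)

theorem integrable (f : S2 → ℝ) (hf : Continuous f) : Integrable f A.m := by
  haveI := A.fin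
  exact hf.integrable_of_hasCompactSupport (HasCompactSupport.of_compactSpace f)

/-- The integral of a frame. -/
noncomputable def int : SFun →ₗ[ℝ] ℝ where
  toFun f := ∫ n, f.1 n ∂A.m
  map_add' f g := integral_add (A.integrable _ (SFun_cont f)) (A.integrable _ (SFun_cont g))
  map_smul' c f := integral_const_mul c _

/-- The sphere algebra with points and integral of a frame. -/
noncomputable def toSM : SM SFun S2 where
  toSA := A.sa
  ev := evS
  I := A.int
  Ipos F h := integral_nonneg h
  I0 := A.izero
  I1 := by
    haveI := A.fin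
    change ∫ n, (1 : ℝ) ∂A.m = _
    rw [integral_const, A.ione]
    simp

end Fr

end NShell
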