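import Pool.Agent.Lib.NullShell.Geo
import Pool.Agent.Lib.NullShell.A2

set_option autoImplicit false

/-!
Expressions in terms of the scalar products of gradients only.
-/

namespace NShell
namespace SA

variable {R : Type*} [CommRing R] [Algebra ℝ R] (S : SA R)

theorem mnk_eta {R : Type*} [CommRing R] (V W : Fin 4 → R) : mnk V W = ∑ a, eta a * (V a * W a) := by
  simp [mnk, eta, Fin.sum_univ_four]

theorem eta_sq {R : Type*} [CommRing R] (a : Fin 4) : (eta a : R) * eta a = 1 := by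
  unfold eta
  split_ifs <;> ring

theorem fB_gr (F : Fin 4 → R) (i j : Fin 3) : S.fB (sp F) i j = - S.gr F S.kv i j := by
  have e : (Fin.succ 2 : Fin 4) = 3 := rfl
  simp [fB, gr, mnk, L4, kv, sp, Fin.sum_univ_three, e]
  ring

theorem gr_tr (V W : Fin 4 → R) : ∑ i, S.gr V W i i = ∑ a, eta a * S.gam (V a) (W a) := by
  unfold gr gam L4
  simp only [mnk_eta]
  rw [Finset.sum_comm]
  exact Finset.sum_congr rfl fun a _ => by rw [Finset.mul_sum]

/-- The scalar product of two matrices of the form `gr`. -/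
theorem gr_inner (V W V' W' : Fin 4 → R) : ∑ i, ∑ j, S.gr V W i j * S.gr V' W' i j
    = ∑ a, ∑ b, eta a * eta b * S.gam (V a) (V' b) * S.gam (W a) (W' b) := by
  have e1 : ∀ i j, S.gr V W i j * S.gr V' W' i j =
      ∑ a, ∑ b, eta a * eta b * ((S.L i (V a) * S.L i (V' b)) * (S.L j (W a) * S.L j (W' b))) := by
    intro i j
    unfold gr L4
    rw [mnk_eta, mnk_eta, Finset.sum_mul_sum]
    exact Finset.sum_congr rfl fun a _ => Finset.sum_congr rfl fun b _ => by ring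
  have e2 : ∀ a b, eta a * eta b * S.gam (V a) (V' b) * S.gam (W a) (W' b) =
      ∑ i, ∑ j, eta a * eta b * ((S.L i (V a) * S.L i (V' b)) * (S.L j (W a) * S.L j (W' b))) := by
    intro a b
    unfold gam
    rw [mul_assoc, Finset.sum_mul_sum, Finset.mul_sum]
    exact Finset.sum_congr rfl fun i _ => by rw [Finset.mul_sum]
  simp only [e1, e2]
  -- exchange of sums
  have h1 : ∑ i, ∑ j, ∑ a, ∑ b, (eta a : R) * eta b * ((S.L i (V a) * S.L i (V' b)) * (S.L j (W a) * S.L j (W' b)))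
      = ∑ p : (Fin 3 × Fin 3) × (Fin 4 × Fin 4), (eta p.2.1 : R) * eta p.2.2 * ((S.L p.1.1 (V p.2.1) * S.L p.1.1 (V' p.2.2))
        * (S.L p.1.2 (W p.2.1) * S.L p.1.2 (W' p.2.2))) := by
    simp only [Fintype.sum_prod_type]
  have h2 : ∑ a, ∑ b, ∑ i, ∑ j, (eta a : R) * eta b * ((S.L i (V a) * S.L i (V' b)) * (S.L j (W a) * S.L j (W' b)))
      = ∑ p : (Fin 4 × Fin 4) × (Fin 3 × Fin 3), (eta p.1.1 : R) * eta p.1.2 * ((S.L p.2.1 (V p.1.1) * S.L p.2.1 (V' p.1.2))
        * (S.L p.2.2 (W p.1.1) * S.L p.2.2 (W' p.1.2))) := by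
    simp only [Fintype.sum_prod_type]
  rw [h1, h2]
  exact Fintype.sum_equiv (Equiv.prodComm _ _) _ _ (fun p => rfl)

theorem gam_symm (F G : R) : S.gam F G = S.gam G F := by
  unfold gam
  exact Finset.sum_congr rfl fun i _ => mul_comm _ _

theorem gr_symm (F : Fin 4 → R) (i j : Fin 3) : S.gr F F i j = S.gr F F j i := by
  unfold gr mnk
  ring

theorem grsq_gam (V W : Fin 4 → R) : ∑ i, ∑ j, S.gr V W i j ^ 2
    = ∑ a, ∑ b, eta a * eta b * S.gam (V a) (V b) * S.gam (W a) (W b) := by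
  rw [← S.gr_inner]
  exact Finset.sum_congr rfl fun i _ => Finset.sum_congr rfl fun j _ => by ring

theorem D2_gam (F : Fin 4 → R) : 2 * S.D2 F = (∑ a, eta a * S.gam (F a) (F a)) ^ 2
    - ∑ a, ∑ b, eta a * eta b * S.gam (F a) (F b) ^ 2 := by
  rw [← S.gr_tr]
  have h : ∑ a, ∑ b, (eta a : R) * eta b * S.gam (F a) (F b) ^ 2 = ∑ i, ∑ j, S.gr F F i j ^ 2 := by
    rw [S.grsq_gam]
    exact Finset.sum_congr rfl fun a _ => Finset.sum_congr rfl fun b _ => by ring
  rw [h]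
  have s10 := S.gr_symm F 1 0
  have s20 := S.gr_symm F 2 0
  have s21 := S.gr_symm F 2 1
  unfold D2
  simp only [Fin.sum_univ_three, Fin.isValue, zero_add, f3a, f3c, s10, s20, s21]
  ring

theorem dD2_gam (F l : Fin 4 → R) : S.dD2 F l = 2 * (∑ a, eta a * S.gam (F a) (F a)) * (∑ a, eta a * S.gam (F a) (l a))
    - 2 * ∑ a, ∑ b, eta a * eta b * S.gam (F a) (F b) * S.gam (F a) (l b) := by
  rw [← S.gr_tr, ← S.gr_tr]
  have h : ∑ a, ∑ b, (eta a : R) * eta b * S.gam (F a) (F b) * S.gam (F a) (l b) =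
      ∑ i, ∑ j, S.gr F F i j * S.gr F l i j := by
    rw [S.gr_inner]
  rw [h]
  have s10 := S.gr_symm F 1 0
  have s20 := S.gr_symm F 2 0
  have s21 := S.gr_symm F 2 1
  unfold dD2
  simp only [Fin.sum_univ_three, Fin.isValue, zero_add, f3a, f3c, s10, s20, s21]
  ring

end SA
end NShell
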