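import Pool.Agent.Lib.NullShell.Geo
import Pool.Agent.Lib.NullShell.A2
import Pool.Agent.Lib.NullShell.Adj

set_option autoImplicit false

/-!
The square of the area element and Cayley-Hamilton.
-/

namespace NShell
namespace SA

variable {R : Type*} [CommRing R] [Algebra ℝ R] (S : SA R)

theorem nor_of {F : Fin 4 → R} (h : ∀ i, mnk (S.L4 i F) S.kv = 0) : S.Nor (sp F) (- F 0) := by
  intro i
  have := h i
  simp only [mnk, L4, kv, sp, Fin.sum_univ_three, Matrix.cons_val_zero, Matrix.cons_val_one, Matrix.cons_val,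
    map_neg, Fin.isValue, Fin.succ_zero_eq_one, Fin.succ_one_eq_two] at this ⊢
  have e : (Fin.succ 2 : Fin 4) = 3 := rfl
  rw [e]
  linear_combination this

theorem sh_nor {F l : Fin 4 → R} (h : S.Sh F l) : S.Nor (sp F) (- F 0) := S.nor_of h.nk

theorem tight (k l : Fin 3) : ∑ j, S.L j (S.x k) * S.L j (S.x l) = S.pr k l := by
  have h1 := S.sq
  unfold pr
  fin_cases k <;> fin_cases l <;>
    simp [Fin.sum_univ_three, S.L00, S.L01, S.L02, S.L10, S.L11, S.L12, S.L20, S.L21, S.L22] <;>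
    first
    | ring1
    | linear_combination h1
    | linear_combination - h1

theorem gr_BB {F : Fin 4 → R} (h : ∀ i, mnk (S.L4 i F) S.kv = 0) (i j : Fin 3) :
    S.gr F F i j = ∑ k, S.fB (sp F) i k * S.fB (sp F) j k := by
  have hN := S.nor_of h
  have hi := hN i
  have hj := hN j
  have t := S.tight
  have e1 : ∑ k, S.fB (sp F) i k * S.fB (sp F) j k = ∑ a, ∑ b, S.L i (sp F a) * S.L j (sp F b) * S.pr a b := by
    have : ∀ k, S.fB (sp F) i k * S.fB (sp F) j k =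
        ∑ a, ∑ b, S.L i (sp F a) * S.L j (sp F b) * (S.L k (S.x a) * S.L k (S.x b)) := by
      intro k
      unfold fB
      rw [Finset.sum_mul_sum]
      exact Finset.sum_congr rfl fun a _ => Finset.sum_congr rfl fun b _ => by ring
    rw [Finset.sum_congr rfl fun k _ => this k, Finset.sum_comm]
    refine Finset.sum_congr rfl fun a _ => ?_
    rw [Finset.sum_comm]
    refine Finset.sum_congr rfl fun b _ => ?_
    rw [← Finset.mul_sum, t]
  rw [e1]
  have h1 := S.sq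
  have e : (Fin.succ 2 : Fin 4) = 3 := rfl
  simp only [map_neg, sp, Fin.sum_univ_three, Fin.isValue, Fin.succ_zero_eq_one, Fin.succ_one_eq_two, e] at hi hj
  unfold gr mnk L4 sp pr
  simp [Fin.sum_univ_three, e]
  linear_combination (S.L i (F 0)) * hj - (S.x 0 * S.L j (F 1) + S.x 1 * S.L j (F 2) + S.x 2 * S.L j (F 3)) * hi

theorem dB_minors {X : Fin 3 → R} {tau : R} (hN : S.Nor X tau) : S.dB X =
    (S.fB X 1 1 * S.fB X 2 2 - S.fB X 1 2 * S.fB X 1 2) + (S.fB X 0 0 * S.fB X 2 2 - S.fB X 0 2 * S.fB X 0 2)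
      + (S.fB X 0 0 * S.fB X 1 1 - S.fB X 0 1 * S.fB X 0 1) := by
  have s10 := S.B_symm hN 1 0
  have s20 := S.B_symm hN 2 0
  have s21 := S.B_symm hN 2 1
  unfold dB tB
  simp only [Fin.sum_univ_three, s10, s20, s21]
  have e : ∀ y : R, (1 / 2 : ℝ) • (2 * y) = y := by
    intro y
    rw [show (2 : R) * y = (2 : ℝ) • y by rw [Algebra.smul_def, map_ofNat], smul_smul]
    norm_num
  rw [← e ((S.fB X 1 1 * S.fB X 2 2 - S.fB X 1 2 * S.fB X 1 2) + (S.fB X 0 0 * S.fB X 2 2 - S.fB X 0 2 * S.fB X 0 2)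
      + (S.fB X 0 0 * S.fB X 1 1 - S.fB X 0 1 * S.fB X 0 1))]
  congr 1
  ring

theorem B_adj {X : Fin 3 → R} {tau : R} (hN : S.Nor X tau) :
    S.fB X 1 1 * S.fB X 2 2 - S.fB X 1 2 * S.fB X 1 2 = S.dB X * (S.x 0 * S.x 0) ∧
    S.fB X 0 0 * S.fB X 2 2 - S.fB X 0 2 * S.fB X 0 2 = S.dB X * (S.x 1 * S.x 1) ∧
    S.fB X 0 0 * S.fB X 1 1 - S.fB X 0 1 * S.fB X 0 1 = S.dB X * (S.x 2 * S.x 2) ∧
    S.fB X 0 2 * S.fB X 1 2 - S.fB X 0 1 * S.fB X 2 2 = S.dB X * (S.x 0 * S.x 1) ∧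
    S.fB X 0 1 * S.fB X 1 2 - S.fB X 0 2 * S.fB X 1 1 = S.dB X * (S.x 0 * S.x 2) ∧
    S.fB X 0 1 * S.fB X 0 2 - S.fB X 0 0 * S.fB X 1 2 = S.dB X * (S.x 1 * S.x 2) := by
  have s10 := S.B_symm hN 1 0
  have s20 := S.B_symm hN 2 0
  have s21 := S.B_symm hN 2 1
  have r0 := S.B_x X 0
  have r1 := S.B_x X 1
  have r2 := S.B_x X 2
  simp only [Fin.sum_univ_three, s10, s20, s21] at r0 r1 r2
  have h := adjs _ _ _ _ _ _ _ _ _ r0 r1 r2 S.sq
  rw [S.dB_minors hN]
  exact h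

theorem D2_eq {F : Fin 4 → R} (h : ∀ i, mnk (S.L4 i F) S.kv = 0) : S.D2 F = S.dB (sp F) ^ 2 := by
  have hN := S.nor_of h
  have g := S.gr_BB h
  obtain ⟨h1, h2, h3, h4, h5, h6⟩ := S.B_adj hN
  have s10 := S.B_symm hN 1 0
  have s20 := S.B_symm hN 2 0
  have s21 := S.B_symm hN 2 1
  have hx := S.sq
  set X := sp F
  set D := S.dB X
  unfold D2
  simp only [g, Fin.sum_univ_three, Fin.isValue, zero_add, f3a, f3c, s10, s20, s21]
  -- sum of the squares of the minors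
  have key : D ^ 2 = (D * (S.x 0 * S.x 0)) ^ 2 + (D * (S.x 1 * S.x 1)) ^ 2 + (D * (S.x 2 * S.x 2)) ^ 2
      + 2 * (D * (S.x 0 * S.x 1)) ^ 2 + 2 * (D * (S.x 0 * S.x 2)) ^ 2 + 2 * (D * (S.x 1 * S.x 2)) ^ 2 := by
    linear_combination (-(D ^ 2) * (S.x 0 * S.x 0 + S.x 1 * S.x 1 + S.x 2 * S.x 2 + 1)) * hx
  rw [key, ← h1, ← h2, ← h3, ← h4, ← h5, ← h6]
  ring

/-- Cayley-Hamilton for `B`. -/
theorem B_cayley {X : Fin 3 → R} {tau : R} (hN : S.Nor X tau) (i j : Fin 3) :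
    ∑ k, S.fB X i k * S.fB X k j = S.tB X * S.fB X i j - S.dB X * S.pr i j := by
  obtain ⟨h1, h2, h3, h4, h5, h6⟩ := S.B_adj hN
  have hm := S.dB_minors hN
  have s10 := S.B_symm hN 1 0
  have s20 := S.B_symm hN 2 0
  have s21 := S.B_symm hN 2 1
  have hx := S.sq
  unfold tB pr
  fin_cases i <;> fin_cases j <;> simp [Fin.sum_univ_three, s10, s20, s21]
  · linear_combination h1 + hm
  · linear_combination h4
  · linear_combination h5
  · linear_combination h4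
  · linear_combination h2 + hm
  · linear_combination h6
  · linear_combination h5
  · linear_combination h6
  · linear_combination h3 + hm

end SA
end NShell
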