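import Pool.Agent.Lib.NullShell.Geo
import Pool.Agent.Lib.NullShell.SkGE1

set_option autoImplicit false
set_option linter.unusedSimpArgs false

/-!
The null normal and the first variation of the area element. `tau = - F 0`, `X = sp F`, `b = bv l`.
-/

namespace NShell

/-- Algebraic core of the variation formula. -/
theorem var_core {R : Type*} [CommRing R] (B P N G G' : Fin 3 → Fin 3 → R) (s D : R)
    (hB : ∀ i j, B i j = B j i) (hP : ∀ i j, P i j = P j i)
    (hPB : ∀ k j, ∑ i, P i k * B j i = B j k)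
    (hc : ∀ i j, ∑ k, B i k * B k j = s * B i j - D * P i j)
    (htB : B 0 0 + B 1 1 + B 2 2 = s) (htP : P 0 0 + P 1 1 + P 2 2 = 2)
    (hG : ∀ i j, G i j = s * B i j - D * P i j) (hG' : ∀ i j, G' i j = ∑ k, B i k * N k j) :
    ∑ i, (2 * G' i i * G (i + 1) (i + 1) + 2 * G i i * G' (i + 1) (i + 1)
      - 2 * G i (i + 1) * (G' i (i + 1) + G' (i + 1) i))
      = 2 * D * ∑ j, ∑ k, (s * P j k - B j k) * N k j := by
  have hGs : ∀ i j, G i j = G j i := fun i j => by rw [hG, hG, hB i j, hP i j]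
  have key : ∀ k j, ∑ i, G i j * B i k = s * (s * B j k - D * P j k) - D * B k j := by
    intro k j
    have e : ∑ i, G i j * B i k = s * (∑ i, B j i * B i k) - D * ∑ i, P i j * B k i := by
      rw [Finset.mul_sum, Finset.mul_sum, ← Finset.sum_sub_distrib]
      refine Finset.sum_congr rfl fun i _ => ?_
      rw [hG, hB i j, hB k i]; ring
    rw [e, hc, hPB]
  have htG : G 0 0 + G 1 1 + G 2 2 = s ^ 2 - 2 * D := by
    rw [hG, hG, hG]
    linear_combination s * htB - D * htP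
  have e1 : ∑ i, (2 * G' i i * G (i + 1) (i + 1) + 2 * G i i * G' (i + 1) (i + 1)
      - 2 * G i (i + 1) * (G' i (i + 1) + G' (i + 1) i))
      = 2 * ((G 0 0 + G 1 1 + G 2 2) * (G' 0 0 + G' 1 1 + G' 2 2)
        - ∑ k, ∑ j, (∑ i, G i j * B i k) * N k j) := by
    have e2 : ∑ k, ∑ j, (∑ i, G i j * B i k) * N k j = ∑ i, ∑ j, G i j * G' i j := by
      simp only [hG', Fin.sum_univ_three]
      ring
    rw [e2]
    have f1 : (1 : Fin 3) + 1 = 2 := rfl
    have f2 : (2 : Fin 3) + 1 = 0 := rfl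
    simp only [Fin.sum_univ_three, zero_add, f1, f2]
    rw [hGs 1 0, hGs 2 1, hGs 2 0]
    ring
  rw [e1, htG]
  simp only [key]
  simp only [hG', Fin.sum_univ_three]
  rw [hB 1 0, hB 2 0, hB 2 1]
  ring

namespace SA

variable {R : Type*} [CommRing R] [Algebra ℝ R] (S : SA R)

section
variable {F l : Fin 4 → R} (h : S.Sh F l)

theorem bv_x (l : Fin 4 → R) : ∑ j, S.x j * S.bv l j = 0 := by
  have h0 := S.rad (S.x 0)
  have h1 := S.rad (S.x 1)
  have h2 := S.rad (S.x 2)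
  simp only [bv, Fin.sum_univ_three, Algebra.smul_def]
  linear_combination algebraMap ℝ R (-(1 / 2)) * (sp l 0 * h0 + sp l 1 * h1 + sp l 2 * h2)

theorem half_add : algebraMap ℝ R (1 / 2) + algebraMap ℝ R (1 / 2) = 1 := by
  rw [← map_add]; norm_num

theorem bv_def (l : Fin 4 → R) (i : Fin 3) : S.bv l i = - algebraMap ℝ R (1 / 2) *
    (sp l 0 * S.L i (S.x 0) + sp l 1 * S.L i (S.x 1) + sp l 2 * S.L i (S.x 2)) := by
  simp only [bv, Fin.sum_univ_three, Algebra.smul_def, map_neg]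

theorem tight3 (k l : Fin 3) : S.L 0 (S.x k) * S.L 0 (S.x l) + S.L 1 (S.x k) * S.L 1 (S.x l)
    + S.L 2 (S.x k) * S.L 2 (S.x l) = S.pr k l := by
  have := S.tight k l
  simpa [Fin.sum_univ_three] using this

/-- The vector of `b`. -/
theorem bv_vec (l : Fin 4 → R) (k : Fin 3) : S.bv l 0 * S.L 0 (S.x k) + S.bv l 1 * S.L 1 (S.x k)
    + S.bv l 2 * S.L 2 (S.x k) = - algebraMap ℝ R (1 / 2) *
    (sp l k - (sp l 0 * S.x 0 + sp l 1 * S.x 1 + sp l 2 * S.x 2) * S.x k) := by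
  have e0 := S.tight3 0 k
  have e1 := S.tight3 1 k
  have e2 := S.tight3 2 k
  have e : sp l 0 * S.pr 0 k + sp l 1 * S.pr 1 k + sp l 2 * S.pr 2 k
      = sp l k - (sp l 0 * S.x 0 + sp l 1 * S.x 1 + sp l 2 * S.x 2) * S.x k := by
    fin_cases k
    · simp [pr]; ring
    · simp [pr]; ring
    · simp [pr]; ring
  rw [← e, bv_def, bv_def, bv_def]
  linear_combination - algebraMap ℝ R (1 / 2) * (sp l 0 * e0 + sp l 1 * e1 + sp l 2 * e2)

include h

theorem lk' : l 0 + (sp l 0 * S.x 0 + sp l 1 * S.x 1 + sp l 2 * S.x 2) = 2 := by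
  have := h.lk
  simp only [mnk, kv, sp] at *
  simp at this
  have e : l (Fin.succ 0) = l 1 ∧ l (Fin.succ 1) = l 2 ∧ l (Fin.succ 2) = l 3 := ⟨rfl, rfl, rfl⟩
  rw [e.1, e.2.1, e.2.2]
  linear_combination - this

theorem ll' : sp l 0 ^ 2 + sp l 1 ^ 2 + sp l 2 ^ 2 = l 0 ^ 2 := by
  have := h.ll
  have e : l (Fin.succ 0) = l 1 ∧ l (Fin.succ 1) = l 2 ∧ l (Fin.succ 2) = l 3 := ⟨rfl, rfl, rfl⟩
  simp only [mnk, sp] at *
  rw [e.1, e.2.1, e.2.2]
  linear_combination this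

theorem nk' (i : Fin 3) : S.x 0 * S.L i (sp F 0) + S.x 1 * S.L i (sp F 1) + S.x 2 * S.L i (sp F 2)
    = - S.L i (F 0) := by
  have := h.nk i
  have e : F (Fin.succ 0) = F 1 ∧ F (Fin.succ 1) = F 2 ∧ F (Fin.succ 2) = F 3 := ⟨rfl, rfl, rfl⟩
  simp only [mnk, kv, sp, L4] at *
  simp at this
  rw [e.1, e.2.1, e.2.2]
  linear_combination - this

theorem lF' (i : Fin 3) : S.L i (sp F 0) * sp l 0 + S.L i (sp F 1) * sp l 1 + S.L i (sp F 2) * sp l 2
    = S.L i (F 0) * l 0 := by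
  have := h.lF i
  have e : F (Fin.succ 0) = F 1 ∧ F (Fin.succ 1) = F 2 ∧ F (Fin.succ 2) = F 3 := ⟨rfl, rfl, rfl⟩
  have e' : l (Fin.succ 0) = l 1 ∧ l (Fin.succ 1) = l 2 ∧ l (Fin.succ 2) = l 3 := ⟨rfl, rfl, rfl⟩
  simp only [mnk, sp, L4] at *
  rw [e.1, e.2.1, e.2.2, e'.1, e'.2.1, e'.2.2]
  linear_combination this

theorem l_zero : l 0 = 1 + ∑ i, S.bv l i ^ 2 := by
  have h1 := S.lk' h
  have h2 := S.ll' h
  have hh := half_add (R := R)
  have v0 := S.bv_vec l 0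
  have v1 := S.bv_vec l 1
  have v2 := S.bv_vec l 2
  have b0 := S.bv_def l 0
  have b1 := S.bv_def l 1
  have b2 := S.bv_def l 2
  have key : S.bv l 0 ^ 2 + S.bv l 1 ^ 2 + S.bv l 2 ^ 2 = - algebraMap ℝ R (1 / 2) *
      (sp l 0 * (S.bv l 0 * S.L 0 (S.x 0) + S.bv l 1 * S.L 1 (S.x 0) + S.bv l 2 * S.L 2 (S.x 0))
      + sp l 1 * (S.bv l 0 * S.L 0 (S.x 1) + S.bv l 1 * S.L 1 (S.x 1) + S.bv l 2 * S.L 2 (S.x 1))
      + sp l 2 * (S.bv l 0 * S.L 0 (S.x 2) + S.bv l 1 * S.L 1 (S.x 2) + S.bv l 2 * S.L 2 (S.x 2))) := by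
    linear_combination S.bv l 0 * b0 + S.bv l 1 * b1 + S.bv l 2 * b2
  rw [v0, v1, v2] at key
  rw [Fin.sum_univ_three, key]
  generalize ht : sp l 0 * S.x 0 + sp l 1 * S.x 1 + sp l 2 * S.x 2 = t at *
  generalize algebraMap ℝ R (1 / 2) = c at *
  have h3 : sp l 0 * (sp l 0 - t * S.x 0) + sp l 1 * (sp l 1 - t * S.x 1) + sp l 2 * (sp l 2 - t * S.x 2)
      = l 0 ^ 2 - t ^ 2 := by
    linear_combination h2 - t * ht
  have h4 : (4 : R) * (c * c) = 1 := by linear_combination (2 * c + 1) * hh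
  linear_combination (- c * c) * h3 - c * c * (l 0 - t - 2) * h1 + (1 - l 0) * h4

theorem l_space (k : Fin 3) : sp l k = (1 - ∑ i, S.bv l i ^ 2) * S.x k - 2 * ∑ m, S.bv l m * S.L m (S.x k) := by
  have h0 := S.l_zero h
  have h1 := S.lk' h
  have v := S.bv_vec l k
  have hh := half_add (R := R)
  have e : ∑ m, S.bv l m * S.L m (S.x k) = - algebraMap ℝ R (1 / 2) *
    (sp l k - (sp l 0 * S.x 0 + sp l 1 * S.x 1 + sp l 2 * S.x 2) * S.x k) := by
    rw [Fin.sum_univ_three, v]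
  rw [e]
  linear_combination (- S.x k) * h0 - (sp l k - (sp l 0 * S.x 0 + sp l 1 * S.x 1 + sp l 2 * S.x 2) * S.x k) * hh
    + S.x k * h1

theorem nor' : S.Nor (sp F) (- F 0) := by
  intro i
  have := S.nk' h i
  rw [Fin.sum_univ_three, this, map_neg]

theorem bB (i : Fin 3) : ∑ j, S.fB (sp F) i j * S.bv l j = S.L i (- F 0) := by
  have h1 := S.lk' h
  have hn := S.nk' h i
  have hl := S.lF' h i
  have hh := half_add (R := R)
  have v0 := S.bv_vec l 0
  have v1 := S.bv_vec l 1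
  have v2 := S.bv_vec l 2
  simp only [fB, Fin.sum_univ_three, map_neg]
  generalize ht : sp l 0 * S.x 0 + sp l 1 * S.x 1 + sp l 2 * S.x 2 = t at *
  generalize algebraMap ℝ R (1 / 2) = c at *
  linear_combination S.L i (sp F 0) * v0 + S.L i (sp F 1) * v1 + S.L i (sp F 2) * v2
    - c * hl + c * t * hn - c * S.L i (F 0) * h1 - S.L i (F 0) * hh

theorem gr_l (i j : Fin 3) : S.gr F l i j = (1 - ∑ m, S.bv l m ^ 2) * S.fB (sp F) i j
    - 2 * ∑ k, S.fB (sp F) i k * S.L j (S.bv l k) + 2 * S.L i (- F 0) * S.bv l j := by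
  have hn := S.nk' h i
  have l0 := S.l_zero h
  have s0 := S.l_space h 0
  have s1 := S.l_space h 1
  have s2 := S.l_space h 2
  have hx := S.bv_x l
  have e : S.gr F l i j = - (S.L i (F 0) * S.L j (l 0)) + S.L i (sp F 0) * S.L j (sp l 0)
      + S.L i (sp F 1) * S.L j (sp l 1) + S.L i (sp F 2) * S.L j (sp l 2) := rfl
  rw [e, s0, s1, s2, l0]
  clear e s0 s1 s2 l0
  simp only [Fin.sum_univ_three] at *
  generalize ha : S.bv l 0 ^ 2 + S.bv l 1 ^ 2 + S.bv l 2 ^ 2 = bb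
  simp only [map_neg, map_add, map_sub, Derivation.leibniz, smul_eq_mul, Derivation.map_one_eq_zero,
    fB, Fin.sum_univ_three]
  have h2 : S.L j (2 : R) = 0 := by
    rw [← map_ofNat (algebraMap ℝ R) 2, Derivation.map_algebraMap]
  simp only [h2]
  fin_cases j
  · simp only [Fin.isValue, Fin.zero_eta, map_neg,
      S.L00, S.L01, S.L02, S.L10, S.L11, S.L12, S.L20, S.L21, S.L22, map_zero]
    linear_combination (- S.L 0 bb + 2 * S.bv l 0) * hn - 2 * S.L i (sp F 0) * hx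
  · simp only [Fin.isValue, Fin.mk_one, map_neg,
      S.L00, S.L01, S.L02, S.L10, S.L11, S.L12, S.L20, S.L21, S.L22, map_zero]
    linear_combination (- S.L 1 bb + 2 * S.bv l 1) * hn - 2 * S.L i (sp F 1) * hx
  · simp only [Fin.isValue, Fin.reduceFinMk, map_neg,
      S.L00, S.L01, S.L02, S.L10, S.L11, S.L12, S.L20, S.L21, S.L22, map_zero]
    linear_combination (- S.L 2 bb + 2 * S.bv l 2) * hn - 2 * S.L i (sp F 2) * hx

theorem dD2_eq : S.dD2 F l = 2 * S.dB (sp F) * S.th F l := by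
  have hnor := S.nor' h
  have hnk : ∀ i, mnk (S.L4 i F) S.kv = 0 := h.nk
  have hsy : ∀ i j, S.fB (sp F) i j = S.fB (sp F) j i := S.B_symm hnor
  have hc := S.B_cayley hnor
  have hbb := S.gr_BB hnk
  have hgl := S.gr_l h
  have hbB := S.bB h
  have hBx := S.B_x (sp F)
  have htr : S.tB (sp F) = S.fB (sp F) 0 0 + S.fB (sp F) 1 1 + S.fB (sp F) 2 2 := by
    rw [tB, Fin.sum_univ_three]
  -- the second factor of the derivative
  set N : Fin 3 → Fin 3 → R := fun k j => (1 - ∑ m, S.bv l m ^ 2) * (if k = j then 1 else 0)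
    - 2 * S.L j (S.bv l k) + 2 * (S.bv l k * S.bv l j) with hN
  have hg' : ∀ i j, S.gr F l i j = ∑ k, S.fB (sp F) i k * N k j := by
    intro i j
    rw [hgl, ← hbB, hN]
    fin_cases j <;> simp [Fin.sum_univ_three] <;> ring
  have hG : ∀ i j, S.gr F F i j = S.tB (sp F) * S.fB (sp F) i j - S.dB (sp F) * S.pr i j := by
    intro i j
    rw [hbb, ← hc]
    exact Finset.sum_congr rfl fun k _ => by rw [hsy k j]
  have hPB : ∀ k j, ∑ i, S.pr i k * S.fB (sp F) j i = S.fB (sp F) j k := by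
    intro k j
    have := hBx j
    fin_cases k
    · simp [Fin.sum_univ_three, pr] at this ⊢
      linear_combination (- S.x 0) * this
    · simp [Fin.sum_univ_three, pr] at this ⊢
      linear_combination (- S.x 1) * this
    · simp [Fin.sum_univ_three, pr] at this ⊢
      linear_combination (- S.x 2) * this
  have hPs : ∀ i j, S.pr i j = S.pr j i := by
    intro i j
    simp only [pr, eq_comm (a := i) (b := j), mul_comm (S.x i)]
  have htP : S.pr 0 0 + S.pr 1 1 + S.pr 2 2 = 2 := by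
    have := S.sq
    simp only [pr, if_true]
    linear_combination - this
  have hmain := var_core (S.fB (sp F)) S.pr N (S.gr F F) (S.gr F l) (S.tB (sp F)) (S.dB (sp F))
    hsy hPs hPB hc htr.symm htP hG hg'
  rw [dD2, hmain]
  have b0 := hbB 0
  have b1 := hbB 1
  have b2 := hbB 2
  have hx := S.bv_x l
  have hth : S.th F l = ∑ j, ∑ k, (S.tB (sp F) * S.pr j k - S.fB (sp F) j k) * N k j := by
    have hs := S.sq
    simp only [th, cB, hN]
    simp only [Fin.sum_univ_three, map_neg] at b0 b1 b2 hx ⊢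
    simp only [pr]
    simp only [Fin.isValue, if_true, Fin.reduceEq, if_false]
    linear_combination
      (S.tB (sp F) * (1 - (S.bv l 0 ^ 2 + S.bv l 1 ^ 2 + S.bv l 2 ^ 2))) * hs
      - (1 - (S.bv l 0 ^ 2 + S.bv l 1 ^ 2 + S.bv l 2 ^ 2)) * htr
      + 2 * S.tB (sp F) * (S.x 0 * S.bv l 0 + S.x 1 * S.bv l 1 + S.x 2 * S.bv l 2) * hx
      + 2 * S.bv l 0 * b0 + 2 * S.bv l 1 * b1 + 2 * S.bv l 2 * b2
  rw [hth]

theorem int_th (I : R →ₗ[ℝ] ℝ) (hI : ∀ i F, I (S.L i F) = 0) :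
    I (S.th F l) = I (S.tB (sp F) * (1 + ∑ i, S.bv l i ^ 2)) := by
  have hd := S.div_cof (S.nor' h) I hI (S.bv l) (S.bv_x l)
  have e : S.th F l = S.tB (sp F) * (1 + ∑ i, S.bv l i ^ 2)
      - (2 : ℝ) • ((∑ j, S.L j (- F 0) * S.bv l j)
        + ∑ i, ∑ j, S.cB (sp F) i j * S.L i (S.bv l j)) := by
    have e2 : ∑ j, S.L j (- F 0) * S.bv l j = - ∑ j, S.L j (F 0) * S.bv l j := by
      simp [Fin.sum_univ_three]
    rw [e2, th, Algebra.smul_def]
    rw [map_ofNat]; ring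
  rw [e, map_sub, map_smul, map_add, hd]
  simp

end

end SA
end NShell
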