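import Pool.Agent.Lib.NullShell.Surf

set_option autoImplicit false

/-!
Quadruples (time component first) over a sphere algebra: a surface `F` in Minkowski space, its null normals, area element and
first variation of the area element.
-/

namespace NShell

/-- Minkowski product of quadruples. -/
def mnk {R : Type*} [CommRing R] (V W : Fin 4 → R) : R := - (V 0 * W 0) + V 1 * W 1 + V 2 * W 2 + V 3 * W 3

/-- Signature. -/
def eta {R : Type*} [CommRing R] (a : Fin 4) : R := if a = 0 then -1 else 1

namespace SA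

variable {R : Type*} [CommRing R] [Algebra ℝ R] (S : SA R)

/-- Derivative of a quadruple. -/
def L4 (i : Fin 3) (V : Fin 4 → R) (a : Fin 4) : R := S.L i (V a)

/-- `<L_i V, L_j W>`. -/
def gr (V W : Fin 4 → R) (i j : Fin 3) : R := mnk (S.L4 i V) (S.L4 j W)

/-- The ingoing null vector `(1, -x)`. -/
def kv : Fin 4 → R := ![1, - S.x 0, - S.x 1, - S.x 2]

/-- Square of the area element of `F`. -/
def D2 (F : Fin 4 → R) : R := ∑ i, (S.gr F F i i * S.gr F F (i + 1) (i + 1) - S.gr F F i (i + 1) ^ 2)

/-- Its first variation in the direction `l`. -/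
def dD2 (F l : Fin 4 → R) : R := ∑ i, (2 * S.gr F l i i * S.gr F F (i + 1) (i + 1)
  + 2 * S.gr F F i i * S.gr F l (i + 1) (i + 1)
  - 2 * S.gr F F i (i + 1) * (S.gr F l i (i + 1) + S.gr F l (i + 1) i))

/-- `(1,-x)` and `l` are the null normals of `F`, with product `-2`. -/
structure Sh (F l : Fin 4 → R) : Prop where
  nk : ∀ i, mnk (S.L4 i F) S.kv = 0
  ll : mnk l l = 0
  lk : mnk l S.kv = -2
  lF : ∀ i, mnk (S.L4 i F) l = 0

/-- Space components. -/
def sp {R : Type*} (F : Fin 4 → R) (j : Fin 3) : R := F j.succ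

/-- The tangential vector `b` with `l = (1 + |b|^2, (1 - |b|^2) x - 2 b)`, in rotated components. -/
noncomputable def bv (l : Fin 4 → R) (i : Fin 3) : R := (-(1 / 2) : ℝ) • ∑ k, sp l k * S.L i (S.x k)

/-- The density `theta dA / d sigma`. -/
noncomputable def th (F l : Fin 4 → R) : R :=
  S.tB (sp F) * (1 + ∑ i, S.bv l i ^ 2) + 2 * ∑ j, S.L j (F 0) * S.bv l j
    - 2 * ∑ i, ∑ j, S.cB (sp F) i j * S.L i (S.bv l j)

end SA
end NShell
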