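import Pool.Agent.Lib.NullShell.Frame

set_option autoImplicit false

/-!
Zonal kernels of a frame.
-/

open Filter Topology Set MeasureTheory

namespace NShell

open Pool.Agent.Lib.PenroseSph (E3 S2 sm)

/-- Coefficients of the kernel of the inverse of `1 - 2 lap` (up to a constant). -/
noncomputable def ck : ℕ → ℝ
  | 0 => 1
  | n + 1 => ck n * (1 + 2 * (n : ℝ) * (n + 1)) / (2 * ((n : ℝ) + 1) ^ 2)

namespace Fr
variable (A : Fr)

/-- `u(a,b) = (1 + <x(a), x(b)>)/2`. -/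
noncomputable def uu (a b : S2) : ℝ := (1 + ∑ i, (A.sa.x i).1 a * (A.sa.x i).1 b) / 2

/-- `J_n f (a) = ∫ u(a,b)^n f(b)`. -/
noncomputable def JJ (n : ℕ) (f : S2 → ℝ) (a : S2) : ℝ := ∫ b, A.uu a b ^ n * f b ∂A.m

/-- `K f = sum_n c_n J_n f`. -/
noncomputable def KK (f : S2 → ℝ) (a : S2) : ℝ := ∑' n, ck n * A.JJ n f a

end Fr
end NShell
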