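import Pool.Agent.Lib.NullShell.Meas
import Pool.Agent.Lib.NullShell.SkA3
import Pool.Agent.Lib.NullShell.SkPW

set_option autoImplicit false

/-!
Chunk KEY.
`En_ge_Y`: `pw_ineq` at every point with `p_i = L_i g` (tangential by `rad`), `B b = L tau`; integrate (`Ipos`, linearity).
`key`: `En >= Y = I (s r + <B, Z>)` (`Y_eq`), `En^2 >= 2 κ En - κ^2 >= 2 κ Y - κ^2`, `dB = (s^2 - |B|^2)/2`, and pointwise
`sum (B - s/2 pr + κ/(8π) Z)^2 >= 0`, i.e. `|B|^2 - s^2/2 + (κ/4π) <B,Z> + (κ/8π)^2 |Z|^2 >= 0` (use `pr_tr` for `<B, pr> = s`, `Z_tr`, `pr_pr`),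
and `2κ s r - 4π s^2 = -4π (s - κ r/4π)^2 + κ^2 r^2/4π`; then `id_c` and `I1`.
`final_abs`: `g` with `ψ L_i g = 2 L_i ψ`: `ψ r = ψ - 2 lap ψ`, so `r = μ s + e`, `|e| <= ε` pointwise (divide by `ev p ψ > 0`).
Take `κ = 4π/μ`. With `G = gam g g >= 0`, `1 - lap g = r + G/2`: `G (1 - lap g) = G μ s + G e + G^2/2 >= - e^2/2 >= - ε^2/2`,
`(s - r/μ)^2 = e^2/μ^2 <= ε^2/μ^2`. So `En^2 - 16 π I(dB) >= - (4π/μ^2)(ε^2/2)(4π) - 4π (ε^2/μ^2) 4π` for every `ε > 0`.
Hence `16 π I(dB) <= En^2` and `En >= 0`.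
-/

namespace NShell
namespace SM

variable {R : Type*} [CommRing R] [Algebra ℝ R] {K : Type*} (S : SM R K)

theorem I_mono {F G : R} (h : ∀ p, S.ev p F ≤ S.ev p G) : S.I F ≤ S.I G := by
  have h1 := S.Ipos (G - F) (fun p => by
    rw [map_sub]
    linarith [h p])
  rw [map_sub] at h1
  linarith

theorem ev_smul (p : K) (c : ℝ) (F : R) : S.ev p (c • F) = c * S.ev p F := by
  rw [map_smul, smul_eq_mul]

theorem I_smul (c : ℝ) (F : R) : S.I (c • F) = c * S.I F := by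
  rw [map_smul, smul_eq_mul]

theorem I_const (c : ℝ) : S.I (c • (1 : R)) = c * (4 * Real.pi) := by
  rw [S.I_smul, S.I1]

section
variable {X : Fin 3 → R} {tau : R} {b : Fin 3 → R} (hD : S.Dat X tau b)
include hD

theorem En_nonneg : 0 ≤ S.En X b := by
  unfold En
  apply S.Ipos
  intro p
  have h1 := hD.spos p
  rw [map_mul, map_add, map_one, map_sum]
  have h2 : 0 ≤ ∑ i, S.ev p (b i ^ 2) :=
    Finset.sum_nonneg fun i _ => by
      rw [map_pow]
      positivity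
  positivity

omit hD in
theorem ev_hx (p : K) : ∑ i, S.ev p (S.x i) ^ 2 = 1 := by
  have h := congrArg (S.ev p) S.sq
  simp only [map_add, map_mul, map_one] at h
  simp only [Fin.sum_univ_three]
  linarith

omit hD in
theorem ev_hB (p : K) (i : Fin 3) : ∑ j, S.ev p (S.toSA.fB X i j) * S.ev p (S.x j) = 0 := by
  have h := congrArg (S.ev p) (S.toSA.B_x X i)
  rw [map_sum, map_zero] at h
  rw [← h]
  exact Finset.sum_congr rfl fun j _ => (map_mul _ _ _).symm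

omit hD in
theorem ev_hsd (p : K) : S.ev p (S.toSA.tB X) = ∑ i, S.ev p (S.toSA.fB X i i) := by
  unfold SA.tB
  rw [map_sum]

omit hD in
theorem ev_hD (p : K) : S.ev p (S.toSA.dB X) =
    (S.ev p (S.toSA.tB X) ^ 2 - ∑ i, ∑ j, S.ev p (S.toSA.fB X i j) ^ 2) / 2 := by
  unfold SA.dB
  rw [S.ev_smul, map_sub, map_pow, map_sum]
  have h : ∀ i, S.ev p (∑ j, S.toSA.fB X i j ^ 2) = ∑ j, S.ev p (S.toSA.fB X i j) ^ 2 := by
    intro i
    rw [map_sum]
    exact Finset.sum_congr rfl fun j _ => map_pow _ _ _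
  rw [Finset.sum_congr rfl fun i _ => h i]
  ring

theorem En_ge_Y (g : R) : S.I (S.toSA.tB X + 2 * S.toSA.gam tau g - ∑ i, ∑ j, S.toSA.fB X i j * S.L i g * S.L j g)
    ≤ S.En X b := by
  unfold En
  apply S.I_mono
  intro p
  have hsym : ∀ i j, S.ev p (S.toSA.fB X i j) = S.ev p (S.toSA.fB X j i) := fun i j => by
    rw [S.toSA.B_symm hD.nor i j]
  have hb : ∑ j, S.ev p (S.x j) * S.ev p (b j) = 0 := by
    have h := congrArg (S.ev p) hD.bx
    rw [map_sum, map_zero] at h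
    rw [← h]
    exact Finset.sum_congr rfl fun j _ => (map_mul _ _ _).symm
  have hg : ∑ j, S.ev p (S.x j) * S.ev p (S.L j g) = 0 := by
    have h := congrArg (S.ev p) (S.rad g)
    simp only [map_add, map_mul, map_zero] at h
    simp only [Fin.sum_univ_three]
    exact h
  have key := pw_ineq (fun i j => S.ev p (S.toSA.fB X i j)) (fun i => S.ev p (S.x i))
    (S.ev p (S.toSA.tB X)) (S.ev p (S.toSA.dB X)) (S.ev_hx p) hsym (S.ev_hB p) (S.ev_hsd p)
    (S.ev_hD p) (hD.spos p) (hD.dpos p) (fun i => S.ev p (b i)) (fun i => S.ev p (S.L i g)) hb hg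
  have hbB : ∀ i, ∑ j, S.ev p (S.toSA.fB X i j) * S.ev p (b j) = S.ev p (S.L i tau) := by
    intro i
    rw [← hD.bB i, map_sum]
    exact Finset.sum_congr rfl fun j _ => (map_mul _ _ _).symm
  simp only [hbB] at key
  have e1 : S.ev p (S.toSA.gam tau g) = ∑ i, S.ev p (S.L i tau) * S.ev p (S.L i g) := by
    unfold SA.gam
    rw [map_sum]
    exact Finset.sum_congr rfl fun j _ => map_mul _ _ _
  have e2 : S.ev p (∑ i, ∑ j, S.toSA.fB X i j * S.L i g * S.L j g) =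
      ∑ i, ∑ j, S.ev p (S.toSA.fB X i j) * S.ev p (S.L i g) * S.ev p (S.L j g) := by
    rw [map_sum]
    refine Finset.sum_congr rfl fun i _ => ?_
    rw [map_sum]
    refine Finset.sum_congr rfl fun j _ => ?_
    rw [map_mul, map_mul]
  have e3 : S.ev p (S.toSA.tB X * (1 + ∑ i, b i ^ 2)) =
      S.ev p (S.toSA.tB X) * (1 + ∑ i, S.ev p (b i) ^ 2) := by
    rw [map_mul, map_add, map_one, map_sum]
    congr 2
    exact Finset.sum_congr rfl fun j _ => map_pow _ _ _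
  have e4 : S.ev p (2 * S.toSA.gam tau g) = 2 * S.ev p (S.toSA.gam tau g) := by
    rw [map_mul, map_ofNat]
  rw [e3, map_sub, map_add, e4, e1, e2]
  linarith

/-- The square completed in the space of symmetric matrices. -/
theorem ev_Q (c : ℝ) (g : R) (p : K) :
    0 ≤ S.ev p ((1 / 2 : ℝ) • S.toSA.tB X ^ 2 - (2 : ℝ) • S.toSA.dB X +
      (2 * c) • (∑ i, ∑ j, S.toSA.fB X i j * S.toSA.ZZ g i j) +
      (c ^ 2) • ∑ i, ∑ j, S.toSA.ZZ g i j ^ 2) := by
  have hBs := fun i j => S.toSA.B_symm hD.nor i j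
  have hBp : ∑ i, ∑ j, S.toSA.fB X i j * S.toSA.pr i j = S.toSA.tB X :=
    S.toSA.pr_tr (S.toSA.fB X) hBs (S.toSA.B_x X)
  have hZp := S.toSA.Z_tr g
  have hpp := S.toSA.pr_pr
  have hBp' := congrArg (S.ev p) hBp
  have hZp' := congrArg (S.ev p) hZp
  have hpp' := congrArg (S.ev p) hpp
  have hDe := S.ev_hD (X := X) p
  simp only [map_sum, map_mul, map_zero, map_ofNat] at hBp' hZp' hpp'
  set B : Fin 3 → Fin 3 → ℝ := fun i j => S.ev p (S.toSA.fB X i j) with hBdef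
  set Z : Fin 3 → Fin 3 → ℝ := fun i j => S.ev p (S.toSA.ZZ g i j) with hZdef
  set P : Fin 3 → Fin 3 → ℝ := fun i j => S.ev p (S.toSA.pr i j) with hPdef
  set s := S.ev p (S.toSA.tB X) with hs
  have hQ : 0 ≤ ∑ i, ∑ j, (B i j - s / 2 * P i j + c * Z i j) ^ 2 :=
    Finset.sum_nonneg fun i _ => Finset.sum_nonneg fun j _ => sq_nonneg _
  have e1 : ∑ i, ∑ j, (B i j - s / 2 * P i j + c * Z i j) ^ 2 =
      (∑ i, ∑ j, B i j ^ 2) + (s / 2) ^ 2 * (∑ i, ∑ j, P i j * P i j) + c ^ 2 * (∑ i, ∑ j, Z i j ^ 2)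
      - s * (∑ i, ∑ j, B i j * P i j) + 2 * c * (∑ i, ∑ j, B i j * Z i j)
      - s * c * (∑ i, ∑ j, Z i j * P i j) := by
    simp only [Fin.sum_univ_three]
    ring
  have hBp2 : ∑ i, ∑ j, B i j * P i j = s := hBp'
  have hZp2 : ∑ i, ∑ j, Z i j * P i j = 0 := hZp'
  have hpp2 : ∑ i, ∑ j, P i j * P i j = 2 := hpp'
  rw [e1, hBp2, hZp2, hpp2] at hQ
  have hDe2 : S.ev p (S.toSA.dB X) = (s ^ 2 - ∑ i, ∑ j, B i j ^ 2) / 2 := hDe
  simp only [map_add, map_sub, S.ev_smul, map_sum, map_mul, map_pow]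
  have hBZ : ∑ i, ∑ j, S.ev p (S.toSA.fB X i j) * S.ev p (S.toSA.ZZ g i j) =
      ∑ i, ∑ j, B i j * Z i j := rfl
  have hZZ : ∑ i, ∑ j, S.ev p (S.toSA.ZZ g i j) ^ 2 = ∑ i, ∑ j, Z i j ^ 2 := rfl
  rw [hBZ, hZZ, hDe2, ← hs]
  linarith

theorem key (κ : ℝ) (hκ : 0 < κ) (g : R) :
    κ ^ 2 / (4 * Real.pi) * S.I (S.toSA.gam g g * (1 - S.toSA.lap g))
      - 4 * Real.pi * S.I ((S.toSA.tB X - (κ / (4 * Real.pi)) • S.toSA.rr g) ^ 2)
    ≤ S.En X b ^ 2 - 16 * Real.pi * S.I (S.toSA.dB X) := by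
  have hπ := Real.pi_pos
  have hY := S.En_ge_Y hD g
  rw [S.toSA.Y_eq S.I S.I0 hD.nor g, map_add] at hY
  have hQ := S.Ipos _ (S.ev_Q hD (κ / (8 * Real.pi)) g)
  rw [map_add, map_add, map_sub, S.I_smul, S.I_smul, S.I_smul, S.I_smul] at hQ
  have hc := S.toSA.id_c S.I S.I0 g
  rw [map_sub, S.I_smul, S.I1] at hc
  have hsq : S.I ((S.toSA.tB X - (κ / (4 * Real.pi)) • S.toSA.rr g) ^ 2) =
      S.I (S.toSA.tB X ^ 2) - 2 * (κ / (4 * Real.pi)) * S.I (S.toSA.tB X * S.toSA.rr g) +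
      (κ / (4 * Real.pi)) ^ 2 * S.I (S.toSA.rr g ^ 2) := by
    rw [← S.I_smul, ← S.I_smul, ← map_sub, ← map_add]
    congr 1
    simp only [Algebra.smul_def, map_mul, map_pow, map_ofNat]
    ring
  rw [hsq]
  set E := S.En X b
  set Isr := S.I (S.toSA.tB X * S.toSA.rr g)
  set IBZ := S.I (∑ i, ∑ j, S.toSA.fB X i j * S.toSA.ZZ g i j)
  set IZ := S.I (∑ i, ∑ j, S.toSA.ZZ g i j ^ 2)
  set Iss := S.I (S.toSA.tB X ^ 2)
  set Irr := S.I (S.toSA.rr g ^ 2)
  set ID := S.I (S.toSA.dB X)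
  set IG := S.I (S.toSA.gam g g * (1 - S.toSA.lap g))
  have h1 : 2 * κ * (Isr + IBZ) - κ ^ 2 ≤ E ^ 2 := by
    nlinarith [sq_nonneg (E - κ)]
  have h2 : 0 ≤ 4 * Real.pi * Iss - 16 * Real.pi * ID + 2 * κ * IBZ + κ ^ 2 / (8 * Real.pi) * IZ := by
    have h3 := mul_le_mul_of_nonneg_left hQ (show 0 ≤ 8 * Real.pi by positivity)
    rw [mul_zero] at h3
    refine h3.trans (le_of_eq ?_)
    field_simp
    ring
  have h4 : IG = Irr - 1 / 2 * IZ - 4 * Real.pi := by linarith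
  have h5 : κ ^ 2 / (4 * Real.pi) * IG = κ ^ 2 / (4 * Real.pi) * Irr - κ ^ 2 / (8 * Real.pi) * IZ - κ ^ 2 := by
    rw [h4]
    field_simp
    ring
  have h6 : 4 * Real.pi * (Iss - 2 * (κ / (4 * Real.pi)) * Isr + (κ / (4 * Real.pi)) ^ 2 * Irr) =
      4 * Real.pi * Iss - 2 * κ * Isr + κ ^ 2 / (4 * Real.pi) * Irr := by
    field_simp
  rw [h5, h6]
  linarith

omit hD in
/-- For a solution of the logarithmic equation. -/
theorem rr_psi (ψ g : R) (h : ∀ i, ψ * S.L i g = 2 * S.L i ψ) (_hψ : ∀ p, 0 < S.ev p ψ) (p : K) :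
    S.ev p ψ * S.ev p (S.toSA.rr g) = S.ev p (ψ - 2 * S.toSA.lap ψ) := by
  have h1 : ∀ i, ψ * S.L i (S.L i g) + S.L i g * S.L i ψ = 2 * S.L i (S.L i ψ) := by
    intro i
    have h2 := congrArg (S.L i) (h i)
    rw [two_mul, map_add, Derivation.leibniz, smul_eq_mul, smul_eq_mul] at h2
    rw [h2, two_mul]
  have h3 : ∀ i, S.ev p ψ * S.ev p (S.L i (S.L i g)) + S.ev p ψ * S.ev p (S.L i g) ^ 2 / 2 =
      2 * S.ev p (S.L i (S.L i ψ)) := by
    intro i
    have a1 := congrArg (S.ev p) (h1 i)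
    have a2 := congrArg (S.ev p) (h i)
    simp only [map_add, map_mul, map_ofNat] at a1 a2
    linear_combination a1 + (S.ev p (S.L i g) / 2) * a2
  unfold SA.rr
  simp only [SA.gam, SA.lap, map_sub, map_add, map_mul, map_one, S.ev_smul, map_ofNat,
    Fin.sum_univ_three]
  have b0 := h3 0
  have b1 := h3 1
  have b2 := h3 2
  linear_combination -b0 - b1 - b2

theorem final_abs (hP : S.Perron (S.toSA.tB X)) :
    Real.sqrt (16 * Real.pi * S.I (S.toSA.dB X)) ≤ S.En X b := by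
  have hπ := Real.pi_pos
  obtain ⟨μ, hμ, hψ⟩ := hP
  have hmain : ∀ ε : ℝ, 0 < ε → 16 * Real.pi * S.I (S.toSA.dB X) ≤
      S.En X b ^ 2 + 24 * Real.pi ^ 2 / μ ^ 2 * ε ^ 2 := by
    intro ε hε
    obtain ⟨ψ, g, hpos, hlog, happ⟩ := hψ ε hε
    have hk := S.key hD (4 * Real.pi / μ) (by positivity) g
    -- pointwise error
    have herr : ∀ p, |S.ev p (S.toSA.rr g) - μ * S.ev p (S.toSA.tB X)| ≤ ε := by
      intro p
      have h1 := happ p
      have h2 := S.rr_psi ψ g hlog hpos p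
      rw [map_sub, ← h2, S.ev_smul, map_mul] at h1
      have h3 : S.ev p ψ * S.ev p (S.toSA.rr g) - μ * (S.ev p (S.toSA.tB X) * S.ev p ψ) =
          S.ev p ψ * (S.ev p (S.toSA.rr g) - μ * S.ev p (S.toSA.tB X)) := by ring
      rw [h3, abs_mul, abs_of_pos (hpos p), mul_comm ε] at h1
      exact le_of_mul_le_mul_left h1 (hpos p)
    have hA : -(ε ^ 2 / 2) * (4 * Real.pi) ≤ S.I (S.toSA.gam g g * (1 - S.toSA.lap g)) := by
      rw [← S.I_const]
      apply S.I_mono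
      intro p
      have he := abs_le.mp (herr p)
      have hs := hD.spos p
      have hG : 0 ≤ S.ev p (S.toSA.gam g g) := by
        unfold SA.gam
        rw [map_sum]
        apply Finset.sum_nonneg
        intro i _
        rw [map_mul]
        exact mul_self_nonneg _
      have hr : S.ev p (S.toSA.rr g) = 1 - S.ev p (S.toSA.lap g) - 1 / 2 * S.ev p (S.toSA.gam g g) := by
        unfold SA.rr
        rw [map_sub, map_sub, map_one, S.ev_smul]
      rw [S.ev_smul, map_one, map_mul, map_sub, map_one]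
      set G := S.ev p (S.toSA.gam g g)
      set r := S.ev p (S.toSA.rr g)
      set s := S.ev p (S.toSA.tB X)
      set l := S.ev p (S.toSA.lap g)
      have h1 : 1 - l = r + G / 2 := by linarith
      rw [h1]
      have h2 : 0 ≤ G * (μ * s) := by positivity
      have h3 : (r - μ * s) ^ 2 ≤ ε ^ 2 := by
        rw [← sq_abs (r - μ * s)]
        exact pow_le_pow_left₀ (abs_nonneg _) (herr p) 2
      nlinarith [sq_nonneg (G + (r - μ * s))]
    have hB : S.I ((S.toSA.tB X - (4 * Real.pi / μ / (4 * Real.pi)) • S.toSA.rr g) ^ 2) ≤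
        ε ^ 2 / μ ^ 2 * (4 * Real.pi) := by
      rw [← S.I_const]
      apply S.I_mono
      intro p
      have h3 : (S.ev p (S.toSA.rr g) - μ * S.ev p (S.toSA.tB X)) ^ 2 ≤ ε ^ 2 := by
        rw [← sq_abs (S.ev p (S.toSA.rr g) - μ * S.ev p (S.toSA.tB X))]
        exact pow_le_pow_left₀ (abs_nonneg _) (herr p) 2
      rw [S.ev_smul, map_one, map_pow, map_sub, S.ev_smul, mul_one, le_div_iff₀ (by positivity)]
      refine le_trans (le_of_eq ?_) h3
      field_simp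
      ring
    have hc1 : (4 * Real.pi / μ) ^ 2 / (4 * Real.pi) = 4 * Real.pi / μ ^ 2 := by
      field_simp
    rw [hc1] at hk
    have h1 : 4 * Real.pi / μ ^ 2 * (-(ε ^ 2 / 2) * (4 * Real.pi)) ≤
        4 * Real.pi / μ ^ 2 * S.I (S.toSA.gam g g * (1 - S.toSA.lap g)) :=
      mul_le_mul_of_nonneg_left hA (by positivity)
    have h2 := mul_le_mul_of_nonneg_left hB (show 0 ≤ 4 * Real.pi by positivity)
    have h3 : 24 * Real.pi ^ 2 / μ ^ 2 * ε ^ 2 =
        -(4 * Real.pi / μ ^ 2 * (-(ε ^ 2 / 2) * (4 * Real.pi))) +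
        4 * Real.pi * (ε ^ 2 / μ ^ 2 * (4 * Real.pi)) := by
      field_simp
      ring
    rw [h3]
    linarith
  have hE := S.En_nonneg hD
  have hfin : 16 * Real.pi * S.I (S.toSA.dB X) ≤ S.En X b ^ 2 := by
    apply le_of_forall_pos_le_add
    intro δ hδ
    have hc : 0 < 24 * Real.pi ^ 2 / μ ^ 2 := by positivity
    have h1 := hmain (Real.sqrt (δ / (24 * Real.pi ^ 2 / μ ^ 2))) (by positivity)
    rw [Real.sq_sqrt (by positivity), mul_div_cancel₀ _ hc.ne'] at h1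
    exact h1
  exact Real.sqrt_le_iff.mpr ⟨hE, hfin⟩

end

end SM
end NShell
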