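import Pool.Agent.Lib.NullShell.Defs
import Pool.Agent.Lib.NullShell.SkSTD
import Pool.Agent.Lib.NullShell.SkGE2
import Pool.Agent.Lib.NullShell.SkPW

set_option autoImplicit false

/-!
Chunk LINK. From maps into Minkowski space to quadruples of smooth functions on the sphere.
`q4 F` = the four components restricted to the sphere; `stdL i` of a component at `n` is the component of `fderiv F n (rotv i n)` (`stdL_of`).
`link_sh`: `Sh` from `NullConvex`, `OutNormal` (`rotv i n` is orthogonal to `n`).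
`link_pos`: `B_ij(n)` is a symmetric matrix killed by `n` (`B_symm`, `B_x`), `sum B_ij v_i v_j = <dX w, w>` with `w = sum v_i rotv i n` (= `v × n`),
which is positive for `v` orthogonal to `n`, `v ≠ 0`; `pw_pos`.
`link_area`: `sum_i parSq F n (rotv i n) (rotv (i+1) n) = D2 (n) = dB(n)^2` (`D2_eq`).
`link_theta`: for real `r`, `parSq` of `F + r l` is a polynomial in `r` with constant term `D2` and linear term `dD2`
(the derivative of `F + r l` is `dF + r dl`); derivative of the square root at 0: `dD2/(2 sqrt D2) = th` (`dD2_eq`).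
-/

open Filter Topology Set MeasureTheory
open scoped ContDiff

namespace NShell
namespace SA

variable {R : Type*} [CommRing R] [Algebra ℝ R] (S : SA R)

/-- The normal condition from the null vector. -/
theorem nor_of_nk {F : Fin 4 → R} (h : ∀ i, mnk (S.L4 i F) S.kv = 0) : S.Nor (sp F) (- F 0) := by
  intro i
  have h1 := h i
  simp only [mnk, L4, kv, sp, Fin.sum_univ_three, map_neg] at h1 ⊢
  simp only [Matrix.cons_val_zero, Matrix.cons_val_one, Matrix.cons_val] at h1
  have e1 : (Fin.succ (0 : Fin 3)) = (1 : Fin 4) := rfl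
  have e2 : (Fin.succ (1 : Fin 3)) = (2 : Fin 4) := rfl
  have e3 : (Fin.succ (2 : Fin 3)) = (3 : Fin 4) := rfl
  rw [e1, e2, e3]
  linear_combination h1

/-- The null normal exists as soon as the determinant is invertible. -/
theorem exists_sh {F : Fin 4 → R} (h : ∀ i, mnk (S.L4 i F) S.kv = 0) (u : R)
    (hu : S.dB (sp F) * u = 1) : ∃ l, S.Sh F l := by
  have hN := S.nor_of_nk h
  set tau := - F 0 with htau
  set X := sp F with hX
  set b : Fin 3 → R := fun i => u * ∑ j, S.cB X i j * S.L j tau with hb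
  have hBs := fun i j => S.B_symm hN i j
  have hxB := fun i => S.B_x X i
  have hsq := S.sq
  have hrad := S.rad tau
  -- x . b = 0
  have hxb : ∑ j, S.x j * b j = 0 := by
    have h1 : ∀ j, ∑ i, S.x i * S.cB X i j = 0 := by
      intro j
      have h2 : ∀ i, S.x i * S.cB X i j = S.tB X * (S.pr j i * S.x i) - S.fB X j i * S.x i := by
        intro i
        unfold cB
        rw [S.pr_symm i j, hBs i j]
        ring
      simp only [h2]
      rw [Finset.sum_sub_distrib, ← Finset.mul_sum, S.pr_x, hxB]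
      ring
    have h3 : ∑ j, S.x j * b j = u * ∑ j, (∑ i, S.x i * S.cB X i j) * S.L j tau := by
      rw [hb]
      simp only [Fin.sum_univ_three]
      ring
    rw [h3]
    simp only [h1]
    simp
  -- B b = d tau
  have hBb : ∀ i, ∑ j, S.fB X i j * b j = S.L i tau := by
    intro i
    have hC := fun k => S.B_cayley hN i k
    have h1 : ∑ j, S.fB X i j * b j = u * ∑ k, (∑ j, S.fB X i j * S.cB X j k) * S.L k tau := by
      rw [hb]
      simp only [Fin.sum_univ_three]
      ring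
    have h2 : ∀ k, ∑ j, S.fB X i j * S.cB X j k = S.dB X * S.pr i k := by
      intro k
      have h3 : ∀ j, S.fB X i j * S.cB X j k =
          S.tB X * (S.fB X i j * (if j = k then 1 else 0)) - S.tB X * (S.fB X i j * S.x j) * S.x k -
          S.fB X i j * S.fB X j k := by
        intro j
        unfold cB pr
        ring
      simp only [h3]
      rw [Finset.sum_sub_distrib, Finset.sum_sub_distrib, ← Finset.mul_sum, ← Finset.sum_mul,
        ← Finset.mul_sum, hxB, hC]
      simp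
    rw [h1]
    simp only [h2]
    have h4 : ∑ k, S.dB X * S.pr i k * S.L k tau = S.dB X * S.L i tau := by
      unfold pr
      have h5 : ∀ k, S.dB X * ((if i = k then 1 else 0) - S.x i * S.x k) * S.L k tau =
          S.dB X * ((if i = k then 1 else 0) * S.L k tau) - S.dB X * S.x i * (S.x k * S.L k tau) := by
        intro k
        ring
      simp only [h5]
      rw [Finset.sum_sub_distrib, ← Finset.mul_sum, ← Finset.mul_sum]
      have h6 : ∑ k, S.x k * S.L k tau = 0 := by
        rw [Fin.sum_univ_three]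
        exact hrad
      rw [h6]
      simp
    rw [h4, ← mul_assoc, mul_comm u, hu, one_mul]
  set β : R := ∑ i, b i ^ 2 with hβ
  set c : Fin 3 → R := fun k => ∑ m, b m * S.L m (S.x k) with hc
  -- scalar products of c
  have hcx : ∑ k, S.x k * c k = 0 := by
    rw [hc]
    simp only [Fin.sum_univ_three, S.L00, S.L01, S.L02, S.L10, S.L11, S.L12, S.L20, S.L21, S.L22]
    ring
  have hcc : ∑ k, c k * c k = β := by
    rw [hc, hβ]
    simp only [Fin.sum_univ_three, S.L00, S.L01, S.L02, S.L10, S.L11, S.L12, S.L20, S.L21, S.L22]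
      at hxb ⊢
    linear_combination (b 0 ^ 2 + b 1 ^ 2 + b 2 ^ 2) * hsq -
      (S.x 0 * b 0 + S.x 1 * b 1 + S.x 2 * b 2) * hxb
  refine ⟨![1 + β, (1 - β) * S.x 0 - 2 * c 0, (1 - β) * S.x 1 - 2 * c 1,
    (1 - β) * S.x 2 - 2 * c 2], h, ?_, ?_, ?_⟩
  · simp only [mnk, Matrix.cons_val_zero, Matrix.cons_val_one, Matrix.cons_val]
    simp only [Fin.sum_univ_three] at hcx hcc
    linear_combination (1 - β) ^ 2 * hsq - 4 * (1 - β) * hcx + 4 * hcc
  · simp only [mnk, kv, Matrix.cons_val_zero, Matrix.cons_val_one, Matrix.cons_val]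
    simp only [Fin.sum_univ_three] at hcx
    linear_combination -(1 - β) * hsq + 2 * hcx
  · intro i
    have h1 := hN i
    have h2 := hBb i
    have e1 : (Fin.succ (0 : Fin 3)) = (1 : Fin 4) := rfl
    have e2 : (Fin.succ (1 : Fin 3)) = (2 : Fin 4) := rfl
    have e3 : (Fin.succ (2 : Fin 3)) = (3 : Fin 4) := rfl
    simp only [mnk, L4, Matrix.cons_val_zero, Matrix.cons_val_one, Matrix.cons_val]
    have h3 : ∑ j, S.fB X i j * b j = S.L i (F 1) * c 0 + S.L i (F 2) * c 1 + S.L i (F 3) * c 2 := by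
      rw [hc, hX]
      simp only [fB, sp, Fin.sum_univ_three, e1, e2, e3]
      ring
    rw [h3] at h2
    rw [hX] at h1
    simp only [sp, Fin.sum_univ_three, e1, e2, e3] at h1
    have h4 : S.L i tau = - S.L i (F 0) := by rw [htau, map_neg]
    rw [h4] at h1 h2
    linear_combination (-(1 - β)) * h1 - 2 * h2

end SA

open Pool.Agent.Lib.PenroseSph (E3 S2 sm)
open NullShell (M4 mink kvec parSq areaDens NullConvex OutNormal thetaDens)

/-- Components of a map into Minkowski space. -/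
noncomputable def q4 (F : E3 → M4) (hF : ContDiff ℝ ∞ F) : Fin 4 → SFun :=
  ![SFun.of (fun y => (F y).1) (contDiff_fst.comp hF),
    SFun.of (fun y => (F y).2 0) ((EuclideanSpace.proj (0 : Fin 3) : E3 →L[ℝ] ℝ).contDiff.comp (contDiff_snd.comp hF)),
    SFun.of (fun y => (F y).2 1) ((EuclideanSpace.proj (1 : Fin 3) : E3 →L[ℝ] ℝ).contDiff.comp (contDiff_snd.comp hF)),
    SFun.of (fun y => (F y).2 2) ((EuclideanSpace.proj (2 : Fin 3) : E3 →L[ℝ] ℝ).contDiff.comp (contDiff_snd.comp hF))]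

/-- The four components of a vector. -/
def comp4 (v : M4) : Fin 4 → ℝ := ![v.1, v.2 0, v.2 1, v.2 2]

theorem mnk_comp (v w : M4) : mnk (comp4 v) (comp4 w) = mink v w := by
  simp only [mnk, comp4, mink, Fin.sum_univ_three, Matrix.cons_val_zero, Matrix.cons_val_one,
    Matrix.cons_val]
  ring

theorem mnk_ev (V W : Fin 4 → SFun) (n : S2) :
    (mnk V W).1 n = mnk (fun a => (V a).1 n) (fun a => (W a).1 n) := rfl

theorem q4_ev (F : E3 → M4) (hF : ContDiff ℝ ∞ F) (a : Fin 4) (n : S2) :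
    (q4 F hF a).1 n = comp4 (F n) a := by
  fin_cases a <;> rfl

theorem fderiv_lin (A : M4 →L[ℝ] ℝ) (F : E3 → M4) (hF : ContDiff ℝ ∞ F) (n e : E3) :
    fderiv ℝ (fun y => A (F y)) n e = A (fderiv ℝ F n e) := by
  have h1 : HasFDerivAt F (fderiv ℝ F n) n := ((hF.differentiable (by simp)) n).hasFDerivAt
  have h2 : HasFDerivAt (fun y => A (F y)) (A.comp (fderiv ℝ F n)) n := A.hasFDerivAt.comp n h1
  rw [h2.fderiv]
  rfl

theorem q4_L (F : E3 → M4) (hF : ContDiff ℝ ∞ F) (i : Fin 3) (a : Fin 4) (n : S2) :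
    (stdL i (q4 F hF a)).1 n = comp4 (fderiv ℝ F n (rotv i n)) a := by
  fin_cases a
  · have h := stdL_of i (q4 F hF 0) (fun y => (F y).1) (contDiff_fst.comp hF) (fun m => rfl) n
    have h2 := fderiv_lin (ContinuousLinearMap.fst ℝ ℝ E3) F hF n (rotv i n)
    exact h.trans h2
  · have h := stdL_of i (q4 F hF 1) (fun y => (F y).2 0)
      ((EuclideanSpace.proj (0 : Fin 3) : E3 →L[ℝ] ℝ).contDiff.comp (contDiff_snd.comp hF))
      (fun m => rfl) n
    have h2 := fderiv_lin ((EuclideanSpace.proj (0 : Fin 3) : E3 →L[ℝ] ℝ).comp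
      (ContinuousLinearMap.snd ℝ ℝ E3)) F hF n (rotv i n)
    exact h.trans h2
  · have h := stdL_of i (q4 F hF 2) (fun y => (F y).2 1)
      ((EuclideanSpace.proj (1 : Fin 3) : E3 →L[ℝ] ℝ).contDiff.comp (contDiff_snd.comp hF))
      (fun m => rfl) n
    have h2 := fderiv_lin ((EuclideanSpace.proj (1 : Fin 3) : E3 →L[ℝ] ℝ).comp
      (ContinuousLinearMap.snd ℝ ℝ E3)) F hF n (rotv i n)
    exact h.trans h2
  · have h := stdL_of i (q4 F hF 3) (fun y => (F y).2 2)
      ((EuclideanSpace.proj (2 : Fin 3) : E3 →L[ℝ] ℝ).contDiff.comp (contDiff_snd.comp hF))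
      (fun m => rfl) n
    have h2 := fderiv_lin ((EuclideanSpace.proj (2 : Fin 3) : E3 →L[ℝ] ℝ).comp
      (ContinuousLinearMap.snd ℝ ℝ E3)) F hF n (rotv i n)
    exact h.trans h2

theorem kv_ev (a : Fin 4) (n : S2) : (stdSA.kv a).1 n = comp4 (kvec n) a := by
  fin_cases a <;> rfl

theorem stdx_L (i k : Fin 3) (n : S2) : (stdL i (stdx k)).1 n = (rotv i (n : E3)) k := by
  rw [stdL_of i (stdx k) (fun y => y k) (EuclideanSpace.proj k : E3 →L[ℝ] ℝ).contDiff (fun _ => rfl) n]
  have h : HasFDerivAt (fun y : E3 => y k) (EuclideanSpace.proj k : E3 →L[ℝ] ℝ) (n : E3) :=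
    (EuclideanSpace.proj k : E3 →L[ℝ] ℝ).hasFDerivAt
  rw [h.fderiv]
  rfl

theorem rotv_apply (i k : Fin 3) (n : E3) : rotv i n k =
    n (i + 1) * (if k = i + 2 then 1 else 0) - n (i + 2) * (if k = i + 1 then 1 else 0) := by
  unfold rotv
  simp [PiLp.sub_apply, PiLp.smul_apply]

theorem rotv_orth (i : Fin 3) (n : E3) : inner ℝ (rotv i n) n = 0 := by
  rw [PiLp.inner_apply]
  simp only [rotv_apply, Fin.sum_univ_three, RCLike.inner_apply, conj_trivial]
  have e1 : (1 + 1 : Fin 3) = 2 := rfl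
  have e2 : (1 + 2 : Fin 3) = 0 := rfl
  have e3 : (2 + 1 : Fin 3) = 0 := rfl
  have e4 : (2 + 2 : Fin 3) = 1 := rfl
  fin_cases i
  · simp
    ring
  · simp [e1, e2]
    ring
  · simp [e3, e4]
    ring

theorem S2_norm (n : S2) : ‖(n : E3)‖ = 1 := by simp

theorem S2_sq (n : E3) (hn : ‖n‖ = 1) : n 0 ^ 2 + n 1 ^ 2 + n 2 ^ 2 = 1 := by
  have h := EuclideanSpace.norm_sq_eq n
  rw [hn] at h
  simp only [Fin.sum_univ_three, Real.norm_eq_abs, sq_abs] at h
  linarith

/-- Ingoing null normality. -/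
theorem link_nk {F : E3 → M4} (hF : NullConvex F) (i : Fin 3) :
    mnk (stdSA.L4 i (q4 F hF.smooth)) stdSA.kv = 0 := by
  apply Subtype.ext
  funext n
  rw [mnk_ev]
  have h1 : (fun a => (stdSA.L4 i (q4 F hF.smooth) a).1 n) = comp4 (fderiv ℝ F n (rotv i n)) := by
    funext a
    exact q4_L F hF.smooth i a n
  have h2 : (fun a => (stdSA.kv a).1 n) = comp4 (kvec n) := by
    funext a
    exact kv_ev a n
  rw [h1, h2, mnk_comp]
  exact hF.normal n (S2_norm n) _ (rotv_orth i n)

theorem link_sh {F l : E3 → M4} (hF : NullConvex F) (hl : OutNormal F l) :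
    stdSA.Sh (q4 F hF.smooth) (q4 l hl.smooth) := by
  have h1 : ∀ i (n : S2), (fun a => (stdSA.L4 i (q4 F hF.smooth) a).1 n) =
      comp4 (fderiv ℝ F n (rotv i n)) := by
    intro i n
    funext a
    exact q4_L F hF.smooth i a n
  have h2 : ∀ n : S2, (fun a => (stdSA.kv a).1 n) = comp4 (kvec n) := by
    intro n
    funext a
    exact kv_ev a n
  have h3 : ∀ n : S2, (fun a => (q4 l hl.smooth a).1 n) = comp4 (l n) := by
    intro n
    funext a
    exact q4_ev l hl.smooth a n
  refine ⟨link_nk hF, ?_, ?_, ?_⟩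
  · apply Subtype.ext
    funext n
    rw [mnk_ev, h3, mnk_comp]
    exact hl.null n (S2_norm n)
  · apply Subtype.ext
    funext n
    rw [mnk_ev, h3, h2, mnk_comp]
    exact hl.norm n (S2_norm n)
  · intro i
    apply Subtype.ext
    funext n
    rw [mnk_ev, h3, h1, mnk_comp]
    exact hl.normal n (S2_norm n) _ (rotv_orth i n)

theorem B_ev (F : E3 → M4) (hF : ContDiff ℝ ∞ F) (i j : Fin 3) (n : S2) :
    (stdSA.fB (SA.sp (q4 F hF)) i j).1 n =
      ∑ k, (fderiv ℝ F n (rotv i n)).2 k * (rotv j (n : E3)) k := by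
  have h1 : (stdSA.fB (SA.sp (q4 F hF)) i j).1 n =
      ∑ k, (stdL i (q4 F hF k.succ)).1 n * (stdL j (stdx k)).1 n := by
    have h2 : (stdSA.fB (SA.sp (q4 F hF)) i j).1 n = evS n (stdSA.fB (SA.sp (q4 F hF)) i j) := rfl
    rw [h2]
    unfold SA.fB
    rw [map_sum]
    rfl
  rw [h1]
  refine Finset.sum_congr rfl fun k _ => ?_
  rw [q4_L, stdx_L]
  congr 1
  fin_cases k <;> rfl

theorem rot_comb (v : Fin 3 → ℝ) (n : E3) (k : Fin 3) :
    (∑ i, v i • rotv i n) k = v (k + 1) * n (k + 2) - v (k + 2) * n (k + 1) := by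
  simp only [Fin.sum_univ_three, PiLp.add_apply, PiLp.smul_apply, smul_eq_mul, rotv_apply]
  have e1 : (1 + 1 : Fin 3) = 2 := rfl
  have e2 : (1 + 2 : Fin 3) = 0 := rfl
  have e3 : (2 + 1 : Fin 3) = 0 := rfl
  have e4 : (2 + 2 : Fin 3) = 1 := rfl
  fin_cases k
  · simp [e1, e2, e3, e4]
    ring
  · simp [e1, e2, e3, e4]
    ring
  · simp [e1, e2, e3, e4]
    ring

theorem link_pos {F : E3 → M4} (hF : NullConvex F) (n : S2) :
    0 < (stdSA.tB (SA.sp (q4 F hF.smooth))).1 n ∧ 0 < (stdSA.dB (SA.sp (q4 F hF.smooth))).1 n := by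
  have hN := stdSA.nor_of_nk (link_nk hF)
  set X := SA.sp (q4 F hF.smooth) with hX
  have hn := S2_sq (n : E3) (S2_norm n)
  have hx : ∑ i, ((stdSA.x i).1 n) ^ 2 = 1 := by
    rw [Fin.sum_univ_three]
    exact hn
  have hs : ∀ i j, (stdSA.fB X i j).1 n = (stdSA.fB X j i).1 n := fun i j => by
    rw [stdSA.B_symm hN i j]
  have hB : ∀ i, ∑ j, (stdSA.fB X i j).1 n * (stdSA.x j).1 n = 0 := by
    intro i
    have h := congrArg (evS n) (stdSA.B_x X i)
    rw [map_sum, map_zero] at h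
    exact h
  have hsd : (stdSA.tB X).1 n = ∑ i, (stdSA.fB X i i).1 n := by
    have h : (stdSA.tB X).1 n = evS n (stdSA.tB X) := rfl
    rw [h]
    unfold SA.tB
    rw [map_sum]
    rfl
  have hD : (stdSA.dB X).1 n = ((stdSA.tB X).1 n ^ 2 - ∑ i, ∑ j, (stdSA.fB X i j).1 n ^ 2) / 2 := by
    have h : (stdSA.dB X).1 n = evS n (stdSA.dB X) := rfl
    rw [h]
    unfold SA.dB
    rw [map_smul, map_sub, map_pow, map_sum, smul_eq_mul]
    simp only [map_sum, map_pow]
    have e1 : evS n (stdSA.tB X) = (stdSA.tB X).1 n := rfl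
    have e2 : ∀ i j, evS n (stdSA.fB X i j) = (stdSA.fB X i j).1 n := fun _ _ => rfl
    simp only [e1, e2]
    ring
  apply pw_pos (fun i j => (stdSA.fB X i j).1 n) (fun i => (stdSA.x i).1 n) _ _ hx hs hB hsd hD
  intro v hv hv0
  set w : E3 := ∑ i, v i • rotv i (n : E3) with hw
  have hvn : (n : E3) 0 * v 0 + (n : E3) 1 * v 1 + (n : E3) 2 * v 2 = 0 := by
    have : ∑ j, (stdSA.x j).1 n * v j = 0 := hv
    rw [Fin.sum_univ_three] at this
    exact this
  have hwk : ∀ k, w k = v (k + 1) * (n : E3) (k + 2) - v (k + 2) * (n : E3) (k + 1) :=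
    fun k => rot_comb v n k
  have w0 : w 0 = v 1 * (n : E3) 2 - v 2 * (n : E3) 1 := hwk 0
  have w1 : w 1 = v 2 * (n : E3) 0 - v 0 * (n : E3) 2 := hwk 1
  have w2 : w 2 = v 0 * (n : E3) 1 - v 1 * (n : E3) 0 := hwk 2
  have hwn : inner ℝ w (n : E3) = 0 := by
    rw [PiLp.inner_apply, Fin.sum_univ_three]
    simp only [RCLike.inner_apply, conj_trivial]
    rw [w0, w1, w2]
    ring
  have hwne : w ≠ 0 := by
    intro h0
    apply hv0
    have z : ∀ k, w k = 0 := fun k => by rw [h0]; rfl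
    have z0 := z 0
    have z1 := z 1
    have z2 := z 2
    rw [w0] at z0
    rw [w1] at z1
    rw [w2] at z2
    funext k
    fin_cases k
    · change v 0 = 0
      linear_combination (-v 0) * hn + (n : E3) 0 * hvn + (n : E3) 1 * z2 - (n : E3) 2 * z1
    · change v 1 = 0
      linear_combination (-v 1) * hn + (n : E3) 1 * hvn + (n : E3) 2 * z0 - (n : E3) 0 * z2
    · change v 2 = 0
      linear_combination (-v 2) * hn + (n : E3) 2 * hvn + (n : E3) 0 * z1 - (n : E3) 1 * z0
  have hc := hF.convex n (S2_norm n) w hwn hwne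
  refine lt_of_lt_of_eq hc ?_
  have hdw : ∀ k, (fderiv ℝ F n w).2 k = ∑ i, v i * (fderiv ℝ F n (rotv i n)).2 k := by
    intro k
    rw [hw]
    simp only [Fin.sum_univ_three, map_add, map_smul, Prod.snd_add, Prod.smul_snd, PiLp.add_apply,
      PiLp.smul_apply, smul_eq_mul]
  rw [PiLp.inner_apply]
  simp only [RCLike.inner_apply, conj_trivial, hdw]
  have hB2 : ∀ i j, (stdSA.fB X i j).1 n =
      ∑ k, (fderiv ℝ F n (rotv i n)).2 k * (rotv j (n : E3)) k := fun i j => B_ev F hF.smooth i j n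
  simp only [hB2]
  have hwk2 : ∀ k, w k = ∑ i, v i * rotv i (n : E3) k := by
    intro k
    rw [hw]
    simp only [Fin.sum_univ_three, PiLp.add_apply, PiLp.smul_apply, smul_eq_mul]
  simp only [hwk2, Fin.sum_univ_three]
  ring

theorem gr_ev (F l : E3 → M4) (hF : ContDiff ℝ ∞ F) (hl : ContDiff ℝ ∞ l) (i j : Fin 3) (n : S2) :
    (stdSA.gr (q4 F hF) (q4 l hl) i j).1 n =
      mink (fderiv ℝ F n (rotv i n)) (fderiv ℝ l n (rotv j n)) := by
  unfold SA.gr
  rw [mnk_ev]
  have h1 : (fun a => (stdSA.L4 i (q4 F hF) a).1 n) = comp4 (fderiv ℝ F n (rotv i n)) := by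
    funext a
    exact q4_L F hF i a n
  have h2 : (fun a => (stdSA.L4 j (q4 l hl) a).1 n) = comp4 (fderiv ℝ l n (rotv j n)) := by
    funext a
    exact q4_L l hl j a n
  rw [h1, h2, mnk_comp]

theorem D2_ev (F : E3 → M4) (hF : ContDiff ℝ ∞ F) (n : S2) :
    (stdSA.D2 (q4 F hF)).1 n = ∑ i : Fin 3, parSq F n (rotv i n) (rotv (i + 1) n) := by
  have h : (stdSA.D2 (q4 F hF)).1 n = evS n (stdSA.D2 (q4 F hF)) := rfl
  rw [h]
  unfold SA.D2
  rw [map_sum]
  refine Finset.sum_congr rfl fun i _ => ?_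
  rw [map_sub, map_mul, map_pow]
  have e : ∀ i j, evS n (stdSA.gr (q4 F hF) (q4 F hF) i j) =
      mink (fderiv ℝ F n (rotv i n)) (fderiv ℝ F n (rotv j n)) := fun i j => gr_ev F F hF hF i j n
  rw [e, e, e]
  rfl

theorem D2_sq {F : E3 → M4} (hF : NullConvex F) (n : S2) :
    (stdSA.D2 (q4 F hF.smooth)).1 n = ((stdSA.dB (SA.sp (q4 F hF.smooth))).1 n) ^ 2 := by
  rw [stdSA.D2_eq (link_nk hF)]
  rfl

theorem link_area {F : E3 → M4} (hF : NullConvex F) (n : S2) :
    areaDens F n = (stdSA.dB (SA.sp (q4 F hF.smooth))).1 n := by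
  have h1 := D2_ev F hF.smooth n
  rw [D2_sq hF n] at h1
  unfold areaDens
  have h2 : ∑ i : Fin 3, parSq F n (NullShell.rotv i n) (NullShell.rotv (i + 1) n) =
      ∑ i : Fin 3, parSq F n (rotv i n) (rotv (i + 1) n) := rfl
  rw [h2, ← h1, Real.sqrt_sq (link_pos hF n).2.le]

theorem mink_bilin (a b c d : M4) (r : ℝ) : mink (a + r • b) (c + r • d) =
    mink a c + r * (mink a d + mink b c) + r ^ 2 * mink b d := by
  unfold mink
  simp only [Prod.fst_add, Prod.smul_fst, Prod.snd_add, Prod.smul_snd, PiLp.add_apply,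
    PiLp.smul_apply, smul_eq_mul, Fin.sum_univ_three]
  ring

theorem mink_comm (a b : M4) : mink a b = mink b a := by
  unfold mink
  simp only [Fin.sum_univ_three]
  ring

theorem poly2_deriv (a b c : ℝ) : HasDerivAt (fun r : ℝ => a + r * b + r ^ 2 * c) b 0 := by
  have h1 : HasDerivAt (fun r : ℝ => a + r * b + r ^ 2 * c) (0 + 1 * b + (2 * 0) * c) 0 := by
    have h2 : HasDerivAt (fun r : ℝ => r ^ 2) (2 * 0) 0 := by
      have := hasDerivAt_pow 2 (0 : ℝ)
      simpa using this
    exact ((hasDerivAt_const (0 : ℝ) a).add ((hasDerivAt_id (0 : ℝ)).mul_const b)).add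
      (h2.mul_const c)
  simpa using h1

theorem link_theta {F l : E3 → M4} (hF : NullConvex F) (hl : OutNormal F l) (n : S2) :
    thetaDens F l n = (stdSA.th (q4 F hF.smooth) (q4 l hl.smooth)).1 n := by
  set g : Fin 3 → Fin 3 → ℝ := fun i j =>
    mink (fderiv ℝ F n (rotv i n)) (fderiv ℝ F n (rotv j n)) with hg
  set h : Fin 3 → Fin 3 → ℝ := fun i j =>
    mink (fderiv ℝ F n (rotv i n)) (fderiv ℝ l n (rotv j n)) with hh
  set k : Fin 3 → Fin 3 → ℝ := fun i j =>
    mink (fderiv ℝ l n (rotv i n)) (fderiv ℝ l n (rotv j n)) with hk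
  have hFd : DifferentiableAt ℝ F (n : E3) := (hF.smooth.differentiable (by simp)) _
  have hld : DifferentiableAt ℝ l (n : E3) := (hl.smooth.differentiable (by simp)) _
  have hfd : ∀ (r : ℝ) (e : E3), fderiv ℝ (fun y => F y + r • l y) n e =
      fderiv ℝ F n e + r • fderiv ℝ l n e := by
    intro r e
    have hs : HasFDerivAt (fun y => F y + r • l y) (fderiv ℝ F n + r • fderiv ℝ l n) (n : E3) :=
      hFd.hasFDerivAt.add (hld.hasFDerivAt.const_smul r)
    rw [hs.fderiv]
    rfl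
  have hpar : ∀ (r : ℝ) (i j : Fin 3),
      parSq (fun y => F y + r • l y) n (rotv i n) (rotv j n) =
      (g i i + r * (2 * h i i) + r ^ 2 * k i i) * (g j j + r * (2 * h j j) + r ^ 2 * k j j) -
      (g i j + r * (h i j + h j i) + r ^ 2 * k i j) ^ 2 := by
    intro r i j
    unfold parSq
    rw [hfd, hfd, mink_bilin, mink_bilin, mink_bilin]
    rw [mink_comm (fderiv ℝ l n (rotv i n)) (fderiv ℝ F n (rotv i n)),
      mink_comm (fderiv ℝ l n (rotv j n)) (fderiv ℝ F n (rotv j n)),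
      mink_comm (fderiv ℝ l n (rotv i n)) (fderiv ℝ F n (rotv j n))]
    rw [hg, hh, hk]
    ring
  set Q : ℝ → ℝ := fun r => ∑ i : Fin 3,
    ((g i i + r * (2 * h i i) + r ^ 2 * k i i) *
      (g (i + 1) (i + 1) + r * (2 * h (i + 1) (i + 1)) + r ^ 2 * k (i + 1) (i + 1)) -
      (g i (i + 1) + r * (h i (i + 1) + h (i + 1) i) + r ^ 2 * k i (i + 1)) ^ 2) with hQ
  have harea : (fun r : ℝ => areaDens (fun y => F y + r • l y) n) = fun r => Real.sqrt (Q r) := by
    funext r
    unfold areaDens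
    congr 1
    refine Finset.sum_congr rfl fun i _ => ?_
    exact hpar r i (i + 1)
  have hgr : ∀ i j, (stdSA.gr (q4 F hF.smooth) (q4 F hF.smooth) i j).1 n = g i j :=
    fun i j => gr_ev F F hF.smooth hF.smooth i j n
  have hgrl : ∀ i j, (stdSA.gr (q4 F hF.smooth) (q4 l hl.smooth) i j).1 n = h i j :=
    fun i j => gr_ev F l hF.smooth hl.smooth i j n
  have hQ0 : Q 0 = ((stdSA.dB (SA.sp (q4 F hF.smooth))).1 n) ^ 2 := by
    rw [← D2_sq hF n, D2_ev F hF.smooth n, hQ]
    simp only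
    refine Finset.sum_congr rfl fun i _ => ?_
    unfold parSq
    rw [hg]
    ring
  have hQd : HasDerivAt Q (∑ i : Fin 3, (2 * h i i * g (i + 1) (i + 1) +
      g i i * (2 * h (i + 1) (i + 1)) - 2 * g i (i + 1) * (h i (i + 1) + h (i + 1) i))) 0 := by
    rw [hQ]
    apply HasDerivAt.fun_sum
    intro i _
    have a1 := poly2_deriv (g i i) (2 * h i i) (k i i)
    have a2 := poly2_deriv (g (i + 1) (i + 1)) (2 * h (i + 1) (i + 1)) (k (i + 1) (i + 1))
    have a3 := poly2_deriv (g i (i + 1)) (h i (i + 1) + h (i + 1) i) (k i (i + 1))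
    have a4 := (a1.mul a2).sub (a3.pow 2)
    refine a4.congr_deriv ?_
    simp
  have hdD : (stdSA.dD2 (q4 F hF.smooth) (q4 l hl.smooth)).1 n = ∑ i : Fin 3,
      (2 * h i i * g (i + 1) (i + 1) +
      g i i * (2 * h (i + 1) (i + 1)) - 2 * g i (i + 1) * (h i (i + 1) + h (i + 1) i)) := by
    have e0 : (stdSA.dD2 (q4 F hF.smooth) (q4 l hl.smooth)).1 n =
        evS n (stdSA.dD2 (q4 F hF.smooth) (q4 l hl.smooth)) := rfl
    have e1 : ∀ i j, evS n (stdSA.gr (q4 F hF.smooth) (q4 F hF.smooth) i j) = g i j := hgr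
    have e2 : ∀ i j, evS n (stdSA.gr (q4 F hF.smooth) (q4 l hl.smooth) i j) = h i j := hgrl
    rw [e0]
    unfold SA.dD2
    rw [map_sum]
    refine Finset.sum_congr rfl fun i _ => ?_
    simp only [map_sub, map_add, map_mul, map_ofNat, e1, e2]
    ring
  have hdd := congrArg (fun f : SFun => f.1 n) (stdSA.dD2_eq (link_sh hF hl))
  have hdd2 : (stdSA.dD2 (q4 F hF.smooth) (q4 l hl.smooth)).1 n =
      2 * (stdSA.dB (SA.sp (q4 F hF.smooth))).1 n *
        (stdSA.th (q4 F hF.smooth) (q4 l hl.smooth)).1 n := hdd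
  rw [← hdD, hdd2] at hQd
  have hp := (link_pos hF n).2
  have hs := hQd.sqrt (by rw [hQ0]; positivity)
  unfold thetaDens
  rw [harea, hs.deriv, hQ0, Real.sqrt_sq hp.le]
  field_simp

/-- The outgoing null normal exists: `l = (1 + |b|^2, (1 - |b|^2) x - 2 c)`, `b = B^(-1) d tau = (C d tau)/D` with the cofactor matrix `cB`,
`1/dB` from `SFun_inv`, extended by `lft`. -/
theorem exists_out {F : E3 → M4} (hF : NullConvex F) : ∃ l, OutNormal F l := by
  obtain ⟨u, hu⟩ := SFun_inv (stdSA.dB (SA.sp (q4 F hF.smooth))) (fun n => (link_pos hF n).2.ne')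
  obtain ⟨l4, hsh⟩ := stdSA.exists_sh (link_nk hF) u hu
  set l : E3 → M4 := fun y => (lft (l4 0) y,
    ∑ k : Fin 3, lft (l4 k.succ) y • EuclideanSpace.single k (1 : ℝ)) with hl
  have hls : ContDiff ℝ ∞ l := by
    apply ContDiff.prodMk (lft_smooth _)
    apply ContDiff.sum
    intro k _
    exact (lft_smooth _).smul contDiff_const
  have hlc : ∀ n : S2, comp4 (l n) = fun a => (l4 a).1 n := by
    intro n
    funext a
    have hk : ∀ k : Fin 3, (l (n : E3)).2 k = (l4 k.succ).1 n := by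
      intro k
      rw [← lft_eq]
      simp only [hl, Fin.sum_univ_three, PiLp.add_apply, PiLp.smul_apply, smul_eq_mul,
        PiLp.single_apply]
      fin_cases k <;> simp
    fin_cases a
    · change lft (l4 0) (n : E3) = (l4 0).1 n
      exact lft_eq _ _
    · exact hk 0
    · exact hk 1
    · exact hk 2
  refine ⟨l, hls, ?_, ?_, ?_⟩
  · intro n hn
    set n' : S2 := ⟨n, by simpa using hn⟩ with hn'
    have h1 := congrArg (fun f : SFun => f.1 n') hsh.ll
    have h2 : (mnk l4 l4).1 n' = 0 := h1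
    rw [mnk_ev, ← hlc, mnk_comp] at h2
    exact h2
  · intro n hn
    set n' : S2 := ⟨n, by simpa using hn⟩ with hn'
    have h1 := congrArg (fun f : SFun => f.1 n') hsh.lk
    have h2 : (mnk l4 stdSA.kv).1 n' = -2 := h1
    have h3 : (fun a => (stdSA.kv a).1 n') = comp4 (kvec n') := by
      funext a
      exact kv_ev a n'
    rw [mnk_ev, ← hlc, h3, mnk_comp] at h2
    exact h2
  · intro n hn e he
    set n' : S2 := ⟨n, by simpa using hn⟩ with hn'
    have h0 : ∀ i, mink (fderiv ℝ F n (rotv i n)) (l n) = 0 := by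
      intro i
      have h1 := congrArg (fun f : SFun => f.1 n') (hsh.lF i)
      have h2 : (mnk (stdSA.L4 i (q4 F hF.smooth)) l4).1 n' = 0 := h1
      have h3 : (fun a => (stdSA.L4 i (q4 F hF.smooth) a).1 n') =
          comp4 (fderiv ℝ F n' (rotv i n')) := by
        funext a
        exact q4_L F hF.smooth i a n'
      rw [mnk_ev, ← hlc, h3, mnk_comp] at h2
      exact h2
    have hsq := S2_sq n hn
    have hen : e 0 * n 0 + e 1 * n 1 + e 2 * n 2 = 0 := by
      rw [PiLp.inner_apply, Fin.sum_univ_three] at he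
      simp only [RCLike.inner_apply, conj_trivial] at he
      linarith
    set v : Fin 3 → ℝ := ![n 1 * e 2 - n 2 * e 1, n 2 * e 0 - n 0 * e 2, n 0 * e 1 - n 1 * e 0] with hv
    have hev : e = ∑ i, v i • rotv i n := by
      ext k
      rw [rot_comb]
      have e1 : (1 + 1 : Fin 3) = 2 := rfl
      have e2 : (1 + 2 : Fin 3) = 0 := rfl
      have e3 : (2 + 1 : Fin 3) = 0 := rfl
      have e4 : (2 + 2 : Fin 3) = 1 := rfl
      fin_cases k
      · simp only [Fin.zero_eta, Fin.isValue, zero_add, hv, Matrix.cons_val_one, Matrix.cons_val]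
        linear_combination (-e 0) * hsq + n 0 * hen
      · simp only [Fin.mk_one, Fin.isValue, e1, e2, hv, Matrix.cons_val_zero, Matrix.cons_val]
        linear_combination (-e 1) * hsq + n 1 * hen
      · simp only [Fin.reduceFinMk, Fin.isValue, e3, e4, hv, Matrix.cons_val_zero,
          Matrix.cons_val_one]
        linear_combination (-e 2) * hsq + n 2 * hen
    have hlin : mink (fderiv ℝ F n e) (l n) = ∑ i, v i * mink (fderiv ℝ F n (rotv i n)) (l n) := by
      rw [hev]
      unfold mink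
      simp only [Fin.sum_univ_three, map_add, map_smul, Prod.fst_add, Prod.snd_add, Prod.smul_fst,
        Prod.smul_snd, PiLp.add_apply, PiLp.smul_apply, smul_eq_mul]
      ring
    rw [hlin]
    simp only [h0]
    simp

end NShell
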