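import Pool.Agent.Lib.NullShell.Surf

set_option autoImplicit false

/-!
Sphere algebra with points and an integral.
-/

namespace NShell

/-- Sphere algebra with evaluation at the points of `K` and a positive integral of total mass `4 pi`. -/
structure SM (R : Type*) [CommRing R] [Algebra ℝ R] (K : Type*) extends SA R where
  ev : K → (R →ₐ[ℝ] ℝ)
  I : R →ₗ[ℝ] ℝ
  Ipos : ∀ F : R, (∀ p, 0 ≤ ev p F) → 0 ≤ I F
  I0 : ∀ i (F : R), I (L i F) = 0
  I1 : I 1 = 4 * Real.pi

namespace SM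

variable {R : Type*} [CommRing R] [Algebra ℝ R] {K : Type*} (S : SM R K)

/-- Hypotheses on the surface data: `(1,-x)` is normal, `B` is positive definite (trace and determinant positive),
`b` is the tangential vector with `B b = d tau`. -/
structure Dat (X : Fin 3 → R) (tau : R) (b : Fin 3 → R) : Prop where
  nor : S.toSA.Nor X tau
  spos : ∀ p, 0 < S.ev p (S.toSA.tB X)
  dpos : ∀ p, 0 < S.ev p (S.toSA.dB X)
  bx : ∑ j, S.x j * b j = 0
  bB : ∀ i, ∑ j, S.toSA.fB X i j * b j = S.L i tau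

/-- The energy integral. -/
noncomputable def En (X : Fin 3 → R) (b : Fin 3 → R) : ℝ := S.I (S.toSA.tB X * (1 + ∑ i, b i ^ 2))

/-- Approximate positive solutions of `psi - 2 lap psi = mu s psi`. -/
def Perron (s : R) : Prop := ∃ μ : ℝ, 0 < μ ∧ ∀ ε : ℝ, 0 < ε → ∃ ψ g : R, (∀ p, 0 < S.ev p ψ) ∧
  (∀ i, ψ * S.L i g = 2 * S.L i ψ) ∧
  ∀ p, |S.ev p (ψ - 2 * S.toSA.lap ψ - μ • (s * ψ))| ≤ ε * S.ev p ψ

end SM
end NShell
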