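import Pool.Agent.Lib.NullShell.Kern
import Pool.Agent.Lib.NullShell.SkA1

set_option autoImplicit false

/-!
Chunk P2. `uu a b` for fixed `a` is the element `u_a = (1 + sum_i x_i(a) x_i)/2` of `SFun`.
-/

open Filter Topology Set MeasureTheory

namespace NShell

open Pool.Agent.Lib.PenroseSph (E3 S2 sm)

namespace SA

variable {R : Type*} [CommRing R] [Algebra ℝ R] (S : SA R)

theorem lap_pow (u : R) (m : ℕ) : S.lap (u ^ (m + 1)) =
    ((m : R) + 1) * u ^ m * S.lap u + ((m : R) + 1) * m * u ^ (m - 1) * S.gam u u := by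
  have key : ∀ j, S.L j (S.L j (u ^ (m + 1))) =
      ((m : R) + 1) * u ^ m * S.L j (S.L j u) + ((m : R) + 1) * m * u ^ (m - 1) * (S.L j u * S.L j u) := by
    intro j
    have e1 : S.L j (u ^ (m + 1)) = ((m : R) + 1) * (u ^ m * S.L j u) := by
      rw [Derivation.leibniz_pow]
      simp only [Nat.add_sub_cancel, nsmul_eq_mul, smul_eq_mul]
      push_cast
      ring
    have e2 : S.L j ((m : R) + 1) = 0 := by
      have : ((m : R) + 1) = algebraMap ℝ R ((m : ℝ) + 1) := by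
        rw [map_add, map_one, map_natCast]
      rw [this]
      exact (S.L j).map_algebraMap _
    have e3 : S.L j (u ^ m) = (m : R) * (u ^ (m - 1) * S.L j u) := by
      rw [Derivation.leibniz_pow]
      simp only [nsmul_eq_mul, smul_eq_mul]
    rw [e1, Derivation.leibniz, e2, Derivation.leibniz, e3]
    simp only [smul_eq_mul, mul_zero, add_zero]
    ring
  unfold lap gam
  rw [Finset.sum_congr rfl fun j _ => key j, Finset.sum_add_distrib, Finset.mul_sum, Finset.mul_sum]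

/-- The linear functions `(1 + <a, x>)/2` with `|a| = 1`. -/
theorem lin_gam (c : R) (hc : 2 * c = 1) (hcL : ∀ j, S.L j c = 0) (α : Fin 3 → R) (hα : ∀ i j, S.L j (α i) = 0)
    (h1 : α 0 * α 0 + α 1 * α 1 + α 2 * α 2 = 1) :
    S.gam (c * (1 + ∑ i, α i * S.x i)) (c * (1 + ∑ i, α i * S.x i)) =
      (c * (1 + ∑ i, α i * S.x i)) * (1 - c * (1 + ∑ i, α i * S.x i)) := by
  have hx := S.sq
  unfold gam
  simp only [Fin.sum_univ_three, Derivation.leibniz, map_add, hcL, hα, Derivation.map_one_eq_zero, smul_eq_mul,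
    S.L00, S.L01, S.L02, S.L10, S.L11, S.L12, S.L20, S.L21, S.L22, mul_zero, add_zero, zero_add]
  linear_combination (c ^ 2) * h1 + c ^ 2 * (α 0 * α 0 + α 1 * α 1 + α 2 * α 2) * hx
    + c * (1 + (α 0 * S.x 0 + α 1 * S.x 1 + α 2 * S.x 2)) * hc

theorem lin_lap (c : R) (hc : 2 * c = 1) (hcL : ∀ j, S.L j c = 0) (α : Fin 3 → R) (hα : ∀ i j, S.L j (α i) = 0) :
    S.lap (c * (1 + ∑ i, α i * S.x i)) = 1 - 2 * (c * (1 + ∑ i, α i * S.x i)) := by
  unfold lap
  simp only [Fin.sum_univ_three, Derivation.leibniz, map_add, hcL, hα, Derivation.map_one_eq_zero, smul_eq_mul,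
    S.L00, S.L01, S.L02, S.L10, S.L11, S.L12, S.L20, S.L21, S.L22, mul_zero, add_zero, zero_add, map_neg, map_zero]
  linear_combination hc

end SA

namespace Fr
variable (A : Fr)

theorem sq_ev (a : S2) : (A.sa.x 0).1 a * (A.sa.x 0).1 a + (A.sa.x 1).1 a * (A.sa.x 1).1 a
    + (A.sa.x 2).1 a * (A.sa.x 2).1 a = 1 := by
  have h := congrFun (congrArg Subtype.val A.sa.sq) a
  exact h

theorem uu_symm (a b : S2) : A.uu a b = A.uu b a := by
  unfold uu
  congr 2
  exact Finset.sum_congr rfl fun i _ => mul_comm _ _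

theorem uu_self (a : S2) : A.uu a a = 1 := by
  unfold uu
  rw [Fin.sum_univ_three, A.sq_ev a]
  norm_num

theorem uu_dist (a b : S2) : 1 - A.uu a b = (∑ i, ((A.sa.x i).1 a - (A.sa.x i).1 b) ^ 2) / 4 := by
  have ha := A.sq_ev a
  have hb := A.sq_ev b
  unfold uu
  rw [Fin.sum_univ_three, Fin.sum_univ_three]
  linear_combination (-1 / 4) * ha + (-1 / 4) * hb

theorem uu_nonneg (a b : S2) : 0 ≤ A.uu a b := by
  have ha := A.sq_ev a
  have hb := A.sq_ev b
  unfold uu
  rw [Fin.sum_univ_three]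
  nlinarith [sq_nonneg ((A.sa.x 0).1 a + (A.sa.x 0).1 b), sq_nonneg ((A.sa.x 1).1 a + (A.sa.x 1).1 b),
    sq_nonneg ((A.sa.x 2).1 a + (A.sa.x 2).1 b)]

theorem uu_le_one (a b : S2) : A.uu a b ≤ 1 := by
  have h := A.uu_dist a b
  have h2 : 0 ≤ (∑ i, ((A.sa.x i).1 a - (A.sa.x i).1 b) ^ 2) / 4 :=
    div_nonneg (Finset.sum_nonneg fun i _ => sq_nonneg _) (by norm_num)
  linarith

theorem uu_cont : Continuous (Function.uncurry A.uu) := by
  have h : ∀ i, Continuous (A.sa.x i).1 := fun i => SFun_cont _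
  unfold Function.uncurry uu
  refine Continuous.div_const (continuous_const.add ?_) _
  exact continuous_finsetSum _ fun i _ => ((h i).comp continuous_fst).mul ((h i).comp continuous_snd)

/-- `u_a` as an element of `SFun`. -/
noncomputable def ua (a : S2) : SFun := (1 / 2 : ℝ) • (1 + ∑ i, (A.sa.x i).1 a • A.sa.x i)

theorem ua_apply (a b : S2) : (A.ua a).1 b = A.uu a b := by
  unfold ua uu
  rw [Fin.sum_univ_three, Fin.sum_univ_three]
  change (1 / 2 : ℝ) * (1 + ((A.sa.x 0).1 a * (A.sa.x 0).1 b + (A.sa.x 1).1 a * (A.sa.x 1).1 b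
    + (A.sa.x 2).1 a * (A.sa.x 2).1 b)) = _
  ring

theorem ua_eq (a : S2) : A.ua a = algebraMap ℝ SFun (1 / 2) * (1 + ∑ i, algebraMap ℝ SFun ((A.sa.x i).1 a) * A.sa.x i) := by
  unfold ua
  simp only [Algebra.smul_def]

theorem ua_gam (a : S2) : A.sa.gam (A.ua a) (A.ua a) = A.ua a * (1 - A.ua a) := by
  rw [ua_eq]
  refine A.sa.lin_gam _ ?_ (fun j => (A.sa.L j).map_algebraMap _) (fun i => algebraMap ℝ SFun ((A.sa.x i).1 a))
    (fun i j => (A.sa.L j).map_algebraMap _) ?_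
  · have h2 : (2 : SFun) = algebraMap ℝ SFun 2 := (map_ofNat (algebraMap ℝ SFun) 2).symm
    rw [h2, ← map_mul]
    norm_num
  · simp only [← map_mul, ← map_add, A.sq_ev a, map_one]

theorem ua_lap1 (a : S2) : A.sa.lap (A.ua a) = 1 - 2 * A.ua a := by
  rw [ua_eq]
  refine A.sa.lin_lap _ ?_ (fun j => (A.sa.L j).map_algebraMap _) (fun i => algebraMap ℝ SFun ((A.sa.x i).1 a))
    (fun i j => (A.sa.L j).map_algebraMap _)
  have h2 : (2 : SFun) = algebraMap ℝ SFun 2 := (map_ofNat (algebraMap ℝ SFun) 2).symm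
  rw [h2, ← map_mul]
  norm_num

theorem ua_lap (a : S2) (n : ℕ) (hn : 1 ≤ n) : A.sa.lap (A.ua a ^ n) =
    ((n : ℝ) ^ 2) • A.ua a ^ (n - 1) - ((n : ℝ) * (n + 1)) • A.ua a ^ n := by
  obtain ⟨m, rfl⟩ : ∃ m, n = m + 1 := ⟨n - 1, by omega⟩
  rw [A.sa.lap_pow, A.ua_lap1, A.ua_gam]
  simp only [Nat.add_sub_cancel, Algebra.smul_def, map_mul, map_pow, map_add, map_one, map_natCast, Nat.cast_add,
    Nat.cast_one]
  rcases m with _ | k
  · simp only [Nat.cast_zero, pow_zero]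
    ring
  · simp only [Nat.add_sub_cancel]
    push_cast
    ring

theorem uu_moment (n : ℕ) (a : S2) : ∫ b, A.uu a b ^ n ∂A.m = 4 * Real.pi / (n + 1) := by
  haveI := A.fin
  have hI : ∀ n : ℕ, ∫ b, A.uu a b ^ n ∂A.m = A.int (A.ua a ^ n) := by
    intro n
    change _ = ∫ b, (A.ua a ^ n).1 b ∂A.m
    refine integral_congr_ae (Eventually.of_forall fun b => ?_)
    change A.uu a b ^ n = ((A.ua a).1 b) ^ n
    rw [A.ua_apply]
  induction n with
  | zero =>
    simp only [pow_zero, Nat.cast_zero, zero_add, div_one]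
    rw [integral_const, A.ione]
    simp
  | succ n ih =>
    have h0 : A.int (A.sa.lap (A.ua a ^ (n + 1))) = 0 :=
      A.sa.lap_zero A.int A.izero _
    rw [A.ua_lap a (n + 1) (by omega), Nat.add_sub_cancel, map_sub, map_smul, map_smul, ← hI, ← hI, ih] at h0
    simp only [smul_eq_mul] at h0
    push_cast at h0 ⊢
    have hp : (0 : ℝ) < (n : ℝ) + 1 := by positivity
    have hp2 : (0 : ℝ) < (n : ℝ) + 1 + 1 := by positivity
    field_simp at h0 ⊢
    have h3 : ((n : ℝ) + 1) * (4 * Real.pi - ((n : ℝ) + 1 + 1) * ∫ b, A.uu a b ^ (n + 1) ∂A.m) = 0 := by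
      linarith
    rcases mul_eq_zero.1 h3 with h4 | h4
    · linarith
    · linarith

end Fr
end NShell
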