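import Pool.Agent.Lib.NullShell.P2

set_option autoImplicit false

/-!
Chunk P3. `J_n f` is smooth (a polynomial in the coordinates), and its Laplacian.
-/

open Filter Topology Set MeasureTheory

namespace NShell

open Pool.Agent.Lib.PenroseSph (E3 S2 sm)

namespace SA

variable {R : Type*} [CommRing R] [Algebra ℝ R] (S : SA R)

theorem lap_x (j : Fin 3) : S.lap (S.x j) = -2 * S.x j := by
  unfold lap
  fin_cases j
  · simp only [Fin.sum_univ_three, Fin.zero_eta, S.L00, S.L10, S.L20, map_neg, map_zero, S.L12, S.L21]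
    ring
  · simp only [Fin.sum_univ_three, Fin.mk_one, S.L01, S.L11, S.L21, map_neg, map_zero, S.L02, S.L20]
    ring
  · simp only [Fin.sum_univ_three, Fin.reduceFinMk, S.L02, S.L12, S.L22, map_neg, map_zero, S.L01, S.L10]
    ring

theorem gam_x (j k : Fin 3) : S.gam (S.x j) (S.x k) = S.pr j k := by
  have h := S.sq
  unfold gam pr
  fin_cases j <;> fin_cases k <;>
    simp [Fin.sum_univ_three, S.L00, S.L10, S.L20, S.L12, S.L21, S.L01, S.L11, S.L02, S.L22]
  · linear_combination h
  · ring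
  · ring
  · ring
  · linear_combination h
  · ring
  · ring
  · ring
  · linear_combination h

end SA

namespace Fr
variable (A : Fr)

/-- `J_n f` as an element of `SFun`. -/
noncomputable def JS : ℕ → (S2 → ℝ) → SFun
  | 0, f => algebraMap ℝ SFun (∫ b, f b ∂A.m)
  | n + 1, f => algebraMap ℝ SFun (1 / 2) * (JS n f + ∑ i, A.sa.x i * JS n (fun b => (A.sa.x i).1 b * f b))

theorem JJ_succ (n : ℕ) (f : S2 → ℝ) (hf : Continuous f) (a : S2) :
    A.JJ (n + 1) f a = 1 / 2 * (A.JJ n f a + ∑ i, (A.sa.x i).1 a * A.JJ n (fun b => (A.sa.x i).1 b * f b) a) := by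
  have hx : ∀ i, Continuous (A.sa.x i).1 := fun i => SFun_cont _
  have hu : Continuous (fun b => A.uu a b) := A.uu_cont.comp (Continuous.prodMk_right a)
  have e : ∀ b, A.uu a b ^ (n + 1) * f b = 1 / 2 * (A.uu a b ^ n * f b
      + ∑ i, (A.sa.x i).1 a * (A.uu a b ^ n * ((A.sa.x i).1 b * f b))) := by
    intro b
    have e1 : A.uu a b = (1 + ∑ i, (A.sa.x i).1 a * (A.sa.x i).1 b) / 2 := rfl
    rw [pow_succ]
    nth_rewrite 2 [e1]
    rw [Fin.sum_univ_three, Fin.sum_univ_three]
    ring
  unfold JJ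
  simp only [e]
  rw [integral_const_mul, integral_add, integral_finsetSum]
  · simp only [integral_const_mul]
  · intro i _
    exact A.integrable _ (continuous_const.mul ((hu.pow n).mul ((hx i).mul hf)))
  · exact A.integrable _ ((hu.pow n).mul hf)
  · exact A.integrable _ (continuous_finsetSum _ fun i _ => continuous_const.mul ((hu.pow n).mul ((hx i).mul hf)))

theorem JS_val (n : ℕ) : ∀ (f : S2 → ℝ), Continuous f → ∀ a, (A.JS n f).1 a = A.JJ n f a := by
  have hx : ∀ i, Continuous (A.sa.x i).1 := fun i => SFun_cont _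
  induction n with
  | zero =>
    intro f hf a
    unfold JJ
    simp only [pow_zero, one_mul]
    rfl
  | succ n ih =>
    intro f hf a
    rw [A.JJ_succ n f hf a, ← ih f hf a]
    have e : ∀ i, A.JJ n (fun b => (A.sa.x i).1 b * f b) a = (A.JS n (fun b => (A.sa.x i).1 b * f b)).1 a :=
      fun i => (ih _ ((hx i).mul hf) a).symm
    simp only [e, Fin.sum_univ_three]
    change (algebraMap ℝ SFun (1 / 2) * (A.JS n f + ∑ i, A.sa.x i * A.JS n (fun b => (A.sa.x i).1 b * f b))).1 a = _
    rw [Fin.sum_univ_three]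
    rfl

theorem JS_der (n : ℕ) : ∀ (f : S2 → ℝ) (i : Fin 3), A.sa.L i (A.JS n f) =
    algebraMap ℝ SFun ((n : ℝ) / 2) * ∑ j, A.sa.L i (A.sa.x j) * A.JS (n - 1) (fun b => (A.sa.x j).1 b * f b) := by
  induction n with
  | zero =>
    intro f i
    simp only [Nat.cast_zero, zero_div, map_zero, zero_mul]
    exact (A.sa.L i).map_algebraMap _
  | succ n ih =>
    intro f i
    have hL : ∀ c : ℝ, A.sa.L i (algebraMap ℝ SFun c) = 0 := fun c => (A.sa.L i).map_algebraMap c
    change A.sa.L i (algebraMap ℝ SFun (1 / 2) * (A.JS n f + ∑ k, A.sa.x k * A.JS n (fun b => (A.sa.x k).1 b * f b))) = _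
    rw [Derivation.leibniz, hL, smul_zero, add_zero, smul_eq_mul, map_add, map_sum]
    simp only [Derivation.leibniz, smul_eq_mul]
    rw [ih f i]
    have e1 : ∀ k, A.sa.L i (A.JS n (fun b => (A.sa.x k).1 b * f b)) = algebraMap ℝ SFun ((n : ℝ) / 2) *
        ∑ j, A.sa.L i (A.sa.x j) * A.JS (n - 1) (fun b => (A.sa.x k).1 b * ((A.sa.x j).1 b * f b)) := by
      intro k
      rw [ih]
      congr 1
      refine Finset.sum_congr rfl fun j _ => ?_
      congr 2
      funext b
      ring
    simp only [e1]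
    rcases n with _ | m
    · simp only [Nat.cast_zero, zero_div, map_zero, zero_mul, zero_add, mul_zero, Nat.zero_sub]
      congr 1
      · norm_num
      · refine Finset.sum_congr rfl fun j _ => ?_
        ring
    · have e2 : ∀ j, A.JS (m + 1) (fun b => (A.sa.x j).1 b * f b) = algebraMap ℝ SFun (1 / 2) *
          (A.JS m (fun b => (A.sa.x j).1 b * f b) + ∑ k, A.sa.x k * A.JS m (fun b => (A.sa.x k).1 b * ((A.sa.x j).1 b * f b))) := by
        intro j; rfl
      have e3 : algebraMap ℝ SFun (((m + 1 + 1 : ℕ) : ℝ) / 2) = algebraMap ℝ SFun (((m + 1 : ℕ) : ℝ) / 2) +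
          algebraMap ℝ SFun (1 / 2) := by
        rw [← map_add]; congr 1; push_cast; ring
      simp only [Nat.add_sub_cancel, e3, e2]
      simp only [Fin.sum_univ_three]
      have hc : 2 * algebraMap ℝ SFun (1 / 2) = 1 := by
        have h2 : (2 : SFun) = algebraMap ℝ SFun 2 := (map_ofNat (algebraMap ℝ SFun) 2).symm
        rw [h2, ← map_mul]
        norm_num
      ring

theorem lap_JS (n : ℕ) (f : S2 → ℝ) : A.sa.lap (A.JS (n + 1) f) =
    algebraMap ℝ SFun (((n : ℝ) + 1) / 2) * ((∑ j, -2 * A.sa.x j * A.JS n (fun b => (A.sa.x j).1 b * f b))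
      + algebraMap ℝ SFun ((n : ℝ) / 2) * ∑ j, ∑ k, A.sa.pr j k *
        A.JS (n - 1) (fun b => (A.sa.x k).1 b * ((A.sa.x j).1 b * f b))) := by
  have hL : ∀ (i : Fin 3) (c : ℝ), A.sa.L i (algebraMap ℝ SFun c) = 0 := fun i c => (A.sa.L i).map_algebraMap c
  have e1 : ∀ i, A.sa.L i (A.sa.L i (A.JS (n + 1) f)) = algebraMap ℝ SFun (((n : ℝ) + 1) / 2) *
      ∑ j, (A.sa.L i (A.sa.L i (A.sa.x j)) * A.JS n (fun b => (A.sa.x j).1 b * f b) +
        algebraMap ℝ SFun ((n : ℝ) / 2) * ∑ k, A.sa.L i (A.sa.x j) * A.sa.L i (A.sa.x k) *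
        A.JS (n - 1) (fun b => (A.sa.x k).1 b * ((A.sa.x j).1 b * f b))) := by
    intro i
    rw [A.JS_der (n + 1) f i, Derivation.leibniz, hL, smul_zero, add_zero, smul_eq_mul, map_sum]
    congr 1
    · push_cast; rfl
    refine Finset.sum_congr rfl fun j _ => ?_
    rw [Derivation.leibniz, smul_eq_mul, smul_eq_mul, Nat.add_sub_cancel, A.JS_der n _ i]
    rw [add_comm, mul_comm (A.JS n _)]
    congr 1
    rw [mul_left_comm, Finset.mul_sum]
    congr 1
    refine Finset.sum_congr rfl fun k _ => ?_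
    ring
  have e2 : A.sa.lap (A.JS (n + 1) f) = ∑ i, A.sa.L i (A.sa.L i (A.JS (n + 1) f)) := rfl
  rw [e2, Finset.sum_congr rfl fun i _ => e1 i, ← Finset.mul_sum]
  congr 1
  rw [Finset.sum_comm]
  simp only [Finset.sum_add_distrib]
  congr 1
  · refine Finset.sum_congr rfl fun j _ => ?_
    rw [← Finset.sum_mul]
    have := A.sa.lap_x j
    unfold SA.lap at this
    rw [this]
  · simp only [← Finset.mul_sum]
    congr 1
    refine Finset.sum_congr rfl fun j _ => ?_
    rw [Finset.sum_comm]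
    refine Finset.sum_congr rfl fun k _ => ?_
    rw [← Finset.sum_mul]
    have := A.sa.gam_x j k
    unfold SA.gam at this
    rw [this]

theorem JJ_smooth (n : ℕ) (f : S2 → ℝ) (hf : Continuous f) : ∃ g : SFun, (∀ a, g.1 a = A.JJ n f a) ∧
    ∀ a, (A.sa.lap g).1 a = (n : ℝ) ^ 2 * A.JJ (n - 1) f a - (n : ℝ) * (n + 1) * A.JJ n f a := by
  have hx : ∀ i, Continuous (A.sa.x i).1 := fun i => SFun_cont _
  refine ⟨A.JS n f, A.JS_val n f hf, fun a => ?_⟩
  rcases n with _ | n
  · simp only [Nat.cast_zero]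
    have : A.sa.lap (A.JS 0 f) = 0 := by
      unfold SA.lap
      refine Finset.sum_eq_zero fun i _ => ?_
      have : A.sa.L i (A.JS 0 f) = 0 := (A.sa.L i).map_algebraMap _
      rw [this, map_zero]
    rw [this]
    change (0 : ℝ) = _
    ring
  · have e1 : (A.sa.lap (A.JS (n + 1) f)).1 a = ((n : ℝ) + 1) / 2 *
        ((∑ j, -2 * (A.sa.x j).1 a * A.JJ n (fun b => (A.sa.x j).1 b * f b) a)
          + (n : ℝ) / 2 * ∑ j, ∑ k, ((if j = k then 1 else 0) - (A.sa.x j).1 a * (A.sa.x k).1 a) *
            A.JJ (n - 1) (fun b => (A.sa.x k).1 b * ((A.sa.x j).1 b * f b)) a) := by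
      have e0 : (A.sa.lap (A.JS (n + 1) f)).1 a = evS a (A.sa.lap (A.JS (n + 1) f)) := rfl
      rw [e0, A.lap_JS n f]
      have h1 : ∀ j, A.JJ n (fun b => (A.sa.x j).1 b * f b) a = (A.JS n (fun b => (A.sa.x j).1 b * f b)).1 a :=
        fun j => (A.JS_val n _ ((hx j).mul hf) a).symm
      have h2 : ∀ j k, A.JJ (n - 1) (fun b => (A.sa.x k).1 b * ((A.sa.x j).1 b * f b)) a =
          (A.JS (n - 1) (fun b => (A.sa.x k).1 b * ((A.sa.x j).1 b * f b))).1 a :=
        fun j k => (A.JS_val (n - 1) _ ((hx k).mul ((hx j).mul hf)) a).symm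
      simp only [h1, h2]
      have h4 : ∀ j k, evS a (A.sa.pr j k) = (if j = k then 1 else 0) - evS a (A.sa.x j) * evS a (A.sa.x k) := by
        intro j k
        unfold SA.pr
        rw [map_sub, map_mul]
        congr 1
        split_ifs <;> simp
      have h5 : evS a (-2 : SFun) = -2 := by
        rw [map_neg, map_ofNat]
      simp only [map_mul, map_add, map_sum, AlgHom.commutes, h4, h5, Algebra.algebraMap_self_apply]
      rfl
    rw [e1]
    have hJ : ∀ (m : ℕ) (F : S2 → ℝ), Continuous F → ∑ i, (A.sa.x i).1 a * A.JJ m (fun b => (A.sa.x i).1 b * F b) a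
        = 2 * A.JJ (m + 1) F a - A.JJ m F a := by
      intro m F hF
      rw [A.JJ_succ m F hF a]
      ring
    have h6 := hJ n f hf
    have h7 : ∑ j, -2 * (A.sa.x j).1 a * A.JJ n (fun b => (A.sa.x j).1 b * f b) a =
        -2 * (2 * A.JJ (n + 1) f a - A.JJ n f a) := by
      rw [← h6, Finset.mul_sum]
      exact Finset.sum_congr rfl fun j _ => by ring
    rw [h7]
    rcases n with _ | m
    · simp only [Nat.cast_zero, zero_div, zero_mul, Nat.cast_one, Nat.zero_add]
      norm_num
      ring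
    · have h8 : ∑ j, ∑ k, ((if j = k then 1 else 0) - (A.sa.x j).1 a * (A.sa.x k).1 a) *
            A.JJ m (fun b => (A.sa.x k).1 b * ((A.sa.x j).1 b * f b)) a
          = A.JJ m f a - (4 * A.JJ (m + 1 + 1) f a - 4 * A.JJ (m + 1) f a + A.JJ m f a) := by
        have h9 : ∀ j, ∑ k, (A.sa.x j).1 a * (A.sa.x k).1 a * A.JJ m (fun b => (A.sa.x k).1 b * ((A.sa.x j).1 b * f b)) a
            = (A.sa.x j).1 a * (2 * A.JJ (m + 1) (fun b => (A.sa.x j).1 b * f b) a - A.JJ m (fun b => (A.sa.x j).1 b * f b) a) := by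
          intro j
          rw [← hJ m (fun b => (A.sa.x j).1 b * f b) ((hx j).mul hf), Finset.mul_sum]
          exact Finset.sum_congr rfl fun k _ => by ring
        have h10 : ∑ j, A.JJ m (fun b => (A.sa.x j).1 b * ((A.sa.x j).1 b * f b)) a = A.JJ m f a := by
          have hu : Continuous (fun b => A.uu a b) := A.uu_cont.comp (Continuous.prodMk_right a)
          unfold JJ
          rw [← integral_finsetSum]
          · refine integral_congr_ae (Eventually.of_forall fun b => ?_)
            have := A.sq_ev b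
            simp only [Fin.sum_univ_three]
            linear_combination (A.uu a b ^ m * f b) * this
          · intro j _
            exact A.integrable _ ((hu.pow m).mul ((hx j).mul ((hx j).mul hf)))
        have h11 : ∑ j, ∑ k, (if j = k then (1 : ℝ) else 0) * A.JJ m (fun b => (A.sa.x k).1 b * ((A.sa.x j).1 b * f b)) a
            = A.JJ m f a := by
          rw [← h10]
          refine Finset.sum_congr rfl fun j _ => ?_
          simp
        have h12 : ∑ j, (A.sa.x j).1 a * (2 * A.JJ (m + 1) (fun b => (A.sa.x j).1 b * f b) a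
            - A.JJ m (fun b => (A.sa.x j).1 b * f b) a) = 4 * A.JJ (m + 1 + 1) f a - 4 * A.JJ (m + 1) f a + A.JJ m f a := by
          have a1 := hJ (m + 1) f hf
          have a2 := hJ m f hf
          simp only [Fin.sum_univ_three] at a1 a2 ⊢
          linear_combination 2 * a1 - a2
        simp only [sub_mul, Finset.sum_sub_distrib]
        rw [h11, Finset.sum_congr rfl fun j _ => h9 j, h12]
      simp only [Nat.add_sub_cancel]
      rw [h8]
      push_cast
      ring

end Fr
end NShell
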