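import Pool.Agent.Lib.NullShell.SkP1
import Pool.Agent.Lib.NullShell.SkP2

set_option autoImplicit false

/-!
Chunk P4. Approximate identity. `P_N f(a) = 2 (N+1)^2 c_(N+1) J_N f(a)`; `∫ 2 (N+1)^2 c_(N+1) u^N = 8π (N+1) c_(N+1) -> lam`.
`|P_N f(a) - 8π(N+1)c_(N+1) f(a)| <= 2(N+1)^2 c_(N+1) ∫ u^N |f(b) - f(a)|`. Uniform continuity in terms of `u`: for every `η > 0` there is `δ > 0`
with `1 - u(a,b) < δ -> |f a - f b| < η` (compactness of `S2 × S2`: the continuous function `1 - u` vanishes only on the diagonal by `inj` and `uu_dist`).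
Far part: `u^N <= (1-δ)^N`, and `(N+1)^2 c_(N+1) (1-δ)^N -> 0`.
-/

open Filter Topology Set MeasureTheory

namespace NShell

open Pool.Agent.Lib.PenroseSph (E3 S2 sm)

namespace Fr
variable (A : Fr)

theorem uu_eq_one {a b : S2} (h : 1 - A.uu a b = 0) : a = b := by
  apply A.inj
  have h1 := A.uu_dist a b
  rw [h] at h1
  have h2 : ∑ i, ((A.sa.x i).1 a - (A.sa.x i).1 b) ^ 2 = 0 := by linarith
  intro i
  have h3 := (Finset.sum_eq_zero_iff_of_nonneg (fun i _ => sq_nonneg _)).1 h2 i (Finset.mem_univ i)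
  have h4 := pow_eq_zero_iff (two_ne_zero) |>.1 h3
  linarith

theorem uu_unif (f : S2 → ℝ) (hf : Continuous f) (η : ℝ) (hη : 0 < η) :
    ∃ δ : ℝ, 0 < δ ∧ ∀ a b, 1 - A.uu a b < δ → |f a - f b| < η := by
  have hc : IsCompact {p : S2 × S2 | η ≤ |f p.1 - f p.2|} := by
    apply IsClosed.isCompact
    exact isClosed_le continuous_const (by fun_prop)
  have hg : Continuous fun p : S2 × S2 => 1 - Function.uncurry A.uu p :=
    continuous_const.sub A.uu_cont
  rcases ({p : S2 × S2 | η ≤ |f p.1 - f p.2|}).eq_empty_or_nonempty with he | hne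
  · refine ⟨1, one_pos, fun a b _ => ?_⟩
    by_contra hcon
    have : (a, b) ∈ {p : S2 × S2 | η ≤ |f p.1 - f p.2|} := not_lt.1 hcon
    rw [he] at this
    exact this
  · obtain ⟨p, hp, hmin⟩ := hc.exists_isMinOn hne hg.continuousOn
    refine ⟨1 - A.uu p.1 p.2, ?_, ?_⟩
    · rcases (sub_nonneg.2 (A.uu_le_one p.1 p.2)).lt_or_eq with h | h
      · exact h
      · exfalso
        have h1 := A.uu_eq_one h.symm
        have h2 : η ≤ |f p.1 - f p.2| := hp
        rw [h1] at h2
        simp at h2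
        linarith
    · intro a b hab
      by_contra hcon
      have h1 : (a, b) ∈ {p : S2 × S2 | η ≤ |f p.1 - f p.2|} := not_lt.1 hcon
      have h2 := hmin h1
      have h3 : 1 - A.uu p.1 p.2 ≤ 1 - A.uu a b := h2
      linarith

theorem p4_cont (a : S2) : Continuous (A.uu a) := A.uu_cont.comp (Continuous.prodMk_right a)

/-- The local estimate. -/
theorem p4_local (f : S2 → ℝ) (hf : Continuous f) {M η δ : ℝ} (hM : ∀ b, |f b| ≤ M) (hM0 : 0 ≤ M)
    (hη : 0 ≤ η) (hδ1 : δ ≤ 1)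
    (h : ∀ a b, 1 - A.uu a b < δ → |f a - f b| < η) (N : ℕ) (a : S2) :
    |A.JJ N f a - 4 * Real.pi / (N + 1) * f a| ≤
      η * (4 * Real.pi / (N + 1)) + 2 * M * (1 - δ) ^ N * (4 * Real.pi) := by
  have hfin := A.fin
  have hu := A.p4_cont a
  have hmom := A.uu_moment N a
  have e1 : A.JJ N f a - 4 * Real.pi / (N + 1) * f a
      = ∫ b, A.uu a b ^ N * (f b - f a) ∂A.m := by
    rw [← hmom, ← integral_mul_const]
    unfold JJ
    rw [← integral_sub (A.integrable _ (by fun_prop)) (A.integrable _ (by fun_prop))]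
    congr 1
    funext b
    ring
  rw [e1]
  refine (abs_integral_le_integral_abs).trans ?_
  have h1 : ∀ b, |A.uu a b ^ N * (f b - f a)| ≤ η * A.uu a b ^ N + 2 * M * (1 - δ) ^ N := by
    intro b
    have hu0 := A.uu_nonneg a b
    have hp : 0 ≤ A.uu a b ^ N := pow_nonneg hu0 N
    have hr : 0 ≤ (1 - δ) ^ N := pow_nonneg (by linarith) N
    rw [abs_mul, abs_of_nonneg hp]
    by_cases hb : 1 - A.uu a b < δ
    · have h2 := (h a b hb).le
      rw [abs_sub_comm] at h2
      have h3 := mul_le_mul_of_nonneg_left h2 hp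
      have h4 : 0 ≤ 2 * M * (1 - δ) ^ N := by positivity
      linarith
    · have h2 : A.uu a b ≤ 1 - δ := by linarith
      have h3 : A.uu a b ^ N ≤ (1 - δ) ^ N := pow_le_pow_left₀ hu0 h2 N
      have h4 : |f b - f a| ≤ 2 * M := by
        have h5 := abs_sub (f b) (f a)
        have h6 := hM b
        have h7 := hM a
        linarith
      have h8 : A.uu a b ^ N * |f b - f a| ≤ (1 - δ) ^ N * (2 * M) :=
        mul_le_mul h3 h4 (abs_nonneg _) hr
      have h9 : 0 ≤ η * A.uu a b ^ N := mul_nonneg hη hp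
      linarith
  have h2 : ∫ b, |A.uu a b ^ N * (f b - f a)| ∂A.m
      ≤ ∫ b, (η * A.uu a b ^ N + 2 * M * (1 - δ) ^ N) ∂A.m := by
    apply integral_mono
    · exact A.integrable _ (by fun_prop)
    · exact A.integrable _ (by fun_prop)
    · exact h1
  refine h2.trans (le_of_eq ?_)
  rw [integral_add (A.integrable _ (by fun_prop)) (A.integrable _ (by fun_prop)),
    integral_const_mul, hmom, integral_const, A.ione, smul_eq_mul]
  ring

theorem approx_id (lam : ℝ) (hlam : Tendsto (fun N : ℕ => 8 * Real.pi * (N + 1) * ck (N + 1)) atTop (𝓝 lam))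
    (f : S2 → ℝ) (hf : Continuous f) (ε : ℝ) (hε : 0 < ε) :
    ∃ N0 : ℕ, ∀ N : ℕ, N0 ≤ N → ∀ a, |2 * ((N : ℝ) + 1) ^ 2 * ck (N + 1) * A.JJ N f a - lam * f a| ≤ ε := by
  obtain ⟨M0, hM0⟩ := (isCompact_univ (X := S2)).exists_bound_of_continuousOn hf.continuousOn
  obtain ⟨M, hMp, hM⟩ : ∃ M : ℝ, 0 ≤ M ∧ ∀ b, |f b| ≤ M :=
    ⟨max M0 0, le_max_right _ _, fun b => (hM0 b (mem_univ b)).trans (le_max_left _ _)⟩
  have hpi := Real.pi_pos
  have hlam0 : 0 ≤ lam := by
    apply ge_of_tendsto hlam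
    filter_upwards with N
    have := ck_pos (N + 1)
    positivity
  obtain ⟨C, hC0, hC⟩ := ck_bound
  -- the choice of the constants
  obtain ⟨δ0, hδ0, hunif⟩ := A.uu_unif f hf (ε / (4 * (lam + 1))) (by positivity)
  set η := ε / (4 * (lam + 1)) with hη
  have hη0 : 0 < η := by positivity
  set δ := min δ0 (1 / 2) with hδ
  have hδp : 0 < δ := lt_min hδ0 (by norm_num)
  have hδh : δ ≤ 1 / 2 := min_le_right _ _
  have hunif' : ∀ a b, 1 - A.uu a b < δ → |f a - f b| < η := fun a b hab =>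
    hunif a b (hab.trans_le (min_le_left _ _))
  have hr0 : 0 ≤ 1 - δ := by linarith
  have hr1 : 1 - δ < 1 := by linarith
  -- limits
  have hlim1 : Tendsto (fun N : ℕ => 16 * Real.pi * M * C * (((N : ℝ) + 1) * (1 - δ) ^ N)) atTop (𝓝 0) := by
    have h1 := tendsto_self_mul_const_pow_of_lt_one hr0 hr1
    have h2 := tendsto_pow_atTop_nhds_zero_of_lt_one hr0 hr1
    have h3 := (h1.add h2).const_mul (16 * Real.pi * M * C)
    rw [add_zero, mul_zero] at h3
    refine h3.congr fun N => ?_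
    ring
  have ev1 : ∀ᶠ N : ℕ in atTop, 16 * Real.pi * M * C * (((N : ℝ) + 1) * (1 - δ) ^ N) < ε / 4 :=
    hlim1.eventually_lt_const (by positivity)
  have ev2 : ∀ᶠ N : ℕ in atTop, |8 * Real.pi * (N + 1) * ck (N + 1) - lam| < min 1 (ε / (4 * (M + 1))) := by
    have h := (Metric.tendsto_nhds.1 hlam) (min 1 (ε / (4 * (M + 1)))) (by positivity)
    exact h
  obtain ⟨N0, hN0⟩ := eventually_atTop.1 (ev1.and ev2)
  refine ⟨N0, fun N hN a => ?_⟩
  obtain ⟨h1, h2⟩ := hN0 N hN
  have h2a := h2.trans_le (min_le_left _ _)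
  have h2b := h2.trans_le (min_le_right _ _)
  have hckp := ck_pos (N + 1)
  have hloc := A.p4_local f hf hM hMp hη0.le (by linarith) hunif' N a
  set w : ℝ := 2 * ((N : ℝ) + 1) ^ 2 * ck (N + 1) with hw
  have hw0 : 0 < w := by positivity
  set L : ℝ := 8 * Real.pi * (N + 1) * ck (N + 1) with hL
  have hwL : w * (4 * Real.pi / (N + 1)) = L := by
    rw [hw, hL]
    field_simp
    ring
  have hL1 : L ≤ lam + 1 := by
    have := (abs_lt.1 h2a).2
    linarith
  have hL0 : 0 < L := by positivity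
  have hwC : w ≤ 2 * C * ((N : ℝ) + 1) := by
    have h3 := hC (N + 1)
    push_cast at h3
    have h4 : ck (N + 1) ≤ C / ((N : ℝ) + 1) := by
      refine h3.trans ?_
      apply div_le_div_of_nonneg_left hC0.le (by positivity)
      linarith
    calc w = 2 * ((N : ℝ) + 1) ^ 2 * ck (N + 1) := rfl
      _ ≤ 2 * ((N : ℝ) + 1) ^ 2 * (C / ((N : ℝ) + 1)) := by gcongr
      _ = 2 * C * ((N : ℝ) + 1) := by field_simp
  have hmain : |w * A.JJ N f a - L * f a| ≤ ε / 4 + ε / 4 := by
    have e : w * A.JJ N f a - L * f a = w * (A.JJ N f a - 4 * Real.pi / (N + 1) * f a) := by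
      rw [← hwL]
      ring
    rw [e, abs_mul, abs_of_pos hw0]
    calc w * |A.JJ N f a - 4 * Real.pi / (N + 1) * f a|
        ≤ w * (η * (4 * Real.pi / (N + 1)) + 2 * M * (1 - δ) ^ N * (4 * Real.pi)) := by gcongr
      _ = η * (w * (4 * Real.pi / (N + 1))) + w * (2 * M * (1 - δ) ^ N * (4 * Real.pi)) := by ring
      _ = η * L + w * (2 * M * (1 - δ) ^ N * (4 * Real.pi)) := by rw [hwL]
      _ ≤ η * (lam + 1) + (2 * C * ((N : ℝ) + 1)) * (2 * M * (1 - δ) ^ N * (4 * Real.pi)) := by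
          have : 0 ≤ (1 - δ) ^ N := pow_nonneg hr0 N
          gcongr
      _ = η * (lam + 1) + 16 * Real.pi * M * C * (((N : ℝ) + 1) * (1 - δ) ^ N) := by ring
      _ ≤ ε / 4 + ε / 4 := by
          have : η * (lam + 1) = ε / 4 := by
            rw [hη]
            field_simp
          linarith
  have hsecond : |L * f a - lam * f a| ≤ ε / 4 := by
    rw [← sub_mul, abs_mul]
    calc |L - lam| * |f a| ≤ ε / (4 * (M + 1)) * M := by
          have := hM a
          gcongr
      _ ≤ ε / 4 := by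
          rw [div_mul_eq_mul_div, div_le_div_iff₀ (by positivity) (by norm_num)]
          nlinarith
  have htri : |w * A.JJ N f a - lam * f a| ≤ |w * A.JJ N f a - L * f a| + |L * f a - lam * f a| :=
    abs_sub_le _ _ _
  linarith

end Fr
end NShell
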