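import Pool.Agent.Lib.NullShell.SkP1
import Pool.Agent.Lib.NullShell.SkP2

set_option autoImplicit false

/-!
Chunk P5. The operator `KK`. `|J_n f| <= |f|_oo 4π/(n+1)` (`uu_moment`), `ck n <= C/(n+1)`: the series converges uniformly (Weierstrass test), each
`J_n f` is continuous. `KK_lower`: keep the term `n = 0` (`J_0 f = ∫ f`).
`KK_upper`: `J_n (s J_m f)(a) = ∫∫ u(a,b)^n s(b) u(b,c)^m f(c) <= |s|_oo ∫ f(c) (∫ u(a,b)^n u(b,c)^m db) dc` (Fubini for continuous functions on a compact
space) and `∫ u(a,b)^n u(b,c)^m db <= 4π/(max n m + 1)` (`uu_le_one`, `uu_symm`, `uu_moment`); sum with `ck_double`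
(partial sums: `KK` is the limit of partial sums in both places).
-/

open Filter Topology Set MeasureTheory

namespace NShell

open Pool.Agent.Lib.PenroseSph (E3 S2 sm)

namespace Fr
variable (A : Fr)

theorem uu_cont_left (a : S2) : Continuous (A.uu a) :=
  A.uu_cont.comp (Continuous.prodMk_right a)

theorem JJ_integrand_cont (n : ℕ) (f : S2 → ℝ) (hf : Continuous f) :
    Continuous (Function.uncurry fun a b => A.uu a b ^ n * f b) := by
  have h := A.uu_cont
  have h1 : Continuous fun p : S2 × S2 => Function.uncurry A.uu p ^ n * f p.2 := by fun_prop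
  exact h1

theorem JJ_integrable (n : ℕ) (f : S2 → ℝ) (hf : Continuous f) (a : S2) :
    Integrable (fun b => A.uu a b ^ n * f b) A.m := by
  apply A.integrable
  have := A.uu_cont_left a
  fun_prop

theorem JJ_cont (n : ℕ) (f : S2 → ℝ) (hf : Continuous f) : Continuous (A.JJ n f) := by
  have := A.fin
  have h := continuous_parametric_integral_of_continuous (μ := A.m)
    (A.JJ_integrand_cont n f hf) (isCompact_univ (X := S2))
  simp only [Measure.restrict_univ] at h
  exact h

/-- A bound of a continuous function. -/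
theorem exists_bound (f : S2 → ℝ) (hf : Continuous f) : ∃ M : ℝ, 0 ≤ M ∧ ∀ b, |f b| ≤ M := by
  obtain ⟨M, hM⟩ := (isCompact_univ (X := S2)).exists_bound_of_continuousOn hf.continuousOn
  refine ⟨max M 0, le_max_right _ _, fun b => ?_⟩
  exact (hM b (mem_univ b)).trans (le_max_left _ _)

theorem JJ_bound (n : ℕ) (f : S2 → ℝ) (hf : Continuous f) {M : ℝ} (hM : ∀ b, |f b| ≤ M) (a : S2) :
    |A.JJ n f a| ≤ M * (4 * Real.pi / (n + 1)) := by
  have h1 : |A.JJ n f a| ≤ ∫ b, A.uu a b ^ n * M ∂A.m := by
    unfold JJ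
    refine (abs_integral_le_integral_abs).trans ?_
    apply integral_mono
    · exact (A.JJ_integrable n f hf a).abs
    · exact A.JJ_integrable n (fun _ => M) continuous_const a
    · intro b
      show |A.uu a b ^ n * f b| ≤ A.uu a b ^ n * M
      rw [abs_mul, abs_of_nonneg (pow_nonneg (A.uu_nonneg a b) n)]
      exact mul_le_mul_of_nonneg_left (hM b) (pow_nonneg (A.uu_nonneg a b) n)
  rw [integral_mul_const, A.uu_moment] at h1
  linarith

/-- The terms of the series. -/
theorem term_bound (f : S2 → ℝ) (hf : Continuous f) : ∃ M : ℝ, 0 ≤ M ∧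
    ∀ (n : ℕ) (a : S2), ‖ck n * A.JJ n f a‖ ≤ M * (1 / ((n : ℝ) + 1) ^ 2) := by
  obtain ⟨M, hM0, hM⟩ := exists_bound f hf
  obtain ⟨C, hC0, hC⟩ := ck_bound
  refine ⟨C * M * (4 * Real.pi), by have := Real.pi_pos; positivity, fun n a => ?_⟩
  have h1 := A.JJ_bound n f hf hM a
  have h2 := hC n
  have h3 := ck_pos n
  have hpi := Real.pi_pos
  rw [Real.norm_eq_abs, abs_mul, abs_of_pos h3]
  calc ck n * |A.JJ n f a| ≤ (C / (n + 1)) * (M * (4 * Real.pi / (n + 1))) := by gcongr
    _ = C * M * (4 * Real.pi) * (1 / ((n : ℝ) + 1) ^ 2) := by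
        field_simp

theorem summable_sq : Summable fun n : ℕ => 1 / ((n : ℝ) + 1) ^ 2 := by
  have h := (summable_nat_add_iff 1).2 (Real.summable_one_div_nat_pow.2 (show 1 < 2 by norm_num))
  refine h.congr fun n => ?_
  push_cast
  rfl

theorem KK_summable (f : S2 → ℝ) (hf : Continuous f) (a : S2) :
    Summable fun n : ℕ => ck n * A.JJ n f a := by
  obtain ⟨M, hM0, hM⟩ := A.term_bound f hf
  exact Summable.of_norm_bounded (summable_sq.mul_left M) fun n => hM n a

theorem KK_cont (f : S2 → ℝ) (hf : Continuous f) : Continuous (A.KK f) := by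
  obtain ⟨M, hM0, hM⟩ := A.term_bound f hf
  exact continuous_tsum (fun n => continuous_const.mul (A.JJ_cont n f hf))
    (summable_sq.mul_left M) hM

theorem KK_unif (f : S2 → ℝ) (hf : Continuous f) (ε : ℝ) (hε : 0 < ε) :
    ∃ N0 : ℕ, ∀ N : ℕ, N0 ≤ N → ∀ a, |∑ n ∈ Finset.range (N + 1), ck n * A.JJ n f a - A.KK f a| ≤ ε := by
  obtain ⟨M, hM0, hM⟩ := A.term_bound f hf
  have h := tendstoUniformly_tsum_nat (summable_sq.mul_left M) hM
  rw [Metric.tendstoUniformly_iff] at h
  obtain ⟨N0, hN0⟩ := eventually_atTop.1 (h ε hε)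
  refine ⟨N0, fun N hN a => ?_⟩
  have h1 := hN0 (N + 1) (by omega) a
  rw [dist_comm, Real.dist_eq] at h1
  exact h1.le

theorem JJ_add (n : ℕ) (f g : S2 → ℝ) (hf : Continuous f) (hg : Continuous g) (a : S2) :
    A.JJ n (fun b => f b + g b) a = A.JJ n f a + A.JJ n g a := by
  unfold JJ
  rw [← integral_add (A.JJ_integrable n f hf a) (A.JJ_integrable n g hg a)]
  congr 1
  funext b
  ring

theorem JJ_smul (n : ℕ) (c : ℝ) (f : S2 → ℝ) (a : S2) :
    A.JJ n (fun b => c * f b) a = c * A.JJ n f a := by
  unfold JJ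
  rw [← integral_const_mul]
  congr 1
  funext b
  ring

theorem JJ_nonneg (n : ℕ) (f : S2 → ℝ) (h0 : ∀ b, 0 ≤ f b) (a : S2) : 0 ≤ A.JJ n f a :=
  integral_nonneg fun b => mul_nonneg (pow_nonneg (A.uu_nonneg a b) n) (h0 b)

theorem JJ_mono (n : ℕ) (f g : S2 → ℝ) (hf : Continuous f) (hg : Continuous g)
    (h : ∀ b, f b ≤ g b) (a : S2) : A.JJ n f a ≤ A.JJ n g a :=
  integral_mono (A.JJ_integrable n f hf a) (A.JJ_integrable n g hg a) fun b =>
    mul_le_mul_of_nonneg_left (h b) (pow_nonneg (A.uu_nonneg a b) n)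

theorem KK_add (f g : S2 → ℝ) (hf : Continuous f) (hg : Continuous g) (a : S2) :
    A.KK (fun b => f b + g b) a = A.KK f a + A.KK g a := by
  unfold KK
  rw [← (A.KK_summable f hf a).tsum_add (A.KK_summable g hg a)]
  apply tsum_congr
  intro n
  rw [A.JJ_add n f g hf hg a, mul_add]

theorem KK_smul (c : ℝ) (f : S2 → ℝ) (a : S2) : A.KK (fun b => c * f b) a = c * A.KK f a := by
  unfold KK
  rw [← tsum_mul_left]
  apply tsum_congr
  intro n
  rw [A.JJ_smul]
  ring

theorem KK_lower (f : S2 → ℝ) (hf : Continuous f) (h0 : ∀ b, 0 ≤ f b) (a : S2) : ∫ b, f b ∂A.m ≤ A.KK f a := by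
  have h := (A.KK_summable f hf a).le_tsum 0 fun n _ =>
    mul_nonneg (ck_pos n).le (A.JJ_nonneg n f h0 a)
  have e : ck 0 * A.JJ 0 f a = ∫ b, f b ∂A.m := by
    show 1 * A.JJ 0 f a = _
    unfold JJ
    simp
  rw [e] at h
  exact h

theorem JJ_sum (n : ℕ) (s : Finset ℕ) (g : ℕ → S2 → ℝ) (hg : ∀ m, Continuous (g m)) (a : S2) :
    A.JJ n (fun b => ∑ m ∈ s, g m b) a = ∑ m ∈ s, A.JJ n (g m) a := by
  unfold JJ
  rw [← integral_finsetSum s fun m _ => A.JJ_integrable n (g m) (hg m) a]
  congr 1
  funext b
  rw [Finset.mul_sum]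

/-- The mixed moment. -/
theorem uu_mixed (n m : ℕ) (a c : S2) :
    ∫ b, A.uu a b ^ n * A.uu b c ^ m ∂A.m ≤ 4 * Real.pi / ((max n m : ℕ) + 1) := by
  have hca : Continuous (A.uu a) := A.uu_cont_left a
  have hcc : Continuous fun b => A.uu b c := by
    have h := A.uu_cont_left c
    refine h.congr fun b => ?_
    rw [A.uu_symm]
  have hi : Integrable (fun b => A.uu a b ^ n * A.uu b c ^ m) A.m :=
    A.integrable _ (by fun_prop)
  rcases le_total n m with h | h
  · rw [max_eq_right h, ← A.uu_moment m c]
    apply integral_mono hi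
    · apply A.integrable
      have := A.uu_cont_left c
      fun_prop
    · intro b
      show A.uu a b ^ n * A.uu b c ^ m ≤ A.uu c b ^ m
      rw [A.uu_symm c b]
      have h1 : A.uu a b ^ n ≤ 1 := pow_le_one₀ (A.uu_nonneg a b) (A.uu_le_one a b)
      have h2 : 0 ≤ A.uu b c ^ m := pow_nonneg (A.uu_nonneg b c) m
      nlinarith
  · rw [max_eq_left h, ← A.uu_moment n a]
    apply integral_mono hi
    · apply A.integrable
      fun_prop
    · intro b
      show A.uu a b ^ n * A.uu b c ^ m ≤ A.uu a b ^ n
      have h1 : A.uu b c ^ m ≤ 1 := pow_le_one₀ (A.uu_nonneg b c) (A.uu_le_one b c)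
      have h2 : 0 ≤ A.uu a b ^ n := pow_nonneg (A.uu_nonneg a b) n
      nlinarith

/-- The composition of two kernels. -/
theorem JJ_JJ (s : S2 → ℝ) (hs : Continuous s) {S : ℝ} (hS : ∀ b, s b ≤ S) (hS0 : 0 ≤ S)
    (f : S2 → ℝ) (hf : Continuous f) (hf0 : ∀ b, 0 ≤ f b) (n m : ℕ) (a : S2) :
    A.JJ n (fun b => s b * A.JJ m f b) a ≤
      S * (4 * Real.pi / ((max n m : ℕ) + 1)) * ∫ b, f b ∂A.m := by
  have := A.fin
  have hmono : A.JJ n (fun b => s b * A.JJ m f b) a ≤ A.JJ n (fun b => S * A.JJ m f b) a := by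
    apply A.JJ_mono
    · exact hs.mul (A.JJ_cont m f hf)
    · exact continuous_const.mul (A.JJ_cont m f hf)
    · intro b
      exact mul_le_mul_of_nonneg_right (hS b) (A.JJ_nonneg m f hf0 b)
  rw [A.JJ_smul] at hmono
  have hF : A.JJ n (A.JJ m f) a = ∫ c, (∫ b, A.uu a b ^ n * A.uu b c ^ m ∂A.m) * f c ∂A.m := by
    have e1 : A.JJ n (A.JJ m f) a
        = ∫ b, (∫ c, A.uu a b ^ n * A.uu b c ^ m * f c ∂A.m) ∂A.m := by
      unfold JJ
      congr 1
      funext b
      rw [← integral_const_mul]
      congr 1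
      funext c
      ring
    have hcont : Continuous (Function.uncurry fun b c : S2 => A.uu a b ^ n * A.uu b c ^ m * f c) := by
      have h1 := A.uu_cont
      have h2 := A.uu_cont_left a
      have h3 : Continuous fun p : S2 × S2 =>
          A.uu a p.1 ^ n * Function.uncurry A.uu p ^ m * f p.2 := by fun_prop
      exact h3
    rw [e1, integral_integral_swap_of_hasCompactSupport hcont (HasCompactSupport.of_compactSpace _)]
    congr 1
    funext c
    rw [← integral_mul_const]
  have hF2 : A.JJ n (A.JJ m f) a ≤ (4 * Real.pi / ((max n m : ℕ) + 1)) * ∫ b, f b ∂A.m := by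
    rw [hF, ← integral_const_mul]
    apply integral_mono
    · apply A.integrable
      have h1 : Continuous fun c => ∫ b, A.uu a b ^ n * A.uu b c ^ m ∂A.m := by
        have hcont : Continuous (Function.uncurry fun c b : S2 => A.uu a b ^ n * A.uu b c ^ m) := by
          have h1 := A.uu_cont.comp (continuous_swap (X := S2) (Y := S2))
          have h2 := A.uu_cont_left a
          have h3 : Continuous fun p : S2 × S2 =>
              A.uu a p.2 ^ n * (Function.uncurry A.uu ∘ Prod.swap) p ^ m := by fun_prop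
          exact h3
        have h := continuous_parametric_integral_of_continuous (μ := A.m)
          hcont (isCompact_univ (X := S2))
        simpa only [Measure.restrict_univ] using h
      exact h1.mul hf
    · apply A.integrable
      fun_prop
    · intro c
      exact mul_le_mul_of_nonneg_right (A.uu_mixed n m a c) (hf0 c)
  calc A.JJ n (fun b => s b * A.JJ m f b) a ≤ S * A.JJ n (A.JJ m f) a := hmono
    _ ≤ S * ((4 * Real.pi / ((max n m : ℕ) + 1)) * ∫ b, f b ∂A.m) :=
        mul_le_mul_of_nonneg_left hF2 hS0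
    _ = S * (4 * Real.pi / ((max n m : ℕ) + 1)) * ∫ b, f b ∂A.m := by ring

theorem KK_upper (s : S2 → ℝ) (hs : Continuous s) (hs0 : ∀ b, 0 ≤ s b) : ∃ C : ℝ, 0 < C ∧
    ∀ f : S2 → ℝ, Continuous f → (∀ b, 0 ≤ f b) → ∀ a, A.KK (fun b => s b * A.KK f b) a ≤ C * ∫ b, f b ∂A.m := by
  obtain ⟨S, hS0, hS⟩ := exists_bound s hs
  have hS' : ∀ b, s b ≤ S := fun b => (le_abs_self _).trans (hS b)
  obtain ⟨C, hC⟩ := ck_double
  have hpi := Real.pi_pos
  have hC0 : 0 ≤ C := by
    have := hC 0
    simpa using this
  refine ⟨4 * Real.pi * (S * C + 1), by positivity, fun f hf hf0 a => ?_⟩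
  have hI0 : 0 ≤ ∫ b, f b ∂A.m := integral_nonneg hf0
  have hKc : Continuous (A.KK f) := A.KK_cont f hf
  have hK0 : ∀ b, 0 ≤ A.KK f b := fun b => hI0.trans (A.KK_lower f hf hf0 b)
  have hgoal : A.KK (fun b => s b * A.KK f b) a ≤ 4 * Real.pi * S * C * ∫ b, f b ∂A.m := by
    change (∑' n, ck n * A.JJ n (fun b => s b * A.KK f b) a) ≤ _
    apply Real.tsum_le_of_sum_range_le
    · intro n
      exact mul_nonneg (ck_pos n).le (A.JJ_nonneg n _ (fun b => mul_nonneg (hs0 b) (hK0 b)) a)
    intro N
    -- approximation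
    have key : ∀ ε : ℝ, 0 < ε → ∑ n ∈ Finset.range N, ck n * A.JJ n (fun b => s b * A.KK f b) a
        ≤ 4 * Real.pi * S * C * (∫ b, f b ∂A.m) + ε * ∑ n ∈ Finset.range N, ck n * A.JJ n s a := by
      intro ε hε
      obtain ⟨N0, hN0⟩ := A.KK_unif f hf ε hε
      set M := max N0 N with hM
      have h1 : ∀ b, A.KK f b ≤ (∑ m ∈ Finset.range (M + 1), ck m * A.JJ m f b) + ε := by
        intro b
        have h := hN0 M (le_max_left _ _) b
        rw [abs_le] at h
        linarith
      have h2 : ∀ n, A.JJ n (fun b => s b * A.KK f b) a ≤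
          (∑ m ∈ Finset.range (M + 1), ck m * A.JJ n (fun b => s b * A.JJ m f b) a)
            + ε * A.JJ n s a := by
        intro n
        have h3 : A.JJ n (fun b => s b * A.KK f b) a ≤
            A.JJ n (fun b => (∑ m ∈ Finset.range (M + 1), ck m * (s b * A.JJ m f b)) + ε * s b) a := by
          apply A.JJ_mono
          · exact hs.mul hKc
          · apply Continuous.add
            · apply continuous_finsetSum
              intro m _
              exact continuous_const.mul (hs.mul (A.JJ_cont m f hf))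
            · exact continuous_const.mul hs
          · intro b
            have h4 := mul_le_mul_of_nonneg_left (h1 b) (hs0 b)
            calc s b * A.KK f b ≤ s b * ((∑ m ∈ Finset.range (M + 1), ck m * A.JJ m f b) + ε) := h4
              _ = (∑ m ∈ Finset.range (M + 1), ck m * (s b * A.JJ m f b)) + ε * s b := by
                  rw [mul_add, Finset.mul_sum]
                  congr 1
                  · apply Finset.sum_congr rfl
                    intro m _
                    ring
                  · ring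
        refine h3.trans (le_of_eq ?_)
        rw [A.JJ_add n _ _ ?_ ?_ a, A.JJ_sum n _ _ ?_ a, A.JJ_smul]
        · congr 1
          apply Finset.sum_congr rfl
          intro m _
          rw [A.JJ_smul]
        · intro m
          exact continuous_const.mul (hs.mul (A.JJ_cont m f hf))
        · apply continuous_finsetSum
          intro m _
          exact continuous_const.mul (hs.mul (A.JJ_cont m f hf))
        · exact continuous_const.mul hs
      calc ∑ n ∈ Finset.range N, ck n * A.JJ n (fun b => s b * A.KK f b) a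
          ≤ ∑ n ∈ Finset.range N, ck n *
            ((∑ m ∈ Finset.range (M + 1), ck m * A.JJ n (fun b => s b * A.JJ m f b) a)
            + ε * A.JJ n s a) := by
            apply Finset.sum_le_sum
            intro n _
            exact mul_le_mul_of_nonneg_left (h2 n) (ck_pos n).le
        _ = (∑ n ∈ Finset.range N, ∑ m ∈ Finset.range (M + 1),
              ck n * ck m * A.JJ n (fun b => s b * A.JJ m f b) a)
            + ε * ∑ n ∈ Finset.range N, ck n * A.JJ n s a := by
            rw [Finset.mul_sum, ← Finset.sum_add_distrib]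
            apply Finset.sum_congr rfl
            intro n _
            rw [mul_add, Finset.mul_sum]
            congr 1
            · apply Finset.sum_congr rfl
              intro m _
              ring
            · ring
        _ ≤ (∑ n ∈ Finset.range (M + 1), ∑ m ∈ Finset.range (M + 1),
              ck n * ck m * A.JJ n (fun b => s b * A.JJ m f b) a)
            + ε * ∑ n ∈ Finset.range N, ck n * A.JJ n s a := by
            have hsub : Finset.range N ⊆ Finset.range (M + 1) := by
              apply Finset.range_subset_range.2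
              have := le_max_right N0 N
              omega
            have h5 := Finset.sum_le_sum_of_subset_of_nonneg hsub
              (f := fun n => ∑ m ∈ Finset.range (M + 1),
                ck n * ck m * A.JJ n (fun b => s b * A.JJ m f b) a)
              (fun n _ _ => Finset.sum_nonneg fun m _ =>
                mul_nonneg (mul_nonneg (ck_pos n).le (ck_pos m).le)
                  (A.JJ_nonneg n _ (fun b => mul_nonneg (hs0 b) (A.JJ_nonneg m f hf0 b)) a))
            linarith
        _ ≤ (∑ n ∈ Finset.range (M + 1), ∑ m ∈ Finset.range (M + 1),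
              (4 * Real.pi * S * ∫ b, f b ∂A.m) * (ck n * ck m / ((max n m : ℕ) + 1)))
            + ε * ∑ n ∈ Finset.range N, ck n * A.JJ n s a := by
            have h6 : ∀ n ∈ Finset.range (M + 1), ∀ m ∈ Finset.range (M + 1),
                ck n * ck m * A.JJ n (fun b => s b * A.JJ m f b) a ≤
                (4 * Real.pi * S * ∫ b, f b ∂A.m) * (ck n * ck m / ((max n m : ℕ) + 1)) := by
              intro n _ m _
              have h7 := A.JJ_JJ s hs hS' hS0 f hf hf0 n m a
              have h8 := mul_le_mul_of_nonneg_left h7 (mul_nonneg (ck_pos n).le (ck_pos m).le)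
              calc ck n * ck m * A.JJ n (fun b => s b * A.JJ m f b) a
                  ≤ ck n * ck m * (S * (4 * Real.pi / ((max n m : ℕ) + 1)) * ∫ b, f b ∂A.m) := h8
                _ = (4 * Real.pi * S * ∫ b, f b ∂A.m) * (ck n * ck m / ((max n m : ℕ) + 1)) := by
                    ring
            have h9 := Finset.sum_le_sum fun n hn => Finset.sum_le_sum fun m hm => h6 n hn m hm
            linarith
        _ ≤ 4 * Real.pi * S * C * (∫ b, f b ∂A.m) + ε * ∑ n ∈ Finset.range N, ck n * A.JJ n s a := by
            have h10 := hC (M + 1)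
            have h11 : 0 ≤ 4 * Real.pi * S * ∫ b, f b ∂A.m := by positivity
            have h12 := mul_le_mul_of_nonneg_left h10 h11
            rw [Finset.mul_sum] at h12
            simp only [Finset.mul_sum] at h12
            simp only [Finset.mul_sum]
            linarith
    -- let `ε` tend to `0`
    set W := ∑ n ∈ Finset.range N, ck n * A.JJ n s a with hW
    have hW0 : 0 ≤ W := Finset.sum_nonneg fun n _ =>
      mul_nonneg (ck_pos n).le (A.JJ_nonneg n s hs0 a)
    apply le_of_forall_pos_le_add
    intro δ hδ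
    have h := key (δ / (W + 1)) (by positivity)
    have h13 : δ / (W + 1) * W ≤ δ := by
      rw [div_mul_eq_mul_div, div_le_iff₀ (by positivity)]
      nlinarith
    linarith
  have h14 : 4 * Real.pi * S * C * ∫ b, f b ∂A.m ≤ 4 * Real.pi * (S * C + 1) * ∫ b, f b ∂A.m := by
    have : 0 ≤ 4 * Real.pi * ∫ b, f b ∂A.m := by positivity
    nlinarith
  exact hgoal.trans h14

end Fr
end NShell
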