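import Mathlib

set_option autoImplicit false

/-!
Chunk P6. A positive operator with two-sided bounds has an approximate positive eigenfunction (power iteration).
For `F > 0` with `q F <= T F <= r F` put `g = T F - q F >= 0`: `T^2 g >= c^2 l(1) l(g)` and `T^2 F <= C l(F)`, hence
`T (T^2 F) - q T^2 F = T^2 g >= θ (l(g)/l(F)) T^2 F`, `θ = c^2 l(1)/C`, i.e. `q' = q + θ (ρ - q)`, `ρ = l(T F)/l(F)`, and the
same for `r`: `r' = r - θ (r - ρ)`. So `r' - q' = (1-θ)(r - q)`; iterate from `F = 1`.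
-/

open Filter Topology

namespace NShell

section

variable {K : Type*} [TopologicalSpace K] [CompactSpace K]
  (T : C(K, ℝ) →ₗ[ℝ] C(K, ℝ)) (l : C(K, ℝ) →ₗ[ℝ] ℝ)

/-- one step of the iteration -/
private noncomputable def rstep (θ : ℝ) (s : C(K, ℝ) × ℝ × ℝ) : C(K, ℝ) × ℝ × ℝ :=
  (T (T s.1), s.2.1 + θ * (l (T s.1) / l s.1 - s.2.1), s.2.2 - θ * (s.2.2 - l (T s.1) / l s.1))

/-- the invariant -/
private def RInv (s : C(K, ℝ) × ℝ × ℝ) : Prop :=
  (∀ k, 0 < s.1 k) ∧ (∀ k, s.2.1 * s.1 k ≤ T s.1 k) ∧ ∀ k, T s.1 k ≤ s.2.2 * s.1 k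

variable {T l} {c C : ℝ}

private lemma l_pos [Nonempty K] (hl : ∀ f : C(K, ℝ), (∀ k, 0 ≤ f k) → 0 ≤ l f) (hl1 : 0 < l 1) {F : C(K, ℝ)}
    (hF : ∀ k, 0 < F k) : 0 < l F := by
  obtain ⟨k0, -, hk0⟩ := isCompact_univ.exists_isMinOn Set.univ_nonempty F.continuous.continuousOn
  have h1 : 0 ≤ l (F - F k0 • 1) := by
    apply hl
    intro k
    have := hk0 (Set.mem_univ k)
    simp only [ContinuousMap.sub_apply, ContinuousMap.smul_apply, ContinuousMap.one_apply, smul_eq_mul, mul_one]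
    exact sub_nonneg.2 this
  rw [map_sub, map_smul, smul_eq_mul] at h1
  have h2 : 0 < F k0 * l 1 := mul_pos (hF k0) hl1
  linarith

private lemma T_low2 (hc : 0 < c) (hl : ∀ f : C(K, ℝ), (∀ k, 0 ≤ f k) → 0 ≤ l f)
    (hlow : ∀ f : C(K, ℝ), (∀ k, 0 ≤ f k) → ∀ k, c * l f ≤ T f k) {g : C(K, ℝ)} (hg : ∀ k, 0 ≤ g k) (k : K) :
    c ^ 2 * l 1 * l g ≤ T (T g) k := by
  have hlg := hl g hg
  have h1 : ∀ k, 0 ≤ T g k := fun k => le_trans (mul_nonneg hc.le hlg) (hlow g hg k)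
  have h2 := hlow (T g) h1 k
  have h3 : 0 ≤ l (T g - (c * l g) • 1) := by
    apply hl
    intro k
    simp only [ContinuousMap.sub_apply, ContinuousMap.smul_apply, ContinuousMap.one_apply, smul_eq_mul, mul_one]
    exact sub_nonneg.2 (hlow g hg k)
  rw [map_sub, map_smul, smul_eq_mul] at h3
  have h4 : c * (c * l g * l 1) ≤ c * l (T g) := mul_le_mul_of_nonneg_left (by linarith) hc.le
  calc c ^ 2 * l 1 * l g = c * (c * l g * l 1) := by ring
    _ ≤ c * l (T g) := h4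
    _ ≤ _ := h2

private lemma step_inv [Nonempty K] (hc : 0 < c) (hC : 0 < C) (hl : ∀ f : C(K, ℝ), (∀ k, 0 ≤ f k) → 0 ≤ l f) (hl1 : 0 < l 1)
    (hlow : ∀ f : C(K, ℝ), (∀ k, 0 ≤ f k) → ∀ k, c * l f ≤ T f k)
    (hup : ∀ f : C(K, ℝ), (∀ k, 0 ≤ f k) → ∀ k, T (T f) k ≤ C * l f) {s : C(K, ℝ) × ℝ × ℝ} (hs : RInv T s) :
    RInv T (rstep T l (c ^ 2 * l 1 / C) s) ∧ s.2.1 ≤ (rstep T l (c ^ 2 * l 1 / C) s).2.1 ∧
      (rstep T l (c ^ 2 * l 1 / C) s).2.2 ≤ s.2.2 := by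
  obtain ⟨F, q, r⟩ := s
  obtain ⟨hF, hq, hr⟩ := hs
  simp only at hF hq hr
  set θ := c ^ 2 * l 1 / C with hθ
  have hθ0 : 0 < θ := by positivity
  have hlF : 0 < l F := l_pos hl hl1 hF
  set ρ := l (T F) / l F with hρ
  have hTF : l (T F) = ρ * l F := by rw [hρ]; field_simp
  have hF0 : ∀ k, 0 ≤ F k := fun k => (hF k).le
  have hTFp : ∀ k, 0 < T F k := fun k => lt_of_lt_of_le (mul_pos hc hlF) (hlow F hF0 k)
  have hTTFp : ∀ k, 0 < T (T F) k := fun k =>
    lt_of_lt_of_le (mul_pos hc (l_pos hl hl1 hTFp)) (hlow (T F) (fun k => (hTFp k).le) k)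
  -- lower
  have hg1 : ∀ k, 0 ≤ (T F - q • F) k := by
    intro k
    simp only [ContinuousMap.sub_apply, ContinuousMap.smul_apply, smul_eq_mul]
    exact sub_nonneg.2 (hq k)
  have hg2 : ∀ k, 0 ≤ (r • F - T F) k := by
    intro k
    simp only [ContinuousMap.sub_apply, ContinuousMap.smul_apply, smul_eq_mul]
    exact sub_nonneg.2 (hr k)
  have hqρ : 0 ≤ ρ - q := by
    have h1 := hl _ hg1
    rw [map_sub, map_smul, smul_eq_mul, hTF] at h1
    have h2 : 0 ≤ (ρ - q) * l F := by linarith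
    exact nonneg_of_mul_nonneg_left h2 hlF
  have hrρ : 0 ≤ r - ρ := by
    have h1 := hl _ hg2
    rw [map_sub, map_smul, smul_eq_mul, hTF] at h1
    have h2 : 0 ≤ (r - ρ) * l F := by linarith
    exact nonneg_of_mul_nonneg_left h2 hlF
  have key : ∀ a : ℝ, 0 ≤ a → ∀ k, θ * a * T (T F) k ≤ c ^ 2 * l 1 * (a * l F) := by
    intro a ha k
    have h1 := hup F hF0 k
    have h2 : θ * a * T (T F) k ≤ θ * a * (C * l F) := mul_le_mul_of_nonneg_left h1 (by positivity)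
    have h3 : θ * a * (C * l F) = c ^ 2 * l 1 * (a * l F) := by
      rw [hθ]; field_simp
    linarith
  refine ⟨⟨hTTFp, fun k => ?_, fun k => ?_⟩, ?_, ?_⟩
  · simp only [rstep]
    have h1 := T_low2 hc hl hlow hg1 k
    rw [map_sub, map_smul, smul_eq_mul, hTF, map_sub, map_smul, map_sub, map_smul] at h1
    simp only [ContinuousMap.sub_apply, ContinuousMap.smul_apply, smul_eq_mul] at h1
    have h2 := key (ρ - q) hqρ k
    have h3 : c ^ 2 * l 1 * (ρ * l F - q * l F) = c ^ 2 * l 1 * ((ρ - q) * l F) := by ring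
    rw [h3] at h1
    change (q + θ * (ρ - q)) * T (T F) k ≤ T (T (T F)) k
    linarith
  · simp only [rstep]
    have h1 := T_low2 hc hl hlow hg2 k
    rw [map_sub, map_smul, smul_eq_mul, hTF, map_sub, map_smul, map_sub, map_smul] at h1
    simp only [ContinuousMap.sub_apply, ContinuousMap.smul_apply, smul_eq_mul] at h1
    have h2 := key (r - ρ) hrρ k
    have h3 : c ^ 2 * l 1 * (r * l F - ρ * l F) = c ^ 2 * l 1 * ((r - ρ) * l F) := by ring
    rw [h3] at h1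
    change T (T (T F)) k ≤ (r - θ * (r - ρ)) * T (T F) k
    linarith
  · change q ≤ q + θ * (ρ - q)
    have := mul_nonneg hθ0.le hqρ
    linarith
  · change r - θ * (r - ρ) ≤ r
    have := mul_nonneg hθ0.le hrρ
    linarith

end

theorem ratio_limit {K : Type*} [TopologicalSpace K] [CompactSpace K] [Nonempty K]
    (T : C(K, ℝ) →ₗ[ℝ] C(K, ℝ)) (l : C(K, ℝ) →ₗ[ℝ] ℝ) (c C : ℝ) (hc : 0 < c) (hC : 0 < C)
    (hl : ∀ f : C(K, ℝ), (∀ k, 0 ≤ f k) → 0 ≤ l f) (hl1 : 0 < l 1)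
    (hlow : ∀ f : C(K, ℝ), (∀ k, 0 ≤ f k) → ∀ k, c * l f ≤ T f k)
    (hup : ∀ f : C(K, ℝ), (∀ k, 0 ≤ f k) → ∀ k, T (T f) k ≤ C * l f) :
    ∃ ρ : ℝ, 0 < ρ ∧ ∀ ε : ℝ, 0 < ε → ∃ F : C(K, ℝ), (∀ k, 0 < F k) ∧ ∀ k, |T F k - ρ * F k| ≤ ε * F k := by
  have k0 : K := Classical.arbitrary K
  set θ := c ^ 2 * l 1 / C with hθ
  have hθ0 : 0 < θ := by positivity
  have hθ1 : θ ≤ 1 := by
    have h1 := T_low2 (T := T) hc hl hlow (g := 1) (fun _ => zero_le_one) k0
    have h2 := hup 1 (fun _ => zero_le_one) k0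
    rw [hθ, div_le_one hC]
    have h3 : c ^ 2 * l 1 * l 1 ≤ C * l 1 := h1.trans h2
    exact le_of_mul_le_mul_right h3 hl1
  set st : ℕ → C(K, ℝ) × ℝ × ℝ := fun n => (rstep T l θ)^[n] (1, c * l 1, ‖T 1‖) with hst
  have hst0 : st 0 = (1, c * l 1, ‖T 1‖) := rfl
  have hsts : ∀ n, st (n + 1) = rstep T l θ (st n) := fun n => Function.iterate_succ_apply' _ _ _
  have hinv : ∀ n, RInv T (st n) := by
    intro n
    induction n with
    | zero =>
      rw [hst0]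
      refine ⟨fun k => one_pos, fun k => ?_, fun k => ?_⟩
      · simp only [ContinuousMap.one_apply, mul_one]
        exact hlow 1 (fun _ => zero_le_one) k
      · simp only [ContinuousMap.one_apply, mul_one]
        exact (le_abs_self _).trans ((T 1).norm_coe_le_norm k)
    | succ n ih =>
      rw [hsts]
      exact (step_inv hc hC hl hl1 hlow hup ih).1
  have hqm : Monotone fun n => (st n).2.1 := monotone_nat_of_le_succ fun n => by
    rw [hsts]
    exact (step_inv hc hC hl hl1 hlow hup (hinv n)).2.1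
  have hrm : Antitone fun n => (st n).2.2 := antitone_nat_of_succ_le fun n => by
    rw [hsts]
    exact (step_inv hc hC hl hl1 hlow hup (hinv n)).2.2
  have hqr : ∀ n, (st n).2.1 ≤ (st n).2.2 := by
    intro n
    obtain ⟨h1, h2, h3⟩ := hinv n
    exact le_of_mul_le_mul_right ((h2 k0).trans (h3 k0)) (h1 k0)
  have hqr2 : ∀ m n, (st m).2.1 ≤ (st n).2.2 := by
    intro m n
    rcases le_total m n with h | h
    · exact (hqm h).trans (hqr n)
    · exact (hqr m).trans (hrm h)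
  have hdiff : ∀ n, (st n).2.2 - (st n).2.1 = (1 - θ) ^ n * ((st 0).2.2 - (st 0).2.1) := by
    intro n
    induction n with
    | zero => simp
    | succ n ih =>
      rw [pow_succ, mul_assoc, mul_comm (1 - θ), ← mul_assoc, ← ih, hsts]
      simp only [rstep]
      ring
  set ρ := ⨆ n, (st n).2.1 with hρ
  have hbdd : BddAbove (Set.range fun n => (st n).2.1) := ⟨(st 0).2.2, by
    rintro x ⟨m, rfl⟩
    exact hqr2 m 0⟩
  have hq : ∀ n, (st n).2.1 ≤ ρ := fun n => le_ciSup hbdd n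
  have hr : ∀ n, ρ ≤ (st n).2.2 := fun n => ciSup_le fun m => hqr2 m n
  refine ⟨ρ, lt_of_lt_of_le (mul_pos hc hl1) (hq 0), fun ε hε => ?_⟩
  have hlim : Tendsto (fun n : ℕ => (1 - θ) ^ n * ((st 0).2.2 - (st 0).2.1)) atTop (𝓝 0) := by
    have h1 := (tendsto_pow_atTop_nhds_zero_of_lt_one (r := 1 - θ) (by linarith) (by linarith)).mul_const
      ((st 0).2.2 - (st 0).2.1)
    rwa [zero_mul] at h1
  obtain ⟨n, hn⟩ := (hlim.eventually (gt_mem_nhds hε)).exists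
  rw [← hdiff] at hn
  obtain ⟨h1, h2, h3⟩ := hinv n
  refine ⟨(st n).1, h1, fun k => ?_⟩
  have hk := h1 k
  have h4 := hq n
  have h5 := hr n
  have h6 := h2 k
  have h7 := h3 k
  rw [abs_le]
  constructor
  · nlinarith
  · nlinarith

end NShell
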