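import Pool.Agent.Lib.NullShell.SkP3
import Pool.Agent.Lib.NullShell.SkP4
import Pool.Agent.Lib.NullShell.SkP5
import Pool.Agent.Lib.NullShell.SkP6
import Pool.Agent.Lib.NullShell.SkSF

set_option autoImplicit false

/-!
Chunk P7. Assembly of the Perron property. `ratio_limit` for `T f = KK (s f)`, `l f = ∫ s f` (`KK_lower`, `KK_upper`): `ρ` and `F > 0` with
`|KK (s F) - ρ F| <= ε1 F`. `ψ_N = sum_(n<=N) ck n • g_n`, `g_n` from `JJ_smooth n (s F)`. Telescoping with `ck_rec`: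
`ψ_N - 2 lap ψ_N = 2 (N+1)^2 ck (N+1) J_N (s F)`. By `approx_id` this is uniformly close to `lam s F`; by `KK_unif` `ψ_N` is uniformly close to
`KK (s F) = (ρ + O(ε1)) F`, in particular `ψ_N >= (ρ/2) min F > 0`. `μ = lam/ρ`. Then `|ψ - 2 lap ψ - μ s ψ| <= |.. - lam s F| + (lam/ρ) s |ρ F - ψ| <= ε ψ`.
`g = 2 log ψ` from `SFun_log`, `logd`.
-/

open Filter Topology Set MeasureTheory

namespace NShell

open Pool.Agent.Lib.PenroseSph (E3 S2 sm)

private lemma s2_ne : Nonempty S2 := by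
  have h : (Metric.sphere (0 : E3) 1).Nonempty := NormedSpace.sphere_nonempty.2 zero_le_one
  exact h.to_subtype

/-- the operator `f ↦ KK (s f)` -/
private noncomputable def opT (A : Fr) (s : SFun) : C(S2, ℝ) →ₗ[ℝ] C(S2, ℝ) where
  toFun f := ⟨fun a => A.KK (fun b => s.1 b * f b) a, A.KK_cont _ ((SFun_cont s).mul f.continuous)⟩
  map_add' f g := by
    ext a
    change A.KK (fun b => s.1 b * (f b + g b)) a = A.KK (fun b => s.1 b * f b) a + A.KK (fun b => s.1 b * g b) a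
    have h := A.KK_add (fun b => s.1 b * f b) (fun b => s.1 b * g b)
      ((SFun_cont s).mul f.continuous) ((SFun_cont s).mul g.continuous) a
    simp only [mul_add]
    exact h
  map_smul' c f := by
    ext a
    change A.KK (fun b => s.1 b * (c * f b)) a = c * A.KK (fun b => s.1 b * f b) a
    rw [← A.KK_smul]
    congr 1
    funext b
    ring

private noncomputable def opl (A : Fr) (s : SFun) : C(S2, ℝ) →ₗ[ℝ] ℝ where
  toFun f := ∫ b, s.1 b * f b ∂A.m
  map_add' f g := by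
    change ∫ b, s.1 b * (f b + g b) ∂A.m = _
    simp only [mul_add]
    exact integral_add (A.integrable _ ((SFun_cont s).mul f.continuous))
      (A.integrable _ ((SFun_cont s).mul g.continuous))
  map_smul' c f := by
    change ∫ b, s.1 b * (c * f b) ∂A.m = c * _
    rw [← integral_const_mul]
    congr 1
    funext b
    ring

theorem perron (A : Fr) (s : SFun) (hs : ∀ n, 0 < s.1 n) : A.toSM.Perron s := by
  have := s2_ne
  have := A.fin
  have hsc := SFun_cont s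
  -- extrema of s
  obtain ⟨a0, -, ha0⟩ := isCompact_univ.exists_isMinOn Set.univ_nonempty hsc.continuousOn
  obtain ⟨a1, -, ha1⟩ := isCompact_univ.exists_isMaxOn Set.univ_nonempty hsc.continuousOn
  set M : ℝ := s.1 a1 with hM
  have hM0 : 0 < M := hs a1
  have hsM : ∀ a, s.1 a ≤ M := fun a => ha1 (Set.mem_univ a)
  obtain ⟨C, hC, hup⟩ := A.KK_upper s.1 hsc (fun b => (hs b).le)
  have hl1 : 0 < opl A s 1 := by
    change 0 < ∫ b, s.1 b * (1 : ℝ) ∂A.m
    have h1 : ∫ b : S2, s.1 a0 ∂A.m ≤ ∫ b, s.1 b * (1 : ℝ) ∂A.m := by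
      refine integral_mono (integrable_const _) (A.integrable _ (hsc.mul continuous_const)) fun b => ?_
      simp only [mul_one]
      exact ha0 (Set.mem_univ b)
    rw [integral_const, A.ione, smul_eq_mul] at h1
    have h2 : 0 < 4 * Real.pi * s.1 a0 := mul_pos (by positivity) (hs a0)
    linarith
  obtain ⟨ρ, hρ, hlim⟩ := ratio_limit (opT A s) (opl A s) 1 C one_pos hC
    (fun f hf => integral_nonneg fun b => mul_nonneg (hs b).le (hf b)) hl1
    (fun f hf k => by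
      rw [one_mul]
      exact A.KK_lower _ (hsc.mul f.continuous) (fun b => mul_nonneg (hs b).le (hf b)) k)
    (fun f hf k => hup _ (hsc.mul f.continuous) (fun b => mul_nonneg (hs b).le (hf b)) k)
  obtain ⟨lam, hlam, hlamt⟩ := ck_lim
  refine ⟨lam / ρ, div_pos hlam hρ, fun ε hε => ?_⟩
  set c1 : ℝ := 2 / ρ * (1 + 2 * lam * M / ρ) with hc1
  have hc1p : 0 < c1 := by positivity
  set ε1 : ℝ := min (ρ / 4) (ε / c1) with hε1
  have hε1p : 0 < ε1 := lt_min (by positivity) (by positivity)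
  have hε1a : ε1 ≤ ρ / 4 := min_le_left _ _
  have hε1b : ε1 * c1 ≤ ε := by
    have h := min_le_right (ρ / 4) (ε / c1)
    rwa [← hε1, le_div_iff₀ hc1p] at h
  obtain ⟨F, hF, hTF⟩ := hlim ε1 hε1p
  obtain ⟨a2, -, ha2⟩ := isCompact_univ.exists_isMinOn Set.univ_nonempty F.continuous.continuousOn
  have hFm : ∀ a, F a2 ≤ F a := fun a => ha2 (Set.mem_univ a)
  have hFp := hF a2
  set h : S2 → ℝ := fun b => s.1 b * F b with hh
  have hhc : Continuous h := hsc.mul F.continuous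
  have he : 0 < ε1 * F a2 := mul_pos hε1p hFp
  obtain ⟨N0, hN0⟩ := A.approx_id lam hlamt h hhc (ε1 * F a2) he
  obtain ⟨N1, hN1⟩ := A.KK_unif h hhc (ε1 * F a2) he
  set N : ℕ := max N0 N1 with hN
  have hap := hN0 N (le_max_left _ _)
  have hun := hN1 N (le_max_right _ _)
  choose g hg1 hg2 using fun n : ℕ => A.JJ_smooth n h hhc
  set ψ : SFun := ∑ n ∈ Finset.range (N + 1), ck n • g n with hψ
  have hev : ∀ (F : ℕ → SFun) (S : Finset ℕ) (a : S2), (∑ n ∈ S, F n).1 a = ∑ n ∈ S, (F n).1 a := by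
    intro F S a
    have := map_sum (evS a) F S
    exact this
  have hψa : ∀ a, ψ.1 a = ∑ n ∈ Finset.range (N + 1), ck n * A.JJ n h a := by
    intro a
    rw [hψ, hev]
    refine Finset.sum_congr rfl fun n _ => ?_
    rw [← hg1 n a]
    rfl
  have hlapψ : ∀ a, (A.sa.lap ψ).1 a = ∑ n ∈ Finset.range (N + 1), ck n * (A.sa.lap (g n)).1 a := by
    intro a
    have h1 : A.sa.lap ψ = ∑ n ∈ Finset.range (N + 1), ck n • A.sa.lap (g n) := by
      unfold SA.lap
      simp only [hψ, map_sum, Derivation.map_smul, Finset.smul_sum]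
      exact Finset.sum_comm
    rw [h1, hev]
    rfl
  have htel : ∀ a, ψ.1 a - 2 * (A.sa.lap ψ).1 a = 2 * ((N : ℝ) + 1) ^ 2 * ck (N + 1) * A.JJ N h a := by
    intro a
    rw [hψa, hlapψ, Finset.mul_sum, ← Finset.sum_sub_distrib]
    have h1 : ∀ n : ℕ, ck n * A.JJ n h a - 2 * (ck n * (A.sa.lap (g n)).1 a) =
        2 * ((n : ℝ) + 1) ^ 2 * ck (n + 1) * A.JJ n h a - 2 * (n : ℝ) ^ 2 * ck n * A.JJ (n - 1) h a := by
      intro n
      rw [hg2 n a, ck_rec n]
      ring
    simp only [h1]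
    generalize N = K
    induction K with
    | zero => simp
    | succ K ih =>
      rw [Finset.sum_range_succ, ih, Nat.add_sub_cancel]
      push_cast
      ring
  have hKK : ∀ a, |A.KK h a - ρ * F a| ≤ ε1 * F a := fun a => hTF a
  have hclose : ∀ a, |ψ.1 a - ρ * F a| ≤ 2 * ε1 * F a := by
    intro a
    have h1 := hun a
    rw [← hψa] at h1
    have h2 := hKK a
    have h3 : ε1 * F a2 ≤ ε1 * F a := mul_le_mul_of_nonneg_left (hFm a) hε1p.le
    have h4 : |ψ.1 a - ρ * F a| ≤ |ψ.1 a - A.KK h a| + |A.KK h a - ρ * F a| := abs_sub_le _ _ _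
    linarith
  have hψlow : ∀ a, ρ / 2 * F a ≤ ψ.1 a := by
    intro a
    have h1 := (abs_le.1 (hclose a)).1
    have h2 : 2 * ε1 * F a ≤ ρ / 2 * F a := mul_le_mul_of_nonneg_right (by linarith) (hF a).le
    linarith
  have hψp : ∀ a, 0 < ψ.1 a := fun a => lt_of_lt_of_le (mul_pos (by linarith) (hF a)) (hψlow a)
  obtain ⟨g0, hg0⟩ := SFun_log ψ hψp
  refine ⟨ψ, g0 + g0, hψp, fun i => ?_, fun p => ?_⟩
  · refine A.logd ψ (g0 + g0) hψp (fun n => ?_) i
    change g0.1 n + g0.1 n = _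
    rw [hg0]
    ring
  · have e1 : A.toSM.ev p (ψ - 2 * A.sa.lap ψ - (lam / ρ) • (s * ψ)) =
        (ψ.1 p - 2 * (A.sa.lap ψ).1 p) - (lam / ρ) * (s.1 p * ψ.1 p) := by
      rw [two_mul]
      change ψ.1 p - ((A.sa.lap ψ).1 p + (A.sa.lap ψ).1 p) - (lam / ρ) * (s.1 p * ψ.1 p) = _
      ring
    change |A.toSM.ev p (ψ - 2 * A.sa.lap ψ - (lam / ρ) • (s * ψ))| ≤ ε * ψ.1 p
    rw [e1, htel]
    have h1 := hap p
    have h2 := hclose p
    have h3 : ε1 * F a2 ≤ ε1 * F p := mul_le_mul_of_nonneg_left (hFm p) hε1p.le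
    have e2 : 2 * ((N : ℝ) + 1) ^ 2 * ck (N + 1) * A.JJ N h p - (lam / ρ) * (s.1 p * ψ.1 p) =
        (2 * ((N : ℝ) + 1) ^ 2 * ck (N + 1) * A.JJ N h p - lam * h p) -
          (lam / ρ) * s.1 p * (ψ.1 p - ρ * F p) := by
      simp only [hh]
      field_simp
      ring
    rw [e2]
    have h4 : |(lam / ρ) * s.1 p * (ψ.1 p - ρ * F p)| ≤ (lam / ρ) * M * (2 * ε1 * F p) := by
      rw [abs_mul, abs_of_nonneg (mul_nonneg (div_pos hlam hρ).le (hs p).le)]
      exact mul_le_mul (mul_le_mul_of_nonneg_left (hsM p) (div_pos hlam hρ).le) h2 (abs_nonneg _)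
        (mul_nonneg (div_pos hlam hρ).le hM0.le)
    have h5 := abs_sub (2 * ((N : ℝ) + 1) ^ 2 * ck (N + 1) * A.JJ N h p - lam * h p)
      ((lam / ρ) * s.1 p * (ψ.1 p - ρ * F p))
    have h6 : ε1 * F p + (lam / ρ) * M * (2 * ε1 * F p) = ε1 * c1 * (ρ / 2 * F p) := by
      rw [hc1]
      field_simp
    have h7 : ε1 * c1 * (ρ / 2 * F p) ≤ ε * ψ.1 p :=
      mul_le_mul hε1b (hψlow p) (mul_nonneg (by linarith) (hF p).le) hε.le
    linarith

end NShell
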