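import Pool.Agent.Lib.NullShell.Frame

set_option autoImplicit false

/-!
Chunk SF. Closure properties of `SFun` and calculus of `stdL`.
`SFun_inv`: if `F` is a smooth extension of `f`, then `F / (F^2 + (|x|^2 - 1)^2)` is smooth on the whole space (the denominator vanishes only
where `|x| = 1` and `F = 0`, which is excluded) and restricts to `1/f`.
`SFun_log`: `(1/2) log (F^2 + (|x|^2 - 1)^2)` restricts to `log f`.
`std_logd`: both sides are derivatives along a rotation orbit, on which `g = 2 log ψ`.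
-/

open Filter Topology Set MeasureTheory
open scoped ContDiff

namespace NShell

open Pool.Agent.Lib.PenroseSph (E3 S2 sm)

private lemma den_smooth (f : SFun) : ContDiff ℝ ∞ (fun x : E3 => (lft f) x ^ 2 + (‖x‖ ^ 2 - 1) ^ 2) :=
  ((lft_smooth f).pow 2).add (((contDiff_norm_sq ℝ).sub contDiff_const).pow 2)

private lemma den_ne (f : SFun) (hf : ∀ n, f.1 n ≠ 0) (x : E3) : (lft f) x ^ 2 + (‖x‖ ^ 2 - 1) ^ 2 ≠ 0 := by
  intro h
  have h1 : (lft f) x ^ 2 = 0 := by nlinarith [sq_nonneg ((lft f) x), sq_nonneg (‖x‖ ^ 2 - 1)]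
  have h2 : (‖x‖ ^ 2 - 1) ^ 2 = 0 := by nlinarith [sq_nonneg ((lft f) x), sq_nonneg (‖x‖ ^ 2 - 1)]
  have h3 : (lft f) x = 0 := by simpa using h1
  have h4 : ‖x‖ ^ 2 - 1 = 0 := by simpa using h2
  have h5 : ‖x‖ = 1 := by
    have h6 : (‖x‖ - 1) * (‖x‖ + 1) = 0 := by linarith
    rcases mul_eq_zero.1 h6 with h | h
    · linarith
    · linarith [norm_nonneg x]
  have h6 := lft_eq f ⟨x, by simpa using h5⟩
  exact hf _ (h6.symm.trans h3)

private lemma den_sph (f : SFun) (n : S2) : (lft f) n ^ 2 + (‖(n : E3)‖ ^ 2 - 1) ^ 2 = f.1 n ^ 2 := by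
  have h : ‖(n : E3)‖ = 1 := by simp
  rw [h, lft_eq]
  norm_num

theorem SFun_inv (f : SFun) (hf : ∀ n, f.1 n ≠ 0) : ∃ g : SFun, f * g = 1 := by
  refine ⟨SFun.of (fun x => (lft f) x / ((lft f) x ^ 2 + (‖x‖ ^ 2 - 1) ^ 2))
    ((lft_smooth f).div (den_smooth f) (den_ne f hf)), ?_⟩
  apply Subtype.ext
  funext n
  change f.1 n * ((lft f) n / ((lft f) n ^ 2 + (‖(n : E3)‖ ^ 2 - 1) ^ 2)) = 1
  rw [den_sph, lft_eq]
  have := hf n
  field_simp

theorem SFun_log (f : SFun) (hf : ∀ n, 0 < f.1 n) : ∃ g : SFun, ∀ n, g.1 n = Real.log (f.1 n) := by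
  refine ⟨SFun.of (fun x => 1 / 2 * Real.log ((lft f) x ^ 2 + (‖x‖ ^ 2 - 1) ^ 2))
    (contDiff_const.mul ((den_smooth f).log (den_ne f fun n => (hf n).ne'))), fun n => ?_⟩
  change 1 / 2 * Real.log ((lft f) n ^ 2 + (‖(n : E3)‖ ^ 2 - 1) ^ 2) = _
  rw [den_sph, Real.log_pow]
  push_cast
  ring

theorem std_logd (ψ g : SFun) (hψ : ∀ n, 0 < ψ.1 n) (hg : ∀ n, g.1 n = 2 * Real.log (ψ.1 n)) (i : Fin 3) :
    ψ * stdL i g = 2 * stdL i ψ := by
  apply Subtype.ext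
  funext n
  rw [two_mul]
  change ψ.1 n * (stdL i g).1 n = (stdL i ψ).1 n + (stdL i ψ).1 n
  rw [stdL_of i g (lft g) (lft_smooth g) (fun m => (lft_eq g m).symm) n,
    stdL_of i ψ (lft ψ) (lft_smooth ψ) (fun m => (lft_eq ψ m).symm) n]
  have hij : (i + 1 : Fin 3) ≠ i + 2 := by fin_cases i <;> decide
  have hd : ∀ f : SFun, DifferentiableAt ℝ (lft f) (n : E3) := fun f =>
    ((lft_smooth f).differentiable (by simp)) _
  have h1 := fderiv_rot_eq (hd g) i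
  have h2 := fderiv_rot_eq (hd ψ) i
  have hn : ∀ s : ℝ, ‖Pool.Agent.Lib.PenroseSph.rotLin (i + 1) (i + 2) s (n : E3)‖ = 1 := by
    intro s
    rw [Pool.Agent.Lib.PenroseSph.rotLin_norm hij]
    simp
  have h0 : Pool.Agent.Lib.PenroseSph.rotLin (i + 1) (i + 2) 0 (n : E3) = n := by
    ext k
    rw [Pool.Agent.Lib.PenroseSph.rotLin_apply]
    simp
  have hv : (lft ψ) (Pool.Agent.Lib.PenroseSph.rotLin (i + 1) (i + 2) 0 (n : E3)) = ψ.1 n := by
    rw [h0, lft_eq]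
  have hne : (lft ψ) (Pool.Agent.Lib.PenroseSph.rotLin (i + 1) (i + 2) 0 (n : E3)) ≠ 0 := by
    rw [hv]
    exact (hψ n).ne'
  have h3 := (h2.log hne).const_mul 2
  have e : (fun s => (lft g) (Pool.Agent.Lib.PenroseSph.rotLin (i + 1) (i + 2) s n)) =
      fun s => 2 * Real.log ((lft ψ) (Pool.Agent.Lib.PenroseSph.rotLin (i + 1) (i + 2) s n)) := by
    funext s
    have h4 := lft_eq g ⟨_, by simpa using hn s⟩
    have h5 := lft_eq ψ ⟨_, by simpa using hn s⟩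
    have h6 := hg ⟨Pool.Agent.Lib.PenroseSph.rotLin (i + 1) (i + 2) s n, by simpa using hn s⟩
    rw [← h4, ← h5] at h6
    exact h6
  rw [e] at h1
  have h7 := h1.unique h3
  rw [h7, hv]
  have := (hψ n).ne'
  field_simp
  ring

end NShell
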