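import Pool.Agent.Lib.PenroseSph.SphRot
import Pool.Agent.Lib.NullShell.Meas

set_option autoImplicit false

/-!
Smooth functions on the unit sphere of Euclidean three space, as restrictions of smooth functions on the space, and
the three rotation derivations.
-/

open Filter Topology Set MeasureTheory
open scoped ContDiff

namespace NShell

open Pool.Agent.Lib.PenroseSph (E3 S2 sm)

/-- The rotation field `e_i × n`. -/
noncomputable def rotv (i : Fin 3) (n : E3) : E3 :=
  n (i + 1) • EuclideanSpace.single (i + 2) (1 : ℝ) - n (i + 2) • EuclideanSpace.single (i + 1) (1 : ℝ)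

/-- Restrictions to the sphere of smooth functions. -/
def SFun : Subalgebra ℝ (S2 → ℝ) where
  carrier := {f | ∃ F : E3 → ℝ, ContDiff ℝ ∞ F ∧ ∀ n : S2, f n = F n}
  mul_mem' := by
    rintro f g ⟨F, hF, hf⟩ ⟨G, hG, hg⟩
    exact ⟨fun x => F x * G x, hF.mul hG, fun n => by simp [hf, hg]⟩
  add_mem' := by
    rintro f g ⟨F, hF, hf⟩ ⟨G, hG, hg⟩
    exact ⟨fun x => F x + G x, hF.add hG, fun n => by simp [hf, hg]⟩
  algebraMap_mem' r := ⟨fun _ => r, contDiff_const, fun n => by simp [algebraMap]⟩

/-- Restriction of a smooth function. -/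
def SFun.of (F : E3 → ℝ) (hF : ContDiff ℝ ∞ F) : SFun := ⟨fun n => F n, F, hF, fun _ => rfl⟩

/-- A smooth extension. -/
noncomputable def lft (f : SFun) : E3 → ℝ := Classical.choose f.2

theorem lft_smooth (f : SFun) : ContDiff ℝ ∞ (lft f) := (Classical.choose_spec f.2).1

theorem lft_eq (f : SFun) (n : S2) : (lft f) n = f.1 n := ((Classical.choose_spec f.2).2 n).symm

theorem SFun_cont (f : SFun) : Continuous f.1 := by
  have : f.1 = fun n : S2 => (lft f) n := by funext n; exact ((lft_eq f) n).symm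
  rw [this]
  exact (lft_smooth f).continuous.comp continuous_subtype_val


/-! ### The rotation derivations -/

/-- The rotation field is the velocity of a rotation. -/
theorem fderiv_rot_eq {F : E3 → ℝ} {n : S2} (hF : DifferentiableAt ℝ F (n : E3)) (i : Fin 3) :
    HasDerivAt (fun s => F (Pool.Agent.Lib.PenroseSph.rotLin (i + 1) (i + 2) s n)) (fderiv ℝ F n (rotv i n)) 0 := by
  have hij : (i + 1 : Fin 3) ≠ i + 2 := by fin_cases i <;> decide
  have h0 : Pool.Agent.Lib.PenroseSph.rotLin (i + 1) (i + 2) 0 (n : E3) = n := by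
    ext k
    rw [Pool.Agent.Lib.PenroseSph.rotLin_apply]
    simp
  have h1 := Pool.Agent.Lib.PenroseSph.hasDerivAt_rot hij 0 (n : E3)
  rw [h0] at h1
  have h2 : HasFDerivAt F (fderiv ℝ F n) (Pool.Agent.Lib.PenroseSph.rotLin (i + 1) (i + 2) 0 (n : E3)) := by
    rw [h0]; exact hF.hasFDerivAt
  have h3 := h2.comp_hasDerivAt (0 : ℝ) h1
  have h4 : rotv i (n : E3) = (-((n : E3) (i + 2))) • EuclideanSpace.single (i + 1) (1:ℝ)
        + ((n : E3) (i + 1)) • EuclideanSpace.single (i + 2) (1:ℝ) := by
    unfold rotv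
    rw [neg_smul]
    abel
  rw [h4]
  exact h3

/-- The rotation derivative only depends on the values on the sphere. -/
theorem fderiv_rot_congr {F G : E3 → ℝ} (h : ∀ n : S2, F n = G n) {n : S2} (hF : DifferentiableAt ℝ F (n : E3))
    (hG : DifferentiableAt ℝ G (n : E3)) (i : Fin 3) : fderiv ℝ F n (rotv i n) = fderiv ℝ G n (rotv i n) := by
  have hij : (i + 1 : Fin 3) ≠ i + 2 := by fin_cases i <;> decide
  have h1 := fderiv_rot_eq hF i
  have h2 := fderiv_rot_eq hG i
  have e : (fun s => F (Pool.Agent.Lib.PenroseSph.rotLin (i + 1) (i + 2) s n)) =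
      fun s => G (Pool.Agent.Lib.PenroseSph.rotLin (i + 1) (i + 2) s n) := by
    funext s
    have hn : ‖Pool.Agent.Lib.PenroseSph.rotLin (i + 1) (i + 2) s (n : E3)‖ = 1 := by
      rw [Pool.Agent.Lib.PenroseSph.rotLin_norm hij]; simp
    exact h ⟨_, by simpa using hn⟩
  rw [e] at h1
  exact h1.unique h2

theorem contDiff_rotv (i : Fin 3) : ContDiff ℝ ∞ (rotv i) := by
  unfold rotv
  have h : ∀ j : Fin 3, ContDiff ℝ ∞ (fun n : E3 => n j) := fun j =>
    (EuclideanSpace.proj j : E3 →L[ℝ] ℝ).contDiff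
  exact ((h _).smul contDiff_const).sub ((h _).smul contDiff_const)

theorem contDiff_rotD {F : E3 → ℝ} (hF : ContDiff ℝ ∞ F) (i : Fin 3) :
    ContDiff ℝ ∞ (fun y => fderiv ℝ F y (rotv i y)) := by
  have h1 : ContDiff ℝ ∞ (fderiv ℝ F) := hF.fderiv_right (m := ∞) (by simp)
  exact h1.clm_apply (contDiff_rotv i)

/-- The rotation derivative of a smooth function on the sphere. -/
noncomputable def rotD (i : Fin 3) (f : SFun) : SFun :=
  SFun.of (fun y => fderiv ℝ (lft f) y (rotv i y)) (contDiff_rotD (lft_smooth f) i)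

theorem rotD_of (i : Fin 3) (f : SFun) (F : E3 → ℝ) (hF : ContDiff ℝ ∞ F) (h : ∀ n : S2, f.1 n = F n) (n : S2) :
    (rotD i f).1 n = fderiv ℝ F n (rotv i n) := by
  have hd : ∀ G : E3 → ℝ, ContDiff ℝ ∞ G → DifferentiableAt ℝ G n := fun G hG => (hG.differentiable (by simp)) _
  exact fderiv_rot_congr (fun m => ((lft_eq f) m).trans (h m)) (hd _ (lft_smooth f)) (hd _ hF) i

/-- The three rotation derivations. -/
noncomputable def stdL (i : Fin 3) : Derivation ℝ SFun SFun where
  toFun := rotD i
  map_add' f g := by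
    apply Subtype.ext
    funext n
    have hf : DifferentiableAt ℝ (lft f) (n : E3) := ((lft_smooth f).differentiable (by simp)) _
    have hg : DifferentiableAt ℝ (lft g) (n : E3) := ((lft_smooth g).differentiable (by simp)) _
    rw [rotD_of i (f + g) (fun x => (lft f) x + (lft g) x) ((lft_smooth f).add (lft_smooth g))
      (fun m => by rw [(lft_eq f), (lft_eq g)]; rfl)]
    rw [fderiv_fun_add hf hg]
    rfl
  map_smul' c f := by
    apply Subtype.ext
    funext n
    have hf : DifferentiableAt ℝ (lft f) (n : E3) := ((lft_smooth f).differentiable (by simp)) _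
    rw [rotD_of i (c • f) (fun x => c • (lft f) x) ((lft_smooth f).const_smul c)
      (fun m => by rw [(lft_eq f)]; rfl)]
    rw [fderiv_fun_const_smul hf]
    rfl
  map_one_eq_zero' := by
    apply Subtype.ext
    funext n
    change (rotD i 1).1 n = 0
    rw [rotD_of i 1 (fun _ => 1) contDiff_const (fun m => rfl)]
    simp
  leibniz' f g := by
    apply Subtype.ext
    funext n
    have hf : DifferentiableAt ℝ (lft f) (n : E3) := ((lft_smooth f).differentiable (by simp)) _
    have hg : DifferentiableAt ℝ (lft g) (n : E3) := ((lft_smooth g).differentiable (by simp)) _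
    change (rotD i (f * g)).1 n = f.1 n * (rotD i g).1 n + g.1 n * (rotD i f).1 n
    rw [rotD_of i (f * g) (fun x => (lft f) x * (lft g) x) ((lft_smooth f).mul (lft_smooth g))
      (fun m => by rw [(lft_eq f), (lft_eq g)]; rfl)]
    rw [fderiv_fun_mul hf hg]
    change (lft f) n * fderiv ℝ (lft g) n (rotv i n) + (lft g) n * fderiv ℝ (lft f) n (rotv i n) = _
    rw [(lft_eq f), (lft_eq g)]
    rfl

theorem stdL_of (i : Fin 3) (f : SFun) (F : E3 → ℝ) (hF : ContDiff ℝ ∞ F) (h : ∀ n : S2, f.1 n = F n) (n : S2) :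
    (stdL i f).1 n = fderiv ℝ F n (rotv i n) := rotD_of i f F hF h n

/-- The coordinate functions. -/
noncomputable def stdx (i : Fin 3) : SFun :=
  SFun.of (fun y => y i) (EuclideanSpace.proj i : E3 →L[ℝ] ℝ).contDiff

end NShell
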