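import Mathlib

set_option autoImplicit false

/-!
Surfaces in Minkowski space parametrized by their ingoing null direction, area element, outgoing null normal, null
expansion, null dust shells.
-/

open MeasureTheory
open scoped ContDiff

namespace Shell

/-- Euclidean three space. -/
abbrev E3 := EuclideanSpace ℝ (Fin 3)

/-- The unit sphere. -/
abbrev S2 := Metric.sphere (0 : E3) 1

/-- Surface measure of the unit sphere. -/
noncomputable def sm : Measure S2 := (volume : Measure E3).toSphere

/-- Minkowski space-time: time component and space component. -/
abbrev M4 := ℝ × E3

/-- The Minkowski product, signature (-,+,+,+). -/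
noncomputable def mink (v w : M4) : ℝ := - (v.1 * w.1) + ∑ i, v.2 i * w.2 i

/-- The scalar product of Euclidean three space. -/
noncomputable def dot (a b : E3) : ℝ := ∑ i, a i * b i

/-- The future null vector with space direction `-n`. -/
def kvec (n : E3) : M4 := (1, -n)

/-- The rotation field `e_i × n`. -/
noncomputable def rotv (i : Fin 3) (n : E3) : E3 :=
  n (i + 1) • EuclideanSpace.single (i + 2) (1 : ℝ) - n (i + 2) • EuclideanSpace.single (i + 1) (1 : ℝ)

/-- Smooth maps. -/
def Smooth (F : E3 → M4) : Prop := ContDiff ℝ ∞ F

/-- The derivative of `F` at `n` in the direction `e`. -/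
noncomputable def dir (F : E3 → M4) (n e : E3) : M4 := deriv (fun t : ℝ => F (n + t • e)) 0

/-- Squared Minkowski area of the parallelogram spanned by two vectors. -/
noncomputable def parSq (v w : M4) : ℝ := mink v v * mink w w - mink v w ^ 2

/-- Area element at the point `F n` of the surface `F (S2)`, with respect to the round area of the unit sphere: the squares of
the areas of the images of the three parallelograms spanned by two of the rotation fields `e_i × n` (whose own areas are the
numbers `|n_k|`) are added. -/
noncomputable def areaDens (F : E3 → M4) (n : E3) : ℝ :=
  Real.sqrt (∑ i : Fin 3, parSq (dir F n (rotv i n)) (dir F n (rotv (i + 1) n)))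

/-- Area of the surface `F (S2)`. -/
noncomputable def area (F : E3 → M4) : ℝ := ∫ n : S2, areaDens F n ∂sm

/-- `F` restricted to the unit sphere parametrizes a closed surface in Minkowski space by its ingoing null direction:
the future null vector `(1,-n)` is normal to the surface at `F n`, and the ingoing null second fundamental form is definite
(the null hypersurface generated by the lines in the directions `(1,-n)` is smooth and expanding towards the past). -/
structure NullConvex (F : E3 → M4) : Prop where
  smooth : Smooth F
  normal : ∀ n : E3, dot n n = 1 → ∀ e : E3, dot e n = 0 → mink (dir F n e) (kvec n) = 0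
  convex : ∀ n : E3, dot n n = 1 → ∀ e : E3, dot e n = 0 → e ≠ 0 → 0 < dot (dir F n e).2 e

/-- `l` is the outgoing future null normal, normalised by `<l, (1,-n)> = -2`. -/
structure OutNormal (F l : E3 → M4) : Prop where
  smooth : Smooth l
  null : ∀ n : E3, dot n n = 1 → mink (l n) (l n) = 0
  norm : ∀ n : E3, dot n n = 1 → mink (l n) (kvec n) = -2
  normal : ∀ n : E3, dot n n = 1 → ∀ e : E3, dot e n = 0 → mink (dir F n e) (l n) = 0

/-- Outgoing null expansion times the area element: the first variation of the area element in the direction `l`. -/
noncomputable def thetaDens (F l : E3 → M4) (n : E3) : ℝ :=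
  deriv (fun r : ℝ => areaDens (fun y => F y + r • l y) n) 0

/-- Total energy of a null dust shell with energy `ρ n` per unit solid angle. -/
noncomputable def shellEnergy (ρ : S2 → ℝ) : ℝ := ∫ n, ρ n ∂sm

/-- Total momentum of a null dust shell whose dust moves in the directions `-n`. -/
noncomputable def shellMomentum (ρ : S2 → ℝ) (i : Fin 3) : ℝ := ∫ n, ρ n * (-(n : E3) i) ∂sm

end Shell
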