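import Pool.Agent.Lib.NullShell.Alg

set_option autoImplicit false

/-!
Surface quantities in a sphere algebra. `X` are the space components of the surface, `tau` minus its time component,
`hN` says that `(1, -x)` is normal to the surface.
-/

namespace NShell
namespace SA

variable {R : Type*} [CommRing R] [Algebra ℝ R] (S : SA R)

/-- The tangential part of the derivative of `X`: `B (e_i × x, e_j × x)`. -/
def fB (X : Fin 3 → R) (i j : Fin 3) : R := ∑ k, S.L i (X k) * S.L j (S.x k)

/-- Its trace `s`. -/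
def tB (X : Fin 3 → R) : R := ∑ i, S.fB X i i

/-- Its determinant `D = (s^2 - |B|^2)/2`. -/
noncomputable def dB (X : Fin 3 → R) : R := (1 / 2 : ℝ) • (S.tB X ^ 2 - ∑ i, ∑ j, S.fB X i j ^ 2)

/-- Its cofactor matrix `s P - B`. -/
def cB (X : Fin 3 → R) (i j : Fin 3) : R := S.tB X * S.pr i j - S.fB X i j

/-- Support functions: `f = <X, x>`. -/
def sf (X : Fin 3 → R) : R := ∑ k, S.x k * X k

/-- The null vector `(1, -x)` is normal: `d tau (e) = <dX e, x>`. -/
def Nor (X : Fin 3 → R) (tau : R) : Prop := ∀ i, S.L i tau = ∑ j, S.x j * S.L i (X j)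

/-- `r = 1 - lap g - |grad g|^2/2`. -/
noncomputable def rr (g : R) : R := 1 - S.lap g - (1 / 2 : ℝ) • S.gam g g

/-- Trace free part of `2 Hess g - grad g (x) grad g`. -/
noncomputable def ZZ (g : R) (i j : Fin 3) : R :=
  2 * S.hes g i j - S.L i g * S.L j g - (S.lap g - (1 / 2 : ℝ) • S.gam g g) * S.pr i j

end SA
end NShell
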